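import Pool.Agent.H863R2.NL.PsSum

/-!
# The exponential moments of the number of loops of the cylinder, near zero
-/

set_option autoImplicit false

namespace Pool.Agent.H78NF
open Pool.Agent.H863R2.NL (EN mu fN mu_nonneg mu_sum IsPs ps_exists cN vN)
open Pool.Agent.H863R2.Cyl (Wd)
open scoped Real

/-- second order expansion of the logarithm of a Bernoulli factor -/
theorem log_quad {p : ℝ} (hp0 : 0 < p) (hp1 : p ≤ 1 / 3) {z : ℂ} (hz : ‖z‖ ≤ 1 / 2) :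
    ∃ w : ℂ, Complex.exp w = 1 + (p : ℂ) * (Complex.exp z - 1) ∧
      ‖w - ((p : ℂ) * z + (p * (1 - p) : ℝ) * z ^ 2 / 2)‖ ≤ 2 * p * ‖z‖ ^ 3 := by
  have hz0 : 0 ≤ ‖z‖ := norm_nonneg z
  set u : ℂ := Complex.exp z - 1 with hu
  set y : ℂ := (p : ℂ) * u with hy
  have hu1 : ‖u‖ ≤ 2 * ‖z‖ := Complex.norm_exp_sub_one_le (hz.trans (by norm_num))
  have hpn : ‖(p : ℂ)‖ = p := by rw [Complex.norm_real, Real.norm_of_nonneg hp0.le]
  have hy1 : ‖y‖ ≤ 2 * p * ‖z‖ := by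
    rw [hy, norm_mul, hpn]
    nlinarith
  have hy2 : ‖y‖ ≤ 1 / 3 := by nlinarith
  have hy0 : 0 ≤ ‖y‖ := norm_nonneg y
  have hy3 : ‖y‖ < 1 := by linarith
  have hne : 1 + y ≠ 0 := by
    intro h
    have : y = -1 := by linear_combination h
    rw [this, norm_neg, norm_one] at hy3
    exact lt_irrefl _ hy3
  refine ⟨Complex.log (1 + y), Complex.exp_log hne, ?_⟩
  have hlog := Complex.norm_log_sub_logTaylor_le 2 hy3
  have hT : Complex.logTaylor (2 + 1) y = y - y ^ 2 / 2 := by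
    simp only [Complex.logTaylor, Finset.sum_range_succ, Finset.sum_range_zero]
    norm_num
    ring
  rw [hT] at hlog
  have hlog2 : ‖Complex.log (1 + y) - (y - y ^ 2 / 2)‖ ≤ ‖y‖ ^ 3 / 2 := by
    refine hlog.trans ?_
    have h1 : (1 - ‖y‖)⁻¹ ≤ 3 / 2 := by
      rw [inv_le_comm₀ (by linarith) (by norm_num)]
      linarith
    have h2 : ‖y‖ ^ (2 + 1) * (1 - ‖y‖)⁻¹ ≤ ‖y‖ ^ 3 * (3 / 2) :=
      mul_le_mul_of_nonneg_left h1 (by positivity)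
    push_cast
    linarith
  set e : ℂ := u - (z + z ^ 2 / 2) with he
  have he1 : ‖e‖ ≤ 2 / 9 * ‖z‖ ^ 3 := by
    have h := Complex.exp_bound (x := z) (hz.trans (by norm_num)) (n := 3) (by norm_num)
    have h2 : Complex.exp z - ∑ m ∈ Finset.range 3, z ^ m / (m.factorial : ℂ) = e := by
      rw [he, hu]
      simp only [Finset.sum_range_succ, Finset.sum_range_zero, Nat.factorial]
      norm_num
      ring
    rw [h2] at h
    refine h.trans (le_of_eq ?_)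
    simp only [Nat.factorial]
    norm_num
    ring
  have hq : y - y ^ 2 / 2 - ((p : ℂ) * z + (p * (1 - p) : ℝ) * z ^ 2 / 2) =
      (p : ℂ) * e - (p : ℂ) ^ 2 / 2 * ((u - z) * (u + z)) := by
    rw [hy, he]
    push_cast
    ring
  have hq2 : ‖u - z‖ ≤ ‖z‖ ^ 2 := by
    have e1 : u - z = z ^ 2 / 2 + e := by rw [he]; ring
    rw [e1]
    refine (norm_add_le _ _).trans ?_
    rw [norm_div, norm_pow]
    have : ‖(2 : ℂ)‖ = 2 := by norm_num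
    rw [this]
    have h3 : ‖z‖ ^ 3 ≤ 1 / 2 * ‖z‖ ^ 2 := by
      have : ‖z‖ ^ 3 = ‖z‖ * ‖z‖ ^ 2 := by ring
      rw [this]
      exact mul_le_mul_of_nonneg_right hz (by positivity)
    have h4 : 0 ≤ ‖z‖ ^ 2 := by positivity
    linarith
  have hq3 : ‖u + z‖ ≤ 3 * ‖z‖ := by
    refine (norm_add_le _ _).trans ?_
    linarith
  have hq4 : ‖y - y ^ 2 / 2 - ((p : ℂ) * z + (p * (1 - p) : ℝ) * z ^ 2 / 2)‖ ≤
      p * (2 / 9 * ‖z‖ ^ 3) + p ^ 2 / 2 * (3 * ‖z‖ ^ 3) := by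
    rw [hq]
    refine (norm_sub_le _ _).trans ?_
    rw [norm_mul, norm_mul, norm_mul, norm_div, norm_pow, hpn]
    have : ‖(2 : ℂ)‖ = 2 := by norm_num
    rw [this]
    have h1 : p * ‖e‖ ≤ p * (2 / 9 * ‖z‖ ^ 3) := mul_le_mul_of_nonneg_left he1 hp0.le
    have h2 : ‖u - z‖ * ‖u + z‖ ≤ ‖z‖ ^ 2 * (3 * ‖z‖) :=
      mul_le_mul hq2 hq3 (norm_nonneg _) (by positivity)
    have h3 : p ^ 2 / 2 * (‖u - z‖ * ‖u + z‖) ≤ p ^ 2 / 2 * (‖z‖ ^ 2 * (3 * ‖z‖)) :=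
      mul_le_mul_of_nonneg_left h2 (by positivity)
    have h4 : ‖z‖ ^ 2 * (3 * ‖z‖) = 3 * ‖z‖ ^ 3 := by ring
    rw [h4] at h3
    linarith
  have hfin := norm_sub_le_norm_sub_add_norm_sub (Complex.log (1 + y)) (y - y ^ 2 / 2)
    ((p : ℂ) * z + (p * (1 - p) : ℝ) * z ^ 2 / 2)
  have hy5 : ‖y‖ ^ 3 ≤ (2 * p * ‖z‖) ^ 3 := pow_le_pow_left₀ hy0 hy1 3
  have hz3 : 0 ≤ ‖z‖ ^ 3 := by positivity
  have hp2 : p ^ 2 ≤ p / 3 := by nlinarith
  have hp3 : p ^ 3 ≤ p / 9 := by nlinarith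
  have e1 : (2 * p * ‖z‖) ^ 3 = 8 * (p ^ 3 * ‖z‖ ^ 3) := by ring
  have e2 : p ^ 3 * ‖z‖ ^ 3 ≤ p / 9 * ‖z‖ ^ 3 := mul_le_mul_of_nonneg_right hp3 hz3
  have e3 : p ^ 2 / 2 * (3 * ‖z‖ ^ 3) ≤ p / 3 / 2 * (3 * ‖z‖ ^ 3) :=
    mul_le_mul_of_nonneg_right (by linarith) (by positivity)
  have e4 : 0 ≤ p * ‖z‖ ^ 3 := by positivity
  nlinarith

/-- the expansion of the product -/
theorem prod_quad (s : Multiset ℝ) (hs : ∀ p ∈ s, 0 < p ∧ p ≤ 1 / 3) {z : ℂ} (hz : ‖z‖ ≤ 1 / 2) :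
    ∃ w : ℂ, Complex.exp w = (s.map (fun p : ℝ => 1 + (p : ℂ) * (Complex.exp z - 1))).prod ∧
      ‖w - ((s.sum : ℝ) * z + ((s.map (fun p => p * (1 - p))).sum : ℝ) * z ^ 2 / 2)‖ ≤
        2 * s.sum * ‖z‖ ^ 3 := by
  induction s using Multiset.induction_on with
  | empty =>
    refine ⟨0, ?_, ?_⟩
    · simp
    · simp
  | cons a s ih =>
    obtain ⟨w, h1, h2⟩ := ih fun p hp => hs p (Multiset.mem_cons_of_mem hp)
    obtain ⟨ha0, ha1⟩ := hs a (Multiset.mem_cons_self a s)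
    obtain ⟨w', h3, h4⟩ := log_quad ha0 ha1 hz
    refine ⟨w' + w, ?_, ?_⟩
    · rw [Complex.exp_add, h1, h3, Multiset.map_cons, Multiset.prod_cons]
    · rw [Multiset.map_cons, Multiset.sum_cons, Multiset.sum_cons]
      have e : w' + w - (((a + s.sum : ℝ) : ℂ) * z +
          ((a * (1 - a) + (s.map (fun p => p * (1 - p))).sum : ℝ) : ℂ) * z ^ 2 / 2) =
          (w' - ((a : ℂ) * z + (a * (1 - a) : ℝ) * z ^ 2 / 2)) +
          (w - ((s.sum : ℝ) * z + ((s.map (fun p => p * (1 - p))).sum : ℝ) * z ^ 2 / 2)) := by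
        push_cast
        ring
      rw [e]
      refine (norm_add_le _ _).trans ?_
      linarith

/-- complex expectations -/
noncomputable def ENc (n : ℕ) (g : ℕ → ℂ) : ℂ :=
  ∑ σ : Wd (2 * n - 1 + 1), ∑ τ : Wd (2 * n - 1 + 1), (mu n σ : ℂ) * mu n τ * g (fN σ.1 τ.1)

theorem ENc_real (n : ℕ) (g : ℕ → ℝ) : ENc n (fun m => (g m : ℂ)) = (EN n g : ℂ) := by
  unfold ENc EN
  push_cast
  rfl

/-- **The exponential moments near zero.** -/
theorem mgfN : ∃ C : ℝ, 0 < C ∧ ∀ n : ℕ, 1 ≤ n → ∀ z : ℂ, ‖z‖ ≤ 1 / 2 → ∃ R : ℂ,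
    ‖R‖ ≤ C * (‖z‖ + Real.log n * ‖z‖ ^ 3) ∧
    ENc n (fun m => Complex.exp (z * m)) =
      Complex.exp ((cN * Real.log n : ℝ) * z + (vN * Real.log n : ℝ) * z ^ 2 / 2 + R) := by
  obtain ⟨ps, h1, ⟨C1, h2⟩, ⟨C2, h3⟩, -⟩ := ps_exists
  have hC1 : 0 ≤ C1 := (abs_nonneg _).trans (h2 1 le_rfl)
  have hC2 : 0 ≤ C2 := (abs_nonneg _).trans (h3 1 le_rfl)
  have hcN : 0 < cN := by
    unfold cN
    have := Real.pi_pos
    positivity
  refine ⟨C1 + C2 + 2 * cN + 2 * C1 + 1, by positivity, ?_⟩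
  intro n hn z hz
  have hn1 : (1 : ℝ) ≤ n := by exact_mod_cast hn
  have hl : 0 ≤ Real.log n := Real.log_nonneg hn1
  obtain ⟨w, hw1, hw2⟩ := prod_quad (ps n) (h1 n hn).1 hz
  have hid := (h1 n hn).2 (Complex.exp z)
  refine ⟨w - ((cN * Real.log n : ℝ) * z + (vN * Real.log n : ℝ) * z ^ 2 / 2), ?_, ?_⟩
  · have e : w - (((cN * Real.log n : ℝ) : ℂ) * z + ((vN * Real.log n : ℝ) : ℂ) * z ^ 2 / 2) =
        (w - (((ps n).sum : ℝ) * z + (((ps n).map (fun p => p * (1 - p))).sum : ℝ) * z ^ 2 / 2)) +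
        ((((ps n).sum - cN * Real.log n : ℝ) : ℂ) * z +
          ((((ps n).map (fun p => p * (1 - p))).sum - vN * Real.log n : ℝ) : ℂ) * z ^ 2 / 2) := by
      push_cast
      ring
    rw [e]
    have hz0 : 0 ≤ ‖z‖ := norm_nonneg z
    have a1 : ‖(((ps n).sum - cN * Real.log n : ℝ) : ℂ) * z‖ ≤ C1 * ‖z‖ := by
      rw [norm_mul, Complex.norm_real, Real.norm_eq_abs]
      exact mul_le_mul_of_nonneg_right (h2 n hn) hz0
    have a2 : ‖((((ps n).map (fun p => p * (1 - p))).sum - vN * Real.log n : ℝ) : ℂ) * z ^ 2 / 2‖ ≤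
        C2 * ‖z‖ := by
      rw [norm_div, norm_mul, Complex.norm_real, Real.norm_eq_abs, norm_pow]
      have : ‖(2 : ℂ)‖ = 2 := by norm_num
      rw [this]
      have h4 := mul_le_mul_of_nonneg_right (h3 n hn) (by positivity : 0 ≤ ‖z‖ ^ 2)
      have h5 : ‖z‖ ^ 2 ≤ ‖z‖ := by nlinarith
      have h6 : C2 * ‖z‖ ^ 2 ≤ C2 * ‖z‖ := mul_le_mul_of_nonneg_left h5 hC2
      have h7 : 0 ≤ C2 * ‖z‖ ^ 2 := by positivity
      linarith
    refine (norm_add_le _ _).trans ?_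
    refine (add_le_add hw2 (norm_add_le _ _)).trans ?_
    have h8 : (ps n).sum ≤ cN * Real.log n + C1 := by
      have := (abs_le.1 (h2 n hn)).2
      linarith
    have h9 : 2 * (ps n).sum * ‖z‖ ^ 3 ≤ 2 * (cN * Real.log n + C1) * ‖z‖ ^ 3 :=
      mul_le_mul_of_nonneg_right (by linarith) (by positivity)
    have h10 : ‖z‖ ^ 3 ≤ ‖z‖ := by
      have : ‖z‖ ^ 2 ≤ 1 := by nlinarith
      have e : ‖z‖ ^ 3 = ‖z‖ ^ 2 * ‖z‖ := by ring
      rw [e]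
      nlinarith
    have h11 : 2 * C1 * ‖z‖ ^ 3 ≤ 2 * C1 * ‖z‖ := mul_le_mul_of_nonneg_left h10 (by positivity)
    have h12 : 0 ≤ Real.log n * ‖z‖ ^ 3 := by positivity
    have h13 : 0 ≤ (C1 + C2 + 2 * C1 + 1) * (Real.log n * ‖z‖ ^ 3) := by positivity
    have h14 : 0 ≤ (2 * cN + 1) * ‖z‖ := by positivity
    nlinarith
  · have e : (((cN * Real.log n : ℝ) : ℂ) * z + ((vN * Real.log n : ℝ) : ℂ) * z ^ 2 / 2 +
        (w - (((cN * Real.log n : ℝ) : ℂ) * z + ((vN * Real.log n : ℝ) : ℂ) * z ^ 2 / 2))) = w := by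
      ring
    rw [e, hw1, ← hid]
    unfold ENc
    apply Finset.sum_congr rfl
    intro σ _
    apply Finset.sum_congr rfl
    intro τ _
    rw [← Complex.exp_nat_mul]
    congr 2
    ring_nf

/-- the real form -/
theorem mgfR : ∃ C : ℝ, 0 < C ∧ ∀ n : ℕ, 1 ≤ n → ∀ l : ℝ, |l| ≤ 1 / 2 → ∃ R : ℝ,
    |R| ≤ C * (|l| + Real.log n * |l| ^ 3) ∧
    EN n (fun m => Real.exp (l * m)) =
      Real.exp (cN * Real.log n * l + vN * Real.log n * l ^ 2 / 2 + R) := by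
  obtain ⟨C, hC, h⟩ := mgfN
  refine ⟨C, hC, ?_⟩
  intro n hn l hl
  have hl' : ‖(l : ℂ)‖ = |l| := by rw [Complex.norm_real, Real.norm_eq_abs]
  obtain ⟨R, hR, he⟩ := h n hn (l : ℂ) (by rw [hl']; exact hl)
  rw [hl'] at hR
  refine ⟨R.re, (Complex.abs_re_le_norm R).trans hR, ?_⟩
  have h1 : ENc n (fun m => Complex.exp ((l : ℂ) * m)) =
      ((EN n (fun m => Real.exp (l * m)) : ℝ) : ℂ) := by
    rw [← ENc_real]
    congr 1
    funext m
    push_cast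
    rfl
  rw [h1] at he
  have h2 := congrArg norm he
  rw [Complex.norm_real, Complex.norm_exp, Real.norm_eq_abs, abs_of_nonneg] at h2
  · rw [h2]
    congr 1
    simp only [Complex.add_re, Complex.mul_re, Complex.ofReal_re, Complex.ofReal_im, zero_mul,
      sub_zero, add_left_inj]
    have e2 : (((vN * Real.log n : ℝ) : ℂ) * (l : ℂ) ^ 2 / 2).re = vN * Real.log n * l ^ 2 / 2 := by
      have : ((vN * Real.log n : ℝ) : ℂ) * (l : ℂ) ^ 2 / 2 =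
          ((vN * Real.log n * l ^ 2 / 2 : ℝ) : ℂ) := by
        push_cast
        rfl
      rw [this, Complex.ofReal_re]
    rw [e2]
  · unfold EN
    apply Finset.sum_nonneg
    intro σ _
    apply Finset.sum_nonneg
    intro τ _
    exact mul_nonneg (mul_nonneg (mu_nonneg n σ) (mu_nonneg n τ)) (Real.exp_pos _).le

end Pool.Agent.H78NF
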