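import Pool.Agent.H78NF.A
import Pool.Agent.H863R2.NL.Pow

/-!
# Tails of the number of loops of the cylinder
-/

set_option autoImplicit false

namespace Pool.Agent.H78NF
open H974
open Pool.Agent.H863R2.NL (EN EN_mul EN_add EN_mono EN_const mu fN mu_nonneg mu_sum IsPs ps_exists
  cN vN)
open Pool.Agent.H863R2.Cyl (Wd)
open scoped Real

theorem EN_sub (n : ℕ) (g g' : ℕ → ℝ) : EN n (fun m => g m - g' m) = EN n g - EN n g' := by
  have h := EN_add n g (fun m => (-1) * g' m)
  rw [EN_mul] at h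
  have e : (fun m => g m - g' m) = fun m => g m + (-1) * g' m := by
    funext m
    ring
  rw [e, h]
  ring

theorem vN_pos : 0 < vN := by
  unfold vN
  have hpi := Real.pi_pos
  have h3 : √3 < 2 := by
    rw [Real.sqrt_lt' (by norm_num)]
    norm_num
  have h30 : 0 < √3 := Real.sqrt_pos.2 (by norm_num)
  have h4 := Real.pi_gt_three
  rw [sub_pos, div_lt_div_iff₀ (by positivity) (by positivity)]
  have h5 : 1 * (3 * √3 * π) ≤ 6 * π := by nlinarith
  have h6 : 6 * π < 4 * π ^ 2 := by nlinarith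
  nlinarith

theorem cN_pos : 0 < cN := by
  unfold cN
  have := Real.pi_pos
  positivity

/-- Markov -/
theorem chern_up (n : ℕ) {l : ℝ} (hl : 0 ≤ l) (M : ℝ) :
    EN n (fun m => ind (M ≤ m)) ≤ Real.exp (-(l * M)) * EN n (fun m => Real.exp (l * m)) := by
  rw [← EN_mul]
  apply EN_mono
  intro m
  by_cases h : M ≤ m
  · rw [ind_of h, ← Real.exp_add]
    apply Real.one_le_exp
    nlinarith
  · rw [ind_not_of h]
    positivity

theorem chern_lo (n : ℕ) {l : ℝ} (hl : 0 ≤ l) (M : ℝ) :
    EN n (fun m => ind ((m : ℝ) ≤ M)) ≤ Real.exp (l * M) * EN n (fun m => Real.exp (-l * m)) := by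
  rw [← EN_mul]
  apply EN_mono
  intro m
  by_cases h : (m : ℝ) ≤ M
  · rw [ind_of h, ← Real.exp_add]
    apply Real.one_le_exp
    nlinarith
  · rw [ind_not_of h]
    positivity

/-- **Upper bounds of the tails.** -/
theorem tail_up : ∃ C : ℝ, 0 < C ∧ ∀ n : ℕ, 1 ≤ n → ∀ l : ℝ, 0 ≤ l → l ≤ 1 / 2 → ∀ y : ℝ,
    EN n (fun m => ind (cN * Real.log n + y ≤ m)) ≤
      Real.exp (-(l * y) + vN * Real.log n * l ^ 2 / 2 + C * (l + Real.log n * l ^ 3)) ∧
    EN n (fun m => ind ((m : ℝ) ≤ cN * Real.log n - y)) ≤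
      Real.exp (-(l * y) + vN * Real.log n * l ^ 2 / 2 + C * (l + Real.log n * l ^ 3)) := by
  obtain ⟨C, hC, h⟩ := mgfR
  refine ⟨C, hC, ?_⟩
  intro n hn l hl0 hl1 y
  constructor
  · obtain ⟨R, hR, he⟩ := h n hn l (by rw [abs_of_nonneg hl0]; exact hl1)
    rw [abs_of_nonneg hl0] at hR
    refine (chern_up n hl0 _).trans ?_
    rw [he, ← Real.exp_add]
    apply Real.exp_le_exp.2
    have := (abs_le.1 hR).2
    nlinarith
  · obtain ⟨R, hR, he⟩ := h n hn (-l) (by rw [abs_neg, abs_of_nonneg hl0]; exact hl1)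
    rw [abs_neg, abs_of_nonneg hl0] at hR
    refine (chern_lo n hl0 _).trans ?_
    rw [he, ← Real.exp_add]
    apply Real.exp_le_exp.2
    have := (abs_le.1 hR).2
    nlinarith

/-- **Lower bound of the probability of a window.** -/
theorem window : ∃ C : ℝ, 0 < C ∧ ∀ n : ℕ, 1 ≤ n → ∀ l η : ℝ, 0 < η → |l| + η ≤ 1 / 2 →
    vN * Real.log n * η ^ 2 ≤ 4 → C * (|l| + η + Real.log n * (|l| + η) ^ 3) ≤ 1 / 8 →
    1 / 2 * Real.exp (-(vN * Real.log n * l ^ 2 / 2) - |l| * (4 / η)) ≤
      EN n (fun m => ind (|(m : ℝ) - (cN * Real.log n + vN * Real.log n * l)| ≤ 4 / η)) := by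
  obtain ⟨C, hC, h⟩ := mgfR
  refine ⟨C, hC, ?_⟩
  intro n hn l η hη hlη hvη herr
  have hn1 : (1 : ℝ) ≤ n := by exact_mod_cast hn
  set s := Real.log n with hs
  have hs0 : 0 ≤ s := Real.log_nonneg hn1
  set u : ℝ := 4 / η with hu
  have hηu : η * u = 4 := by
    rw [hu]
    field_simp
  have hu0 : 0 < u := by positivity
  set m0 : ℝ := cN * s + vN * s * l with hm0
  have hl0 := abs_nonneg l
  obtain ⟨R0, hR0, he0⟩ := h n hn l (by linarith)
  obtain ⟨R1, hR1, he1⟩ := h n hn (l + η) (by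
    have := abs_add_le l η
    rw [abs_of_pos hη] at this
    linarith)
  obtain ⟨R2, hR2, he2⟩ := h n hn (l - η) (by
    have := abs_sub l η
    rw [abs_of_pos hη] at this
    linarith)
  have herr' : ∀ x : ℝ, 0 ≤ x → x ≤ |l| + η → C * (x + s * x ^ 3) ≤ 1 / 8 := by
    intro x hx0 hx
    refine le_trans ?_ herr
    apply mul_le_mul_of_nonneg_left _ hC.le
    have := pow_le_pow_left₀ hx0 hx 3
    have := mul_le_mul_of_nonneg_left this hs0
    linarith
  have b0 : |R0| ≤ 1 / 8 := hR0.trans (herr' _ hl0 (by linarith))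
  have b1 : |R1| ≤ 1 / 8 := hR1.trans (herr' _ (abs_nonneg _) (by
    have := abs_add_le l η
    rw [abs_of_pos hη] at this
    exact this))
  have b2 : |R2| ≤ 1 / 8 := hR2.trans (herr' _ (abs_nonneg _) (by
    have := abs_sub l η
    rw [abs_of_pos hη] at this
    exact this))
  set A : ℝ := Real.exp (cN * s * l + vN * s * l ^ 2 / 2) with hA
  have hA0 : 0 < A := Real.exp_pos _
  have k0 : A * Real.exp (-(1 / 8)) ≤ EN n (fun m => Real.exp (l * m)) := by
    rw [he0, hA, ← Real.exp_add]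
    apply Real.exp_le_exp.2
    have := (abs_le.1 b0).1
    linarith
  have k1 : Real.exp (-(η * (m0 + u))) * EN n (fun m => Real.exp ((l + η) * m)) ≤
      A * Real.exp (-2 + 1 / 8) := by
    rw [he1, hA, ← Real.exp_add, ← Real.exp_add]
    apply Real.exp_le_exp.2
    have h1 := (abs_le.1 b1).2
    have e1 : -(η * (m0 + u)) + (cN * s * (l + η) + vN * s * (l + η) ^ 2 / 2 + R1) =
        cN * s * l + vN * s * l ^ 2 / 2 + vN * s * η ^ 2 / 2 - η * u + R1 := by
      rw [hm0]
      ring
    rw [e1, hηu]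
    linarith
  have k2 : Real.exp (η * (m0 - u)) * EN n (fun m => Real.exp ((l - η) * m)) ≤
      A * Real.exp (-2 + 1 / 8) := by
    rw [he2, hA, ← Real.exp_add, ← Real.exp_add]
    apply Real.exp_le_exp.2
    have h1 := (abs_le.1 b2).2
    have e1 : η * (m0 - u) + (cN * s * (l - η) + vN * s * (l - η) ^ 2 / 2 + R2) =
        cN * s * l + vN * s * l ^ 2 / 2 + vN * s * η ^ 2 / 2 - η * u + R2 := by
      rw [hm0]
      ring
    rw [e1, hηu]
    linarith
  have num : 1 / 2 + 2 * Real.exp (-2 + 1 / 8) ≤ Real.exp (-(1 / 8)) := by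
    have h1 : Real.exp (-(1 / 8)) ≥ 7 / 8 := by
      have := Real.add_one_le_exp (-(1 / 8 : ℝ))
      linarith
    have h2 : Real.exp (-2 + 1 / 8) ≤ 3 / 16 := by
      have e1 : (-2 + 1 / 8 : ℝ) = -(15 / 8) := by norm_num
      rw [e1, Real.exp_neg, inv_le_comm₀ (Real.exp_pos _) (by norm_num)]
      have h3 : (16 / 3 : ℝ) ≤ Real.exp (15 / 8) := by
        have h4 := Real.quadratic_le_exp_of_nonneg (show (0:ℝ) ≤ 15 / 16 by norm_num)
        have h5 : Real.exp (15 / 8) = Real.exp (15 / 16) ^ 2 := by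
          rw [← Real.exp_nat_mul]
          norm_num
        rw [h5]
        have h6 : (2.37 : ℝ) ≤ Real.exp (15 / 16) := by
          refine le_trans ?_ h4
          norm_num
        nlinarith
      norm_num at h3 ⊢
      linarith
    linarith
  have key : A / 2 ≤ EN n (fun m => Real.exp (l * m0 + |l| * u) *
      ind (|(m : ℝ) - m0| ≤ u)) := by
    have hpt : ∀ m : ℕ, Real.exp (l * m) - Real.exp (-(η * (m0 + u))) * Real.exp ((l + η) * m) -
        Real.exp (η * (m0 - u)) * Real.exp ((l - η) * m) ≤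
        Real.exp (l * m0 + |l| * u) * ind (|(m : ℝ) - m0| ≤ u) := by
      intro m
      rw [← Real.exp_add, ← Real.exp_add]
      by_cases hm : |(m : ℝ) - m0| ≤ u
      · rw [ind_of hm, mul_one]
        have h1 : Real.exp (l * m) ≤ Real.exp (l * m0 + |l| * u) := by
          apply Real.exp_le_exp.2
          have h2 : l * ((m : ℝ) - m0) ≤ |l| * |(m : ℝ) - m0| := by
            rw [← abs_mul]
            exact le_abs_self _
          have h3 := mul_le_mul_of_nonneg_left hm hl0
          linarith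
        have h4 := Real.exp_pos (-(η * (m0 + u)) + (l + η) * m)
        have h5 := Real.exp_pos (η * (m0 - u) + (l - η) * m)
        linarith
      · rw [ind_not_of hm, mul_zero]
        push Not at hm
        have h4 := Real.exp_pos (-(η * (m0 + u)) + (l + η) * m)
        have h5 := Real.exp_pos (η * (m0 - u) + (l - η) * m)
        rcases lt_abs.1 hm with h6 | h6
        · have h7 : Real.exp (l * m) ≤ Real.exp (-(η * (m0 + u)) + (l + η) * m) := by
            apply Real.exp_le_exp.2
            nlinarith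
          linarith
        · have h7 : Real.exp (l * m) ≤ Real.exp (η * (m0 - u) + (l - η) * m) := by
            apply Real.exp_le_exp.2
            nlinarith
          linarith
    have h1 := EN_mono (n := n) hpt
    rw [EN_sub, EN_sub, EN_mul, EN_mul] at h1
    have h2 := mul_le_mul_of_nonneg_left num hA0.le
    refine le_trans ?_ h1
    nlinarith
  rw [EN_mul] at key
  have e1 : -(vN * s * l ^ 2 / 2) - |l| * u = (cN * s * l + vN * s * l ^ 2 / 2) -
      (l * m0 + |l| * u) := by
    rw [hm0]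
    ring
  rw [e1, Real.exp_sub, ← hA]
  rw [mul_comm, ← div_le_iff₀ (Real.exp_pos _)] at key
  refine le_trans (le_of_eq ?_) key
  ring

end Pool.Agent.H78NF
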