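import Pool.Agent.H78NF.B

/-!
# Tails of the number of layers of the plane, at the dyadic scales
-/

set_option autoImplicit false

namespace Pool.Agent.H78NF
open H974
open Pool.Agent.H863R2.NL (EN EN_mul EN_add EN_mono EN_const ET ET_le EN_le EN_ge ET_le_ET ET_const
  ET_mul ET_add cN vN)
open scoped Real

/-- the ratio of the tails of the links -/
noncomputable def rr : ℝ := 1 - (1 / 2 : ℝ) ^ 47

theorem rr_pos : 0 < rr := by unfold rr; norm_num
theorem rr_lt : rr < 1 := by unfold rr; norm_num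

/-- the mean per dyadic scale -/
noncomputable def cc : ℝ := cN * Real.log 2

/-- the variance per dyadic scale -/
noncomputable def vv : ℝ := vN * Real.log 2

theorem log2_pos : 0 < Real.log 2 := Real.log_pos (by norm_num)
theorem log2_le : Real.log 2 ≤ 1 := by
  have := Real.log_le_sub_one_of_pos (show (0:ℝ) < 2 by norm_num)
  linarith

theorem cc_pos : 0 < cc := mul_pos cN_pos log2_pos
theorem vv_pos : 0 < vv := mul_pos vN_pos log2_pos

/-- the circumference which belongs to the scale `i` -/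
def nn (i : ℕ) : ℕ := 10 * 2 ^ (i - 2)

theorem nn_pos (i : ℕ) : 1 ≤ nn i := by
  unfold nn
  have : 0 < 2 ^ (i - 2) := by positivity
  omega

theorem log_nn {i : ℕ} (hi : 2 ≤ i) : Real.log (nn i) = i * Real.log 2 + Real.log (5 / 2) := by
  unfold nn
  have e : ((10 * 2 ^ (i - 2) : ℕ) : ℝ) = 2 ^ i * (5 / 2) := by
    obtain ⟨j, rfl⟩ : ∃ j, i = j + 2 := ⟨i - 2, by omega⟩
    have : j + 2 - 2 = j := by omega
    rw [this]
    push_cast
    rw [pow_add]
    ring
  rw [e, Real.log_mul (by positivity) (by norm_num), Real.log_pow]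

theorem lg_pos : 0 ≤ Real.log (5 / 2) := Real.log_nonneg (by norm_num)

theorem lg_le : Real.log (5 / 2) ≤ 2 := by
  have := Real.log_le_sub_one_of_pos (show (0:ℝ) < 5 / 2 by norm_num)
  linarith

theorem log_nn_le {i : ℕ} (hi : 2 ≤ i) : Real.log (nn i) ≤ 2 * i := by
  rw [log_nn hi]
  have h1 := log2_le
  have h2 := lg_le
  have h3 : (2 : ℝ) ≤ i := by exact_mod_cast hi
  nlinarith

theorem four_pow {i : ℕ} (hi : 2 ≤ i) : 4 * 2 ^ (i - 2) = 2 ^ i := by
  obtain ⟨j, rfl⟩ : ∃ j, i = j + 2 := ⟨i - 2, by omega⟩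
  have : j + 2 - 2 = j := by omega
  rw [this, pow_add]
  ring

theorem cmp_mono {i : ℕ} (hi : 2 ≤ i) {g : ℕ → ℝ} (hg : Monotone g) :
    ET (2 ^ i) g ≤ EN (nn i) g := by
  apply ET_le _ hg
  rw [← four_pow hi]
  unfold nn
  have : 0 < 2 ^ (i - 2) := by positivity
  omega

theorem cmp_anti {i : ℕ} (hi : 2 ≤ i) {g : ℕ → ℝ} (hg : Antitone g) :
    EN (nn i) g ≤ ET (2 ^ i) g := by
  apply EN_le _ hg
  rw [← four_pow hi]
  unfold nn
  have : 0 < 2 ^ (i - 2) := by positivity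
  omega

theorem cmp_link {i : ℕ} (hi : 2 ≤ i) (k : ℕ) {g : ℕ → ℝ} (hg : Antitone g) (h0 : ∀ m, 0 ≤ g m)
    (h1 : ∀ m, g m ≤ 1) :
    ET (2 ^ i) (fun m => g (m + 1 + 10 * k)) ≤ EN (nn i) g + 6 * rr ^ (k + 1) := by
  have h := EN_ge (a := 2 ^ (i - 2)) k (by positivity) hg h0
  rw [four_pow hi] at h
  have h2 : ET (2 * 2 ^ (i - 2) - 1) (fun m => g (m + 1 + 10 * k)) ≤ 1 := by
    have := ET_le_ET (k := 2 * 2 ^ (i - 2) - 1) (g := fun m => g (m + 1 + 10 * k))
      (g' := fun _ => 1) (fun m => h1 _)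
    rwa [ET_const] at this
  have h3 : 0 ≤ 6 * rr ^ (k + 1) := by
    have := rr_pos
    positivity
  have h4 : 6 * (1 - (1/2 : ℝ) ^ 47) ^ (k + 1) *
      ET (2 * 2 ^ (i - 2) - 1) (fun m => g (m + 1 + 10 * k)) ≤ 6 * rr ^ (k + 1) * 1 :=
    mul_le_mul_of_nonneg_left h2 h3
  rw [mul_one] at h4
  unfold nn
  linarith

theorem ind_mono {P Q : Prop} (h : P → Q) : ind P ≤ ind Q := by
  by_cases hP : P
  · rw [ind_of hP, ind_of (h hP)]
  · rw [ind_not_of hP]
    exact ind_nonneg _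

theorem g_mono (M : ℝ) : Monotone (fun m : ℕ => ind (M ≤ m)) := by
  intro a b hab
  apply ind_mono
  intro h
  have : (a : ℝ) ≤ b := by exact_mod_cast hab
  linarith

theorem g_anti (M : ℝ) : Antitone (fun m : ℕ => ind ((m : ℝ) ≤ M)) := by
  intro a b hab
  apply ind_mono
  intro h
  have : (a : ℝ) ≤ b := by exact_mod_cast hab
  linarith

theorem g_anti' (M : ℝ) : Antitone (fun m : ℕ => ind ((m : ℝ) < M)) := by
  intro a b hab
  apply ind_mono
  intro h
  have : (a : ℝ) ≤ b := by exact_mod_cast hab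
  linarith

/-- **Upper bounds of the tails.** -/
theorem T_up : ∃ C : ℝ, 0 < C ∧ ∀ i : ℕ, 2 ≤ i → ∀ l : ℝ, 0 ≤ l → l ≤ 1 / 2 →
    (∀ y : ℝ, ET (2 ^ i) (fun m => ind (cc * i + y ≤ m)) ≤
      Real.exp (-(l * y) + vv * i * l ^ 2 / 2 + C * (l + i * l ^ 3))) ∧
    (∀ (y : ℝ) (k : ℕ), ET (2 ^ i) (fun m => ind ((m : ℝ) ≤ cc * i - y)) ≤
      Real.exp (-(l * y) + vv * i * l ^ 2 / 2 + C * (l * (k + 1) + i * l ^ 3)) +
        6 * rr ^ (k + 1)) := by
  obtain ⟨C, hC, h⟩ := tail_up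
  have hcN := cN_pos
  have hvN := vN_pos
  refine ⟨2 * C + 2 * cN + 2 * vN + 11, by positivity, ?_⟩
  intro i hi l hl0 hl1
  have hiR : (2 : ℝ) ≤ i := by exact_mod_cast hi
  have e1 : cN * Real.log (nn i) = cc * i + cN * Real.log (5 / 2) := by
    rw [log_nn hi]
    unfold cc
    ring
  have e2 : vN * Real.log (nn i) * l ^ 2 / 2 = vv * i * l ^ 2 / 2 + vN * Real.log (5 / 2) * l ^ 2 / 2 := by
    rw [log_nn hi]
    unfold vv
    ring
  have g1 : 0 ≤ cN * Real.log (5 / 2) := mul_nonneg hcN.le lg_pos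
  have g2 : cN * Real.log (5 / 2) ≤ 2 * cN := by nlinarith [lg_le]
  have g3 : vN * Real.log (5 / 2) * l ^ 2 / 2 ≤ vN * l := by
    have h1 : vN * Real.log (5 / 2) * l ^ 2 / 2 ≤ vN * 2 * l ^ 2 / 2 := by
      have := mul_le_mul_of_nonneg_right (mul_le_mul_of_nonneg_left lg_le hvN.le)
        (by positivity : 0 ≤ l ^ 2)
      linarith
    have h2 : l ^ 2 ≤ l := by nlinarith
    have h3 := mul_le_mul_of_nonneg_left h2 hvN.le
    linarith
  have g4 : C * (l + Real.log (nn i) * l ^ 3) ≤ 2 * C * (l + i * l ^ 3) := by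
    have h1 := mul_le_mul_of_nonneg_right (log_nn_le hi) (by positivity : 0 ≤ l ^ 3)
    have h2 : l + Real.log (nn i) * l ^ 3 ≤ 2 * (l + i * l ^ 3) := by linarith
    have h3 := mul_le_mul_of_nonneg_left h2 hC.le
    linarith
  have g5 : 0 ≤ (i : ℝ) * l ^ 3 := by positivity
  have g6 : 0 ≤ (2 * cN + 2 * vN + 11) * (i * l ^ 3) := by positivity
  constructor
  · intro y
    refine (cmp_mono hi (g_mono _)).trans ?_
    have h1 := (h (nn i) (nn_pos i) l hl0 hl1 (y - cN * Real.log (5 / 2))).1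
    have e3 : cN * Real.log (nn i) + (y - cN * Real.log (5 / 2)) = cc * i + y := by
      rw [e1]; ring
    rw [e3] at h1
    refine h1.trans (Real.exp_le_exp.2 ?_)
    rw [e2]
    have h2 : l * (cN * Real.log (5 / 2)) ≤ l * (2 * cN) := mul_le_mul_of_nonneg_left g2 hl0
    nlinarith
  · intro y k
    have h0 := cmp_link hi k (g_anti (cc * i - y + (1 + 10 * k))) (fun m => ind_nonneg _)
      (fun m => ind_le_one _)
    have e4 : (fun m : ℕ => ind (((m + 1 + 10 * k : ℕ) : ℝ) ≤ cc * i - y + (1 + 10 * k))) =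
        fun m : ℕ => ind ((m : ℝ) ≤ cc * i - y) := by
      funext m
      congr 1
      push_cast
      rw [eq_iff_iff]
      constructor <;> intro h <;> linarith
    simp only [e4] at h0
    have h1 := (h (nn i) (nn_pos i) l hl0 hl1 (y + cN * Real.log (5 / 2) - (1 + 10 * k))).2
    have e3 : cN * Real.log (nn i) - (y + cN * Real.log (5 / 2) - (1 + 10 * k)) =
        cc * i - y + (1 + 10 * k) := by
      rw [e1]; ring
    rw [e3] at h1
    refine h0.trans (add_le_add (h1.trans (Real.exp_le_exp.2 ?_)) le_rfl)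
    rw [e2]
    have h2 : 0 ≤ l * (cN * Real.log (5 / 2)) := mul_nonneg hl0 g1
    have hk0 : (0 : ℝ) ≤ k := Nat.cast_nonneg k
    have h3 : 0 ≤ l * k := by positivity
    have h4 : 0 ≤ (2 * C + 2 * cN + 2 * vN + 1) * (l * k) := by positivity
    have h5 : 0 ≤ (2 * cN + vN) * l := by positivity
    nlinarith

/-- the side conditions of `window` at the scale `i` -/
theorem side {C : ℝ} (hC : 0 < C) : ∃ (δ : ℝ) (I0 : ℕ), 0 < δ ∧ 2 ≤ I0 ∧ ∀ i : ℕ, I0 ≤ i →
    ∀ l : ℝ, i * |l| ^ 3 ≤ δ →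
      |l| + 1 / √(vN * i) ≤ 1 / 2 ∧ vN * Real.log (nn i) * (1 / √(vN * i)) ^ 2 ≤ 4 ∧
      C * (|l| + 1 / √(vN * i) + Real.log (nn i) * (|l| + 1 / √(vN * i)) ^ 3) ≤ 1 / 8 := by
  have hvN := vN_pos
  -- choose a bound for η and for |l|
  set δ : ℝ := 1 / (400 * (C + 1)) with hδ
  have hδ0 : 0 < δ := by positivity
  set β : ℝ := 1 / (400 * (C + 1)) with hβ
  obtain ⟨I1, hI1⟩ := exists_nat_gt (δ / β ^ 3)
  obtain ⟨I2, hI2⟩ := exists_nat_gt (1 / (vN * β ^ 2))
  obtain ⟨I3, hI3⟩ := exists_nat_gt ((1 / (vN * √vN) / β) ^ 2)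
  refine ⟨δ, I1 + I2 + I3 + 2, hδ0, by omega, ?_⟩
  intro i hi l hl
  have hi2 : 2 ≤ i := by omega
  have hiR : (2 : ℝ) ≤ i := by exact_mod_cast hi2
  have hi0 : (0 : ℝ) < i := by linarith
  have c1 : (I1 : ℝ) ≤ i := by exact_mod_cast (by omega : I1 ≤ i)
  have c2 : (I2 : ℝ) ≤ i := by exact_mod_cast (by omega : I2 ≤ i)
  have c3 : (I3 : ℝ) ≤ i := by exact_mod_cast (by omega : I3 ≤ i)
  have hβ0 : 0 < β := by positivity
  have hβ1 : β ≤ 1 / 400 := by
    rw [hβ]
    apply one_div_le_one_div_of_le (by norm_num)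
    linarith
  have hl0 := abs_nonneg l
  have bl : |l| ≤ β := by
    by_contra hc
    push Not at hc
    have h1 : β ^ 3 < |l| ^ 3 := pow_lt_pow_left₀ hc hβ0.le (by norm_num)
    have h2 : δ / β ^ 3 < i := hI1.trans_le c1
    rw [div_lt_iff₀ (by positivity)] at h2
    have h3 : (i : ℝ) * β ^ 3 < i * |l| ^ 3 := mul_lt_mul_of_pos_left h1 hi0
    linarith
  set η : ℝ := 1 / √(vN * i) with hη
  have hsq : 0 < √(vN * i) := Real.sqrt_pos.2 (by positivity)
  have hη0 : 0 < η := by positivity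
  have hη2 : η ^ 2 = 1 / (vN * i) := by
    rw [hη, div_pow, one_pow, Real.sq_sqrt (by positivity)]
  have bη : η ≤ β := by
    have h2 : 1 / (vN * β ^ 2) < i := hI2.trans_le c2
    rw [div_lt_iff₀ (by positivity)] at h2
    have h3 : η ^ 2 ≤ β ^ 2 := by
      rw [hη2, div_le_iff₀ (by positivity)]
      linarith
    exact (pow_le_pow_iff_left₀ hη0.le hβ0.le (by norm_num)).1 h3
  have hη3 : (i : ℝ) * η ^ 3 ≤ β := by
    have e : (i : ℝ) * η ^ 3 = 1 / (vN * √vN) / √i := by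
      have h4 : η ^ 3 = η ^ 2 * η := by ring
      rw [h4, hη2, hη, Real.sqrt_mul hvN.le]
      have h5 : 0 < √vN := Real.sqrt_pos.2 hvN
      have h6 : 0 < √(i : ℝ) := Real.sqrt_pos.2 hi0
      field_simp
    rw [e]
    have h4 : (1 / (vN * √vN) / β) ^ 2 < i := hI3.trans_le c3
    have h5 : 0 < √vN := Real.sqrt_pos.2 hvN
    have h6 : 0 < √(i : ℝ) := Real.sqrt_pos.2 hi0
    have h7 : 1 / (vN * √vN) / β ≤ √(i : ℝ) := Real.le_sqrt_of_sq_le h4.le
    rw [div_le_iff₀ hβ0] at h7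
    rw [div_le_iff₀ h6]
    linarith
  refine ⟨by linarith, ?_, ?_⟩
  · have h1 := log_nn_le hi2
    rw [hη2]
    have h2 : vN * Real.log (nn i) * (1 / (vN * i)) = Real.log (nn i) / i := by
      field_simp
    rw [h2, div_le_iff₀ hi0]
    linarith
  · have h1 := log_nn_le hi2
    have h2 : (|l| + η) ^ 3 ≤ 4 * (|l| ^ 3 + η ^ 3) := by
      nlinarith [sq_nonneg (|l| - η), mul_nonneg (add_nonneg hl0 hη0.le) (sq_nonneg (|l| - η))]
    have h3 : Real.log (nn i) * (|l| + η) ^ 3 ≤ 2 * i * (4 * (|l| ^ 3 + η ^ 3)) := by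
      apply mul_le_mul h1 h2 (by positivity) (by positivity)
    have h4 : 2 * (i : ℝ) * (4 * (|l| ^ 3 + η ^ 3)) ≤ 8 * δ + 8 * β := by nlinarith
    have h5 : |l| + η + Real.log (nn i) * (|l| + η) ^ 3 ≤ 18 * β := by
      have : δ = β := rfl
      linarith
    have h6 := mul_le_mul_of_nonneg_left h5 hC.le
    refine h6.trans ?_
    have e : C * (18 * β) = (18 / 400) * (C / (C + 1)) := by
      rw [hβ]
      field_simp
    rw [e]
    have h7 : C / (C + 1) ≤ 1 := by
      rw [div_le_one (by positivity)]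
      linarith
    have h8 : 0 ≤ C / (C + 1) := by positivity
    nlinarith

/-- **Lower bounds of the tails.** -/
theorem T_lo : ∃ (C δ : ℝ) (I0 : ℕ), 0 < C ∧ 0 < δ ∧ 2 ≤ I0 ∧ ∀ i : ℕ, I0 ≤ i → ∀ l : ℝ,
    i * |l| ^ 3 ≤ δ →
    (∀ k : ℕ, 1 / 2 * Real.exp (-(vv * i * l ^ 2 / 2) - C * (|l| * √i + 1)) ≤
      ET (2 ^ i) (fun m => ind (cc * i + vv * i * l - C * (√i + 1 + k) ≤ m)) + 6 * rr ^ (k + 1)) ∧
    (1 / 2 * Real.exp (-(vv * i * l ^ 2 / 2) - C * (|l| * √i + 1)) ≤
      ET (2 ^ i) (fun m => ind ((m : ℝ) ≤ cc * i + vv * i * l + C * (√i + 1)))) := by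
  obtain ⟨C0, hC0, h⟩ := window
  obtain ⟨δ, I0, hδ, hI0, hs⟩ := side hC0
  have hcN := cN_pos
  have hvN := vN_pos
  have hsv : 0 < √vN := Real.sqrt_pos.2 hvN
  refine ⟨4 * √vN + 2 * cN + 2 * vN + 11, δ, I0, by positivity, hδ, hI0, ?_⟩
  intro i hi l hl
  set C : ℝ := 4 * √vN + 2 * cN + 2 * vN + 11 with hC
  have hi2 : 2 ≤ i := hI0.trans hi
  have hiR : (2 : ℝ) ≤ i := by exact_mod_cast hi2
  have hi0 : (0 : ℝ) < i := by linarith
  have hsi : 0 < √(i : ℝ) := Real.sqrt_pos.2 hi0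
  obtain ⟨s1, s2, s3⟩ := hs i hi l hl
  have hl0 := abs_nonneg l
  have hη0 : 0 < 1 / √(vN * i) := by
    have : 0 < √(vN * i) := Real.sqrt_pos.2 (by positivity)
    positivity
  have hl1 : |l| ≤ 1 / 2 := by linarith
  have hw := h (nn i) (nn_pos i) l (1 / √(vN * i)) hη0 s1 s2 s3
  have eu : 4 / (1 / √(vN * i)) = 4 * √vN * √i := by
    rw [Real.sqrt_mul hvN.le]
    field_simp
  rw [eu] at hw
  have e1 : cN * Real.log (nn i) + vN * Real.log (nn i) * l = cc * i + vv * i * l +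
      (cN * Real.log (5 / 2) + vN * Real.log (5 / 2) * l) := by
    rw [log_nn hi2]
    unfold cc vv
    ring
  set w : ℝ := cN * Real.log (5 / 2) + vN * Real.log (5 / 2) * l with hw0
  have hw1 : |w| ≤ 2 * cN + vN := by
    rw [hw0]
    refine (abs_add_le _ _).trans ?_
    rw [abs_of_nonneg (mul_nonneg hcN.le lg_pos), abs_mul, abs_of_nonneg (mul_nonneg hvN.le lg_pos)]
    have h1 := lg_le
    have h2 := lg_pos
    have h3 : vN * Real.log (5 / 2) * |l| ≤ vN * 2 * (1 / 2) := by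
      apply mul_le_mul (mul_le_mul_of_nonneg_left h1 hvN.le) hl1 hl0 (by positivity)
    nlinarith
  have lhs : 1 / 2 * Real.exp (-(vv * i * l ^ 2 / 2) - C * (|l| * √i + 1)) ≤
      EN (nn i) (fun m => ind (|(m : ℝ) - (cN * Real.log (nn i) + vN * Real.log (nn i) * l)| ≤
        4 * √vN * √i)) := by
    refine le_trans ?_ hw
    apply mul_le_mul_of_nonneg_left _ (by norm_num)
    apply Real.exp_le_exp.2
    have e2 : vN * Real.log (nn i) * l ^ 2 / 2 =
        vv * i * l ^ 2 / 2 + vN * Real.log (5 / 2) * l ^ 2 / 2 := by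
      rw [log_nn hi2]
      unfold vv
      ring
    rw [e2]
    have h1 : vN * Real.log (5 / 2) * l ^ 2 / 2 ≤ vN := by
      have h2 : l ^ 2 ≤ 1 := by
        rw [← sq_abs]
        nlinarith
      have h3 : vN * Real.log (5 / 2) * l ^ 2 ≤ vN * 2 * 1 :=
        mul_le_mul (mul_le_mul_of_nonneg_left lg_le hvN.le) h2 (by positivity) (by positivity)
      linarith
    have h4 : |l| * (4 * √vN * √i) ≤ C * (|l| * √i) := by
      have : 4 * √vN ≤ C := by rw [hC]; linarith
      have h5 : 0 ≤ |l| * √i := by positivity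
      nlinarith
    have h6 : vN ≤ C := by rw [hC]; linarith
    linarith
  constructor
  · intro k
    refine lhs.trans ?_
    rw [e1]
    set M : ℝ := cc * i + vv * i * l + w - 4 * √vN * √i with hM
    have h1 : EN (nn i) (fun m => ind (|(m : ℝ) - (cc * i + vv * i * l + w)| ≤ 4 * √vN * √i)) ≤
        1 - EN (nn i) (fun m => ind ((m : ℝ) < M)) := by
      have h2 := EN_sub (nn i) (fun _ => 1) (fun m => ind ((m : ℝ) < M))
      rw [EN_const] at h2
      rw [← h2]
      apply EN_mono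
      intro m
      by_cases hm : |(m : ℝ) - (cc * i + vv * i * l + w)| ≤ 4 * √vN * √i
      · rw [ind_of hm, ind_not_of]
        · norm_num
        · have := (abs_le.1 hm).1
          rw [hM]
          linarith
      · rw [ind_not_of hm]
        have := ind_le_one ((m : ℝ) < M)
        linarith
    have h3 := cmp_link hi2 k (g_anti' M) (fun m => ind_nonneg _) (fun m => ind_le_one _)
    have h4 : 1 ≤ ET (2 ^ i) (fun m => ind ((((m + 1 + 10 * k : ℕ) : ℕ) : ℝ) < M)) +
        ET (2 ^ i) (fun m => ind (cc * i + vv * i * l - C * (√i + 1 + k) ≤ m)) := by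
      rw [← ET_add]
      have h5 := ET_le_ET (k := 2 ^ i) (g := fun _ => 1) (g' := fun m =>
        ind ((((m + 1 + 10 * k : ℕ) : ℕ) : ℝ) < M) +
        ind (cc * i + vv * i * l - C * (√i + 1 + k) ≤ m)) (by
          intro m
          by_cases hm : (((m + 1 + 10 * k : ℕ) : ℕ) : ℝ) < M
          · rw [ind_of hm]
            have := ind_nonneg (cc * i + vv * i * l - C * (√i + 1 + k) ≤ m)
            linarith
          · rw [ind_not_of hm, ind_of, zero_add]
            push Not at hm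
            rw [hM] at hm
            push_cast at hm
            have h6 := (abs_le.1 hw1).1
            have h7 : 4 * √vN * √i ≤ C * √i := by
              apply mul_le_mul_of_nonneg_right _ hsi.le
              rw [hC]; linarith
            have h8 : (0 : ℝ) ≤ k := Nat.cast_nonneg k
            have h9 : 10 * (k : ℝ) ≤ C * k := by
              apply mul_le_mul_of_nonneg_right _ h8
              rw [hC]
              have := hsv
              linarith
            have h10 : 1 + 2 * cN + vN ≤ C := by rw [hC]; linarith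
            linarith)
      rwa [ET_const] at h5
    linarith
  · refine lhs.trans ?_
    rw [e1]
    have h1 : EN (nn i) (fun m => ind (|(m : ℝ) - (cc * i + vv * i * l + w)| ≤ 4 * √vN * √i)) ≤
        EN (nn i) (fun m => ind ((m : ℝ) ≤ cc * i + vv * i * l + C * (√i + 1))) := by
      apply EN_mono
      intro m
      apply ind_mono
      intro hm
      have h2 := (abs_le.1 hm).2
      have h6 := (abs_le.1 hw1).2
      have h7 : 4 * √vN * √i ≤ C * √i := by
        apply mul_le_mul_of_nonneg_right _ hsi.le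
        rw [hC]; linarith
      have h10 : 2 * cN + vN ≤ C := by rw [hC]; linarith
      linarith
    exact h1.trans (cmp_anti hi2 (g_anti _))

end Pool.Agent.H78NF
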