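import Pool.Agent.H78NF.C
import Pool.Agent.H78CZ.G

/-!
# The number of layers at the dyadic scales: approximate additivity
-/

set_option autoImplicit false

namespace Pool.Agent.H78NF
open H974 H906.Cyl Finset
open Pool.Agent.W819.EN (vb P2 bx an NA Geo geoNA Lnk LTail ltail)
open Pool.Agent.H863R2.NL (ET ET_le_ET ET_const)
open Pool.Agent.H78CZ (ok2 bx_mono ex_tr NA_local)

/-- the number of layers up to the scale `i` -/
noncomputable def XF (i : ℕ) (F : Finset Edg) : ℝ := (NA F (0, 0) 0 (2 ^ i) : ℝ)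

/-- the number of layers between the scales `i + 1` and `l` -/
noncomputable def ZF (i l : ℕ) (F : Finset Edg) : ℝ := (NA F (0, 0) (2 ^ (i + 1)) (2 ^ l) : ℝ)

/-- the cheap link at the scale `i` -/
def LF (i k : ℕ) (F : Finset Edg) : Prop := Lnk (0, 0) (2 ^ i) k F

/-- the edges up to the scale `l` -/
noncomputable def BS (l : ℕ) : Finset Edg := bx (0, 0) ((2 ^ l : ℕ) : ℤ)

/-- the edges between the scales -/
noncomputable def AS (i l : ℕ) : Finset Edg := an (0, 0) (2 ^ (i + 1)) (2 ^ l)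

theorem BS_mono {i l : ℕ} (h : i ≤ l) : BS i ⊆ BS l := by
  apply bx_mono
  exact_mod_cast Nat.pow_le_pow_right (by norm_num) h

theorem AS_sub (i l : ℕ) : AS i l ⊆ BS l := Finset.sdiff_subset

theorem disj_BA (i l : ℕ) : Disjoint (BS i) (AS i l) := by
  have h : BS i ⊆ bx (0, 0) (((2 ^ (i + 1) : ℕ) : ℤ) - 1) := by
    apply bx_mono
    have : 2 ^ i + 1 ≤ 2 ^ (i + 1) := by
      have := Nat.one_le_two_pow (n := i)
      rw [pow_succ]
      omega
    have h2 : ((2 ^ i + 1 : ℕ) : ℤ) ≤ ((2 ^ (i + 1) : ℕ) : ℤ) := by exact_mod_cast this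
    push_cast at h2 ⊢
    linarith
  exact Finset.disjoint_of_subset_left h Finset.disjoint_sdiff

theorem disj_AA {i l i' l' : ℕ} (h : l ≤ i') : Disjoint (AS i l) (AS i' l') :=
  Finset.disjoint_of_subset_left ((AS_sub i l).trans (BS_mono h)) (disj_BA i' l')

theorem X_nonneg (i : ℕ) (F : Finset Edg) : 0 ≤ XF i F := Nat.cast_nonneg _

theorem X_le (i : ℕ) (F : Finset Edg) : XF i F ≤ 2 * 2 ^ i := by
  have h := geoNA.le F (0, 0) 0 (2 ^ i)
  unfold XF
  exact_mod_cast h

theorem X_super {i l : ℕ} (h : i + 1 ≤ l) (F : Finset Edg) : XF i F + ZF i l F ≤ XF l F := by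
  have h1 := geoNA.super F (0, 0) 0 (2 ^ i) (2 ^ (i + 1)) (2 ^ l) (Nat.zero_le _)
    (Nat.pow_lt_pow_right (by norm_num) (by omega)) (Nat.pow_le_pow_right (by norm_num) h)
  unfold XF ZF
  exact_mod_cast h1

theorem X_link {i l k : ℕ} (hi : 1 ≤ i) (h : i + 2 ≤ l) {F : Finset Edg} (hL : LF (i - 1) k F) :
    XF l F ≤ XF i F + ZF i l F + (4 + 18 * k) := by
  obtain ⟨j, rfl⟩ : ∃ j, i = j + 1 := ⟨i - 1, by omega⟩
  have e : j + 1 - 1 = j := by omega
  rw [e] at hL
  have h1 := geoNA.link F (0, 0) (2 ^ j) k 0 (2 ^ l) Nat.one_le_two_pow (Nat.zero_le _) (by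
    calc 8 * 2 ^ j = 2 ^ (j + 3) := by rw [pow_add]; ring
      _ ≤ 2 ^ l := Nat.pow_le_pow_right (by norm_num) (by omega)) hL
  have e1 : 2 * 2 ^ j = 2 ^ (j + 1) := by rw [pow_succ]; ring
  have e2 : 4 * 2 ^ j = 2 ^ (j + 1 + 1) := by rw [pow_succ, pow_succ]; ring
  rw [e1, e2] at h1
  unfold XF ZF
  exact_mod_cast h1

theorem X_loc (i : ℕ) (F : Finset Edg) {S : Finset Edg} (h : BS i ⊆ S) :
    XF i F = XF i (F ∩ S) := by
  unfold XF
  rw [NA_local F (0, 0) (2 ^ i) h]

theorem Z_loc {i l : ℕ} (h : i + 1 ≤ l) (F : Finset Edg) : ZF i l F = ZF i l (F ∩ AS i l) := by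
  unfold ZF AS
  rw [← geoNA.loc F (0, 0) (2 ^ (i + 1)) (2 ^ l) (Nat.pow_le_pow_right (by norm_num) h)]

/-- the law of the number of layers -/
theorem law_NA (v : Vtx) (R : ℕ) {S : Finset Edg} (hS : bx v R ⊆ S) (g : ℕ → ℝ) :
    Ex P2 S (fun F => g (NA F v 0 R)) = ET R g := by
  rw [Ex_local hS (f := fun F => g (NA F v 0 R))
    (fun F _ => by show g (NA F v 0 R) = g (NA (F ∩ bx v R) v 0 R)
                   rw [← NA_local F v R (Finset.Subset.refl _)])]
  rw [ex_tr, Pool.Agent.W819.EN.ET_eq]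
  apply Ex_congr
  intro F _
  have h := geoNA.tr F v (0, 0) 0 R
  simp only [zero_add] at h
  rw [h]

theorem law_X (i : ℕ) {S : Finset Edg} (hS : BS i ⊆ S) (Q : ℝ → Prop) :
    Pr P2 S (fun F => Q (XF i F)) = ET (2 ^ i) (fun m => ind (Q m)) := by
  unfold Pr XF
  exact law_NA (0, 0) (2 ^ i) hS (fun m => ind (Q m))

/-- the tails of the links -/
theorem link_tail : ∃ C : ℝ, 0 < C ∧ ∀ (i k : ℕ) (S : Finset Edg), BS (i + 3) ⊆ S →
    Pr P2 S (fun F => ¬ LF i k F) ≤ C * (1 / 2 : ℝ) ^ k := by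
  obtain ⟨C, hC, hT⟩ := ltail (1 / 2 : ℝ) (by positivity)
  refine ⟨C, hC, ?_⟩
  intro i k S hS
  apply hT (2 ^ i) (0, 0) S Nat.one_le_two_pow
  refine Finset.Subset.trans ?_ hS
  apply bx_mono
  push_cast
  rw [pow_add]
  norm_num
  linarith [pow_pos (show (0:ℤ) < 2 by norm_num) i]

/-! ### moderate deviations with probability one half -/

theorem mod1 : ∃ A : ℝ, 0 < A ∧ ∀ m : ℕ, 4 ≤ m → ∀ i : ℕ, i ≤ m →
    ET (2 ^ i) (fun n => ind (cc * i + A * √m ≤ n)) ≤ 1 / 12 ∧
    ET (2 ^ i) (fun n => ind ((n : ℝ) ≤ cc * i - A * √m)) ≤ 1 / 12 := by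
  obtain ⟨C, hC, h⟩ := T_up
  obtain ⟨k, hk⟩ := exists_pow_lt_of_lt_one (show (0 : ℝ) < 1 / 144 by norm_num) rr_lt
  have hv := vv_pos
  have hc := cc_pos
  obtain ⟨A, hA⟩ := exists_nat_gt (vv + C * (k + 2) + 8 + 2 * cc)
  have hk0 : (0 : ℝ) ≤ k := Nat.cast_nonneg k
  have hA0 : (8 : ℝ) < A := by
    have : 0 < C * (k + 2) := by positivity
    linarith
  refine ⟨A, by linarith, ?_⟩
  intro m hm i hi
  have hmR : (4 : ℝ) ≤ m := by exact_mod_cast hm
  have hs2 : 2 ≤ √(m : ℝ) := Real.le_sqrt_of_sq_le (by linarith)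
  have hs0 : 0 < √(m : ℝ) := by linarith
  have hss : √(m : ℝ) * √(m : ℝ) = m := Real.mul_self_sqrt (by linarith)
  have him : (i : ℝ) ≤ m := by exact_mod_cast hi
  rcases Nat.lt_or_ge i 2 with hi2 | hi2
  · have hi1 : (i : ℝ) ≤ 1 := by exact_mod_cast (by omega : i ≤ 1)
    have hi0 : (0 : ℝ) ≤ i := Nat.cast_nonneg i
    constructor
    · rw [← law_X i (Finset.Subset.refl _) (fun x => cc * i + A * √m ≤ x)]
      have h1 : Pr P2 (BS i) (fun F => cc * i + A * √m ≤ XF i F) ≤ Pr P2 (BS i) (fun _ => False) := by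
        apply Pr_mono ok2
        intro F _ hF
        have h2 := X_le i F
        have h3 : (2 : ℝ) ^ i ≤ 2 := by
          calc (2 : ℝ) ^ i ≤ 2 ^ 1 := pow_le_pow_right₀ (by norm_num) (by omega)
            _ = 2 := by norm_num
        have h4 : 0 ≤ cc * i := mul_nonneg hc.le hi0
        nlinarith
      have h2 : Pr P2 (BS i) (fun _ => False) = 0 := by
        unfold Pr
        have : (fun F : Finset Edg => ind False) = fun _ => 0 := by
          funext F
          exact ind_not_of (by simp)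
        rw [this, Ex_const]
      linarith
    · rw [← law_X i (Finset.Subset.refl _) (fun x => x ≤ cc * i - A * √m)]
      have h1 : Pr P2 (BS i) (fun F => XF i F ≤ cc * i - A * √m) ≤ Pr P2 (BS i) (fun _ => False) := by
        apply Pr_mono ok2
        intro F _ hF
        have h2 := X_nonneg i F
        have h4 : cc * i ≤ cc := by nlinarith
        have h5 : 0 < C * (k + 2) := by positivity
        nlinarith
      have h2 : Pr P2 (BS i) (fun _ => False) = 0 := by
        unfold Pr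
        have : (fun F : Finset Edg => ind False) = fun _ => 0 := by
          funext F
          exact ind_not_of (by simp)
        rw [this, Ex_const]
      linarith
  · set l : ℝ := 1 / √(m : ℝ) with hl
    have hl0 : 0 < l := by positivity
    have hl1 : l ≤ 1 / 2 := by
      rw [hl]
      exact one_div_le_one_div_of_le (by norm_num) hs2
    have hl2 : l ^ 2 = 1 / m := by
      rw [hl, div_pow, one_pow, Real.sq_sqrt (by linarith)]
    have hly : l * (A * √m) = A := by
      rw [hl]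
      field_simp
    have hil : (i : ℝ) * l ^ 2 ≤ 1 := by
      rw [hl2, mul_one_div, div_le_one (by linarith)]
      exact him
    have hil3 : (i : ℝ) * l ^ 3 ≤ 1 / 2 := by
      have : (i : ℝ) * l ^ 3 = i * l ^ 2 * l := by ring
      rw [this]
      nlinarith
    obtain ⟨h1, h2⟩ := h i hi2 l hl0.le hl1
    have hexp : ∀ x : ℝ, x ≤ -8 → Real.exp x ≤ 1 / 24 := by
      intro x hx
      have h3 : Real.exp x ≤ Real.exp (-8) := Real.exp_le_exp.2 hx
      have h4 : Real.exp (-8) ≤ 1 / 24 := by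
        rw [Real.exp_neg, inv_le_comm₀ (Real.exp_pos _) (by norm_num)]
        have h5 := Real.quadratic_le_exp_of_nonneg (show (0:ℝ) ≤ 8 by norm_num)
        refine le_trans ?_ h5
        norm_num
      exact h3.trans h4
    have hv2 : vv * i * l ^ 2 / 2 ≤ vv := by nlinarith
    constructor
    · refine (h1 (A * √m)).trans ?_
      rw [hly]
      have h3 : C * (l + i * l ^ 3) ≤ C * (k + 2) := by
        apply mul_le_mul_of_nonneg_left _ hC.le
        linarith
      have := hexp (-(A : ℝ) + vv * i * l ^ 2 / 2 + C * (l + i * l ^ 3)) (by linarith)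
      linarith
    · refine (h2 (A * √m) k).trans ?_
      rw [hly]
      have h3 : C * (l * (k + 1) + i * l ^ 3) ≤ C * (k + 2) := by
        apply mul_le_mul_of_nonneg_left _ hC.le
        have : l * (k + 1) ≤ 1 / 2 * (k + 1) := mul_le_mul_of_nonneg_right hl1 (by linarith)
        linarith
      have h4 := hexp (-(A : ℝ) + vv * i * l ^ 2 / 2 + C * (l * (k + 1) + i * l ^ 3)) (by linarith)
      have h5 : rr ^ (k + 1) ≤ rr ^ k := pow_le_pow_of_le_one rr_pos.le rr_lt.le (by omega)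
      linarith

theorem Pr_compl {S : Finset Edg} (A : Finset Edg → Prop) : Pr P2 S (fun F => ¬ A F) = 1 - Pr P2 S A :=
  Pr_not _ _

/-- **The increments.** -/
theorem Zmod : ∃ A : ℝ, 0 < A ∧ ∀ (i l : ℕ) (S : Finset Edg), 1 ≤ i → i + 2 ≤ l → 4 ≤ l →
    BS l ⊆ S →
    1 / 2 ≤ Pr P2 S (fun F => cc * (l - i) - A * √l ≤ ZF i l F) ∧
    1 / 2 ≤ Pr P2 S (fun F => ZF i l F ≤ cc * (l - i) + A * √l) := by
  obtain ⟨A, hA, h⟩ := mod1
  obtain ⟨C, hC, hL⟩ := link_tail
  obtain ⟨k, hk⟩ := exists_pow_lt_of_lt_one (show (0 : ℝ) < 1 / (12 * C) by positivity)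
    (show (1 / 2 : ℝ) < 1 by norm_num)
  have hk0 : (0 : ℝ) ≤ k := Nat.cast_nonneg k
  refine ⟨2 * A + (4 + 18 * k), by positivity, ?_⟩
  intro i l S hi hil hl hS
  have hmR : (4 : ℝ) ≤ l := by exact_mod_cast hl
  have hs2 : 2 ≤ √(l : ℝ) := Real.le_sqrt_of_sq_le (by linarith)
  obtain ⟨a1, a2⟩ := h l hl i (by omega)
  obtain ⟨b1, b2⟩ := h l hl l le_rfl
  rw [← law_X i ((BS_mono (by omega : i ≤ l)).trans hS) (fun x => cc * i + A * √l ≤ x)] at a1
  rw [← law_X i ((BS_mono (by omega : i ≤ l)).trans hS) (fun x => x ≤ cc * i - A * √l)] at a2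
  rw [← law_X l hS (fun x => cc * l + A * √l ≤ x)] at b1
  rw [← law_X l hS (fun x => x ≤ cc * l - A * √l)] at b2
  constructor
  · have h1 : Pr P2 S (fun F => ¬ (cc * (l - i) - (2 * A + (4 + 18 * k)) * √l ≤ ZF i l F)) ≤
        Pr P2 S (fun F => cc * i + A * √l ≤ XF i F) + Pr P2 S (fun F => XF l F ≤ cc * l - A * √l) +
          Pr P2 S (fun F => ¬ LF (i - 1) k F) := by
      have h2 : Pr P2 S (fun F => ¬ (cc * (l - i) - (2 * A + (4 + 18 * k)) * √l ≤ ZF i l F)) ≤
          Pr P2 S (fun F => (cc * i + A * √l ≤ XF i F ∨ XF l F ≤ cc * l - A * √l) ∨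
            ¬ LF (i - 1) k F) := by
        apply Pr_mono ok2
        intro F _ hF
        by_contra hc
        push Not at hc hF
        obtain ⟨⟨c1, c2⟩, c3⟩ := hc
        have h3 := X_link hi hil c3
        have h4 : (4 + 18 * (k : ℝ)) ≤ (4 + 18 * k) * √l := by nlinarith
        nlinarith
      refine h2.trans ((Pr_or_le ok2 _ _ _).trans ?_)
      have := Pr_or_le ok2 S (fun F => cc * i + A * √l ≤ XF i F) (fun F => XF l F ≤ cc * l - A * √l)
      linarith
    have h5 := hL (i - 1) k S ((BS_mono (by omega)).trans hS)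
    have h6 : C * (1 / 2 : ℝ) ^ k ≤ 1 / 12 := by
      have := mul_le_mul_of_nonneg_left hk.le hC.le
      refine this.trans (le_of_eq ?_)
      field_simp
    rw [Pr_compl] at h1
    linarith
  · have h1 : Pr P2 S (fun F => ¬ (ZF i l F ≤ cc * (l - i) + (2 * A + (4 + 18 * k)) * √l)) ≤
        Pr P2 S (fun F => XF i F ≤ cc * i - A * √l) +
          Pr P2 S (fun F => cc * l + A * √l ≤ XF l F) := by
      have h2 : Pr P2 S (fun F => ¬ (ZF i l F ≤ cc * (l - i) + (2 * A + (4 + 18 * k)) * √l)) ≤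
          Pr P2 S (fun F => XF i F ≤ cc * i - A * √l ∨ cc * l + A * √l ≤ XF l F) := by
        apply Pr_mono ok2
        intro F _ hF
        by_contra hc
        push Not at hc hF
        obtain ⟨c1, c2⟩ := hc
        have h3 := X_super (by omega : i + 1 ≤ l) F
        have h4 : 0 ≤ (4 + 18 * (k : ℝ)) * √l := by positivity
        nlinarith
      exact h2.trans (Pr_or_le ok2 _ _ _)
    rw [Pr_compl] at h1
    linarith

end Pool.Agent.H78NF
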