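import Pool.Agent.H78NF.D

/-!
# Maximal inequality
-/

set_option autoImplicit false

namespace Pool.Agent.H78NF
open H974 H906.Cyl Finset
open Pool.Agent.W819.EN (vb P2 bx an NA Geo geoNA Lnk LTail ltail)
open Pool.Agent.H863R2.NL (ET ET_le_ET ET_const)
open Pool.Agent.H78CZ (ok2 bx_mono ex_tr NA_local)

/-- **Ottaviani's inequality.** -/
theorem ottav {U : Finset Edg} (i0 i1 : ℕ) (Q B : ℕ → Finset Edg → Prop) (E : Finset Edg → Prop)
    (Sq Sb : ℕ → Finset Edg) (hSq : ∀ i, i0 ≤ i → i ≤ i1 → Sq i ⊆ U)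
    (hmono : ∀ i j, i ≤ j → Sq i ⊆ Sq j)
    (hSb : ∀ i, i0 ≤ i → i ≤ i1 → Sb i ⊆ U)
    (hd : ∀ i, i0 ≤ i → i ≤ i1 → Disjoint (Sq i) (Sb i))
    (hQ : ∀ i F S, Sq i ⊆ S → (Q i F ↔ Q i (F ∩ S)))
    (hB : ∀ i, i0 ≤ i → i ≤ i1 → ∀ F, (B i F ↔ B i (F ∩ Sb i)))
    (hB2 : ∀ i, i0 ≤ i → i ≤ i1 → 1 / 2 ≤ Pr P2 U (B i))
    (hE : ∀ i, i0 ≤ i → i ≤ i1 → ∀ F, F ⊆ U → Q i F → B i F → E F) :
    Pr P2 U (fun F => ∃ i, i0 ≤ i ∧ i ≤ i1 ∧ Q i F) ≤ 2 * Pr P2 U E := by
  classical
  set A : ℕ → Finset Edg → Prop := fun i F => Q i F ∧ ∀ j, i0 ≤ j → j < i → ¬ Q j F with hA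
  have h1 : Pr P2 U (fun F => ∃ i, i0 ≤ i ∧ i ≤ i1 ∧ Q i F) ≤
      ∑ i ∈ Finset.Icc i0 i1, Pr P2 U (A i) := by
    unfold Pr
    rw [← Ex_sum]
    apply Ex_mono ok2
    intro F _
    by_cases h : ∃ i, i0 ≤ i ∧ i ≤ i1 ∧ Q i F
    · rw [ind_of h]
      have hex : ∃ i, i0 ≤ i ∧ i ≤ i1 ∧ Q i F := h
      obtain ⟨m1, m2, m3⟩ := Nat.find_spec hex
      have hm : A (Nat.find hex) F := by
        refine ⟨m3, fun j hj hlt hQj => Nat.find_min hex hlt ⟨hj, by omega, hQj⟩⟩
      have h2 : ind (A (Nat.find hex) F) ≤ ∑ i ∈ Finset.Icc i0 i1, ind (A i F) :=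
        Finset.single_le_sum (f := fun i => ind (A i F)) (fun i _ => ind_nonneg _)
          (Finset.mem_Icc.2 ⟨m1, m2⟩)
      rw [ind_of hm] at h2
      exact h2
    · rw [ind_not_of h]
      exact Finset.sum_nonneg fun i _ => ind_nonneg _
  have hAloc : ∀ i, i0 ≤ i → i ≤ i1 → ∀ F, F ⊆ U → (A i F ↔ A i (F ∩ Sq i)) := by
    intro i h2 h3 F _
    simp only [hA]
    rw [hQ i F (Sq i) (Finset.Subset.refl _)]
    apply and_congr_right
    intro _
    refine forall_congr' fun j => forall_congr' fun _ => forall_congr' fun h5 => ?_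
    rw [hQ j F (Sq i) (hmono j i h5.le)]
  have h2 : ∑ i ∈ Finset.Icc i0 i1, Pr P2 U (fun F => A i F ∧ B i F) ≤ Pr P2 U E := by
    unfold Pr
    rw [← Ex_sum]
    apply Ex_mono ok2
    intro F hF
    by_cases h : ∃ i ∈ Finset.Icc i0 i1, A i F ∧ B i F
    · obtain ⟨i, hi, h3, h4⟩ := h
      have hi' := Finset.mem_Icc.1 hi
      have hEF : E F := hE i hi'.1 hi'.2 F hF h3.1 h4
      rw [ind_of hEF]
      rw [Finset.sum_eq_single_of_mem i hi]
      · exact ind_le_one _
      · intro j hj hji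
        apply ind_not_of
        rintro ⟨h5, -⟩
        have hj' := Finset.mem_Icc.1 hj
        rcases lt_or_gt_of_ne hji with h6 | h6
        · exact h3.2 j hj'.1 h6 h5.1
        · exact h5.2 i hi'.1 h6 h3.1
    · push Not at h
      rw [Finset.sum_eq_zero]
      · exact ind_nonneg _
      · intro i hi
        exact ind_not_of fun h3 => h i hi h3.1 h3.2
  have h3 : ∑ i ∈ Finset.Icc i0 i1, Pr P2 U (A i) ≤
      2 * ∑ i ∈ Finset.Icc i0 i1, Pr P2 U (fun F => A i F ∧ B i F) := by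
    rw [Finset.mul_sum]
    apply Finset.sum_le_sum
    intro i hi
    obtain ⟨hi1, hi2⟩ := Finset.mem_Icc.1 hi
    rw [Pr_indep (hSq i hi1 hi2) (hSb i hi1 hi2) (hd i hi1 hi2) (hAloc i hi1 hi2)
      (fun F _ => hB i hi1 hi2 F)]
    have h4 := Pr_nonneg ok2 U (A i)
    have h5 := hB2 i hi1 hi2
    nlinarith
  linarith

/-- **Maximal inequalities for the number of layers.** -/
theorem max_ineq : ∃ A C : ℝ, 0 < A ∧ 0 < C ∧ ∀ (i0 i1 l : ℕ), 1 ≤ i0 → i1 + 2 ≤ l → 4 ≤ l →
    ∀ (x : ℝ) (k : ℕ) (S : Finset Edg), BS (l + 1) ⊆ S →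
    Pr P2 S (fun F => ∃ i, i0 ≤ i ∧ i ≤ i1 ∧ cc * i + x ≤ XF i F) ≤
      2 * ET (2 ^ l) (fun m => ind (cc * l + (x - A * √l) ≤ m)) ∧
    Pr P2 S (fun F => ∃ i, i0 ≤ i ∧ i ≤ i1 ∧ XF i F ≤ cc * i - x) ≤
      2 * (ET (2 ^ l) (fun m => ind ((m : ℝ) ≤ cc * l - (x - A * √l - (4 + 18 * k)))) +
        l * (C * (1 / 2 : ℝ) ^ k)) := by
  obtain ⟨A, hA, hZ⟩ := Zmod
  obtain ⟨C, hC, hL⟩ := link_tail
  refine ⟨A, C, hA, hC, ?_⟩
  intro i0 i1 l hi0 hil hl x k S hS
  have hS' : BS l ⊆ S := (BS_mono (by omega)).trans hS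
  constructor
  · rw [← law_X l hS' (fun y => cc * l + (x - A * √l) ≤ y)]
    apply ottav i0 i1 (fun i F => cc * i + x ≤ XF i F)
      (fun i F => cc * (l - i) - A * √l ≤ ZF i l F) (fun F => cc * l + (x - A * √l) ≤ XF l F)
      (fun i => BS i) (fun i => AS i l)
    · intro i _ h2
      exact (BS_mono (by omega)).trans hS
    · intro i j hij
      exact BS_mono hij
    · intro i _ _
      exact (AS_sub i l).trans hS'
    · intro i _ _
      exact disj_BA i l
    · intro i F T hT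
      rw [X_loc i F hT]
    · intro i _ h2 F
      rw [Z_loc (by omega : i + 1 ≤ l) F]
    · intro i h1 h2
      exact (hZ i l S (by omega) (by omega) hl hS').1
    · intro i _ h2 F _ h3 h4
      have h5 := X_super (by omega : i + 1 ≤ l) F
      linarith
  · have key := ottav (U := S) i0 i1 (fun i F => XF i F ≤ cc * i - x)
      (fun i F => ZF i l F ≤ cc * (l - i) + A * √l)
      (fun F => XF l F ≤ cc * l - (x - A * √l - (4 + 18 * k)) ∨
        ∃ j ∈ Finset.range (l - 1), ¬ LF j k F)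
      (fun i => BS i) (fun i => AS i l)
      (by
        intro i _ h2
        exact (BS_mono (by omega)).trans hS)
      (by
        intro i j hij
        exact BS_mono hij)
      (by
        intro i _ _
        exact (AS_sub i l).trans hS')
      (by
        intro i _ _
        exact disj_BA i l)
      (by
        intro i F T hT
        rw [X_loc i F hT])
      (by
        intro i _ h2 F
        rw [Z_loc (by omega : i + 1 ≤ l) F])
      (by
        intro i h1 h2
        exact (hZ i l S (by omega) (by omega) hl hS').2)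
      (by
        intro i h1 h2 F _ h3 h4
        by_cases h5 : ∃ j ∈ Finset.range (l - 1), ¬ LF j k F
        · exact Or.inr h5
        · push Not at h5
          left
          have h6 := X_link (by omega : 1 ≤ i) (by omega : i + 2 ≤ l)
            (h5 (i - 1) (Finset.mem_range.2 (by omega)))
          linarith)
    refine key.trans ?_
    apply mul_le_mul_of_nonneg_left _ (by norm_num)
    refine (Pr_or_le ok2 _ _ _).trans ?_
    rw [law_X l hS' (fun y => y ≤ cc * l - (x - A * √l - (4 + 18 * k)))]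
    apply add_le_add le_rfl
    have h1 : Pr P2 S (fun F => ∃ j ∈ Finset.range (l - 1), ¬ LF j k F) ≤
        ∑ j ∈ Finset.range (l - 1), Pr P2 S (fun F => ¬ LF j k F) := by
      classical
      unfold Pr
      rw [← Ex_sum]
      apply Ex_mono ok2
      intro F _
      by_cases h : ∃ j ∈ Finset.range (l - 1), ¬ LF j k F
      · rw [ind_of h]
        obtain ⟨j, hj, h2⟩ := h
        have h3 : ind (¬ LF j k F) ≤ ∑ i ∈ Finset.range (l - 1), ind (¬ LF i k F) :=
          Finset.single_le_sum (f := fun i => ind (¬ LF i k F)) (fun i _ => ind_nonneg _) hj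
        rwa [ind_of h2] at h3
      · rw [ind_not_of h]
        exact Finset.sum_nonneg fun i _ => ind_nonneg _
    refine h1.trans ?_
    have h2 : ∑ j ∈ Finset.range (l - 1), Pr P2 S (fun F => ¬ LF j k F) ≤
        ∑ j ∈ Finset.range (l - 1), C * (1 / 2 : ℝ) ^ k := by
      apply Finset.sum_le_sum
      intro j hj
      rw [Finset.mem_range] at hj
      exact hL j k S ((BS_mono (by omega)).trans hS)
    refine h2.trans ?_
    rw [Finset.sum_const, Finset.card_range, nsmul_eq_mul]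
    apply mul_le_mul_of_nonneg_right _ (by positivity)
    exact_mod_cast Nat.sub_le l 1

end Pool.Agent.H78NF
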