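import Pool.Agent.H78NF.E

/-!
# The probabilities of the blocks: upper bounds
-/

set_option autoImplicit false

namespace Pool.Agent.H78NF
open H974 H906.Cyl Finset Filter Topology
open Pool.Agent.W819.EN (vb P2 bx an NA Geo geoNA Lnk LTail ltail)
open Pool.Agent.H863R2.NL (ET ET_le_ET ET_const)
open Pool.Agent.H78CZ (ok2 bx_mono ex_tr NA_local)

/-- the iterated logarithm -/
noncomputable def LL (m : ℕ) : ℝ := Real.log (Real.log m)

/-- the scale function of the law of the iterated logarithm -/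
noncomputable def phi (m : ℕ) : ℝ := √(2 * vv * m * LL m)

theorem log_tend : Tendsto (fun m : ℕ => Real.log (m : ℝ)) atTop atTop :=
  Real.tendsto_log_atTop.comp tendsto_natCast_atTop_atTop

theorem LL_tend : Tendsto LL atTop atTop := Real.tendsto_log_atTop.comp log_tend

/-- number of link scales -/
noncomputable def kk (m : ℕ) : ℕ := ⌈(2 : ℝ) ^ 48 * Real.log m⌉₊

/-- the small quantity -/
noncomputable def qq (m : ℕ) : ℝ := √(LL m / m) * (kk m + 1)

theorem LL_le {m : ℕ} (hm : 2 ≤ m) : LL m ≤ Real.log m := by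
  unfold LL
  have h1 : (2 : ℝ) ≤ m := by exact_mod_cast hm
  have h2 : 0 < Real.log m := Real.log_pos (by linarith)
  have := Real.log_le_sub_one_of_pos h2
  linarith

theorem qq_tend : Tendsto qq atTop (𝓝 0) := by
  have h1 : Tendsto (fun m : ℕ => Real.log (m : ℝ) ^ 3 / m) atTop (𝓝 0) := by
    have h := (Real.isLittleO_pow_log_id_atTop (n := 3)).tendsto_div_nhds_zero
    exact h.comp tendsto_natCast_atTop_atTop
  have h2 : Tendsto (fun m : ℕ => (2 ^ 48 + 2) * √(Real.log (m : ℝ) ^ 3 / m)) atTop (𝓝 0) := by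
    have h3 := (Real.continuous_sqrt.tendsto 0).comp h1
    rw [Real.sqrt_zero] at h3
    have h4 := h3.const_mul ((2 : ℝ) ^ 48 + 2)
    rw [mul_zero] at h4
    exact h4
  refine squeeze_zero' ?_ ?_ h2
  · filter_upwards with m
    unfold qq
    positivity
  · filter_upwards [eventually_ge_atTop 3, log_tend.eventually_ge_atTop 1] with m hm hlog
    have hmR : (3 : ℝ) ≤ m := by exact_mod_cast hm
    have hm0 : (0 : ℝ) < m := by linarith
    have h5 : (kk m : ℝ) ≤ 2 ^ 48 * Real.log m + 1 :=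
      (Nat.ceil_lt_add_one (by positivity)).le
    have h6 : (kk m : ℝ) + 1 ≤ (2 ^ 48 + 2) * Real.log m := by nlinarith
    have h7 : LL m / m ≤ Real.log m / m :=
      div_le_div_of_nonneg_right (LL_le (by omega)) hm0.le
    have h8 : √(Real.log (m : ℝ) ^ 3 / m) = √(Real.log m / m) * Real.log m := by
      have e : Real.log (m : ℝ) ^ 3 / m = Real.log m / m * Real.log m ^ 2 := by ring
      rw [e, Real.sqrt_mul (by positivity), Real.sqrt_sq (by linarith)]
    unfold qq
    rw [h8]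
    calc √(LL m / m) * (kk m + 1) ≤ √(Real.log m / m) * ((2 ^ 48 + 2) * Real.log m) :=
          mul_le_mul (Real.sqrt_le_sqrt h7) h6 (by positivity) (by positivity)
      _ = _ := by ring

theorem rr_kk (m : ℕ) (hm : 2 ≤ m) : rr ^ (kk m) ≤ 1 / (m : ℝ) ^ 2 ∧
    (1 / 2 : ℝ) ^ (kk m) ≤ 1 / (m : ℝ) ^ 2 := by
  have hmR : (2 : ℝ) ≤ m := by exact_mod_cast hm
  have hm0 : (0 : ℝ) < m := by linarith
  have hl : 0 ≤ Real.log m := Real.log_nonneg (by linarith)
  have h1 : rr ^ (kk m) ≤ 1 / (m : ℝ) ^ 2 := by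
    have h2 : rr ≤ Real.exp (-(1 / 2 : ℝ) ^ 47) := by
      have := Real.add_one_le_exp (-(1 / 2 : ℝ) ^ 47)
      unfold rr
      linarith
    have h3 : rr ^ (kk m) ≤ Real.exp (-(1 / 2 : ℝ) ^ 47) ^ (kk m) :=
      pow_le_pow_left₀ rr_pos.le h2 _
    refine h3.trans ?_
    rw [← Real.exp_nat_mul]
    have h4 : (2 : ℝ) ^ 48 * Real.log m ≤ kk m := Nat.le_ceil _
    have h5 : (kk m : ℝ) * -(1 / 2 : ℝ) ^ 47 ≤ -(2 * Real.log m) := by
      have h6 := mul_le_mul_of_nonneg_right h4 (by positivity : (0 : ℝ) ≤ (1 / 2) ^ 47)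
      have e : (2 : ℝ) ^ 48 * Real.log m * (1 / 2) ^ 47 = 2 * Real.log m := by
        norm_num
        ring
      rw [e] at h6
      linarith
    refine (Real.exp_le_exp.2 h5).trans (le_of_eq ?_)
    rw [Real.exp_neg, one_div]
    congr 1
    have : 2 * Real.log (m : ℝ) = Real.log ((m : ℝ) ^ 2) := by
      rw [Real.log_pow]
      push_cast
      ring
    rw [this, Real.exp_log (by positivity)]
  refine ⟨h1, le_trans ?_ h1⟩
  apply pow_le_pow_left₀ (by norm_num)
  unfold rr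
  norm_num

/-- the estimates which are used at each scale -/
theorem est {a κ ε A C : ℝ} (ha : 0 < a) (_hκ : 1 ≤ κ) (hε : 0 < ε) (haκ : κ * (1 + 2 * ε) ≤ a ^ 2)
    (hA : 0 < A) (hC : 0 < C) : ∀ᶠ m : ℕ in atTop, ∀ l : ℕ, m ≤ l → (l : ℝ) ≤ κ * m →
      0 ≤ a * phi m / (vv * l) ∧ a * phi m / (vv * l) ≤ 1 / 2 ∧
      -(a * phi m / (vv * l) * (a * phi m - A * √l - (4 + 18 * kk m))) +
        vv * l * (a * phi m / (vv * l)) ^ 2 / 2 +
        C * (a * phi m / (vv * l) * (kk m + 1) + l * (a * phi m / (vv * l)) ^ 3) ≤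
        -((1 + ε) * LL m) := by
  have hv := vv_pos
  -- smallness conditions
  have t1 := LL_tend.eventually_ge_atTop (max 1 ((2 * A * a * √(2 / vv) / ε) ^ 2))
  set δ : ℝ := min (1 / 2) (min (ε * vv / (8 * a ^ 2 * C)) (ε / (4 * (22 + C)))) with hδ
  have hδ0 : 0 < δ := by positivity
  have t2 : ∀ᶠ m : ℕ in atTop, qq m < δ / (a * √(2 / vv) + 1) :=
    qq_tend.eventually_lt_const (by positivity)
  filter_upwards [t1, t2, eventually_ge_atTop 3] with m h1 h2 hm l hml hlκ
  have hmR : (3 : ℝ) ≤ m := by exact_mod_cast hm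
  have hm0 : (0 : ℝ) < m := by linarith
  have hlm : (m : ℝ) ≤ l := by exact_mod_cast hml
  have hl0 : (0 : ℝ) < l := by linarith
  have hL1 : 1 ≤ LL m := (le_max_left _ _).trans h1
  have hL0 : 0 < LL m := by linarith
  have hL2 : (2 * A * a * √(2 / vv) / ε) ^ 2 ≤ LL m := (le_max_right _ _).trans h1
  have hsv : 0 < √(2 / vv) := Real.sqrt_pos.2 (by positivity)
  set L := LL m with hLdef
  set x : ℝ := a * phi m with hx
  have hphi : phi m = √(2 * vv * m * L) := rfl
  have hphi0 : 0 < phi m := by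
    rw [hphi]
    exact Real.sqrt_pos.2 (by positivity)
  have hx0 : 0 < x := by positivity
  have hx2 : x ^ 2 = a ^ 2 * (2 * vv * m * L) := by
    rw [hx, mul_pow, hphi, Real.sq_sqrt (by positivity)]
  set lam : ℝ := x / (vv * l) with hlam
  have hlam0 : 0 ≤ lam := by positivity
  -- λ is small
  have hlq : lam ≤ a * √(2 / vv) * √(L / m) := by
    have e : a * √(2 / vv) * √(L / m) = a * phi m / (vv * m) := by
      rw [hphi, mul_assoc, ← Real.sqrt_mul (by positivity), mul_div_assoc]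
      congr 1
      rw [eq_div_iff (by positivity)]
      have e2 : vv * (m : ℝ) = √((vv * m) ^ 2) := (Real.sqrt_sq (by positivity)).symm
      rw [e2, ← Real.sqrt_mul (by positivity)]
      congr 1
      field_simp
    rw [e, hlam]
    apply div_le_div_of_nonneg_left hx0.le (by positivity)
    exact mul_le_mul_of_nonneg_left hlm hv.le
  have hk0 : (0 : ℝ) ≤ kk m := Nat.cast_nonneg _
  have hlk : lam * (kk m + 1) ≤ δ := by
    have h3 : lam * (kk m + 1) ≤ a * √(2 / vv) * √(L / m) * (kk m + 1) :=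
      mul_le_mul_of_nonneg_right hlq (by linarith)
    have h4 : a * √(2 / vv) * √(L / m) * (kk m + 1) = a * √(2 / vv) * qq m := by
      unfold qq
      ring
    rw [h4] at h3
    have h5 : a * √(2 / vv) * qq m ≤ (a * √(2 / vv) + 1) * qq m := by
      apply mul_le_mul_of_nonneg_right (by linarith)
      unfold qq
      positivity
    have h6 : (a * √(2 / vv) + 1) * qq m ≤ δ := by
      rw [lt_div_iff₀ (by positivity)] at h2
      linarith
    linarith
  have hlam1 : lam ≤ δ := by nlinarith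
  have hd1 : δ ≤ 1 / 2 := min_le_left _ _
  have hd2 : δ ≤ ε * vv / (8 * a ^ 2 * C) := (min_le_right _ _).trans (min_le_left _ _)
  have hd3 : δ ≤ ε / (4 * (22 + C)) := (min_le_right _ _).trans (min_le_right _ _)
  refine ⟨hlam0, hlam1.trans hd1, ?_⟩
  -- main term
  have hml2 : vv * l * lam = x := by
    rw [hlam]
    field_simp
  have hT1 : (1 + 2 * ε) * L ≤ lam * x / 2 := by
    have e : lam * x / 2 = a ^ 2 * m * L / l := by
      rw [hlam]
      have : x / (vv * l) * x / 2 = x ^ 2 / (2 * vv * l) := by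
        field_simp
      rw [this, hx2]
      field_simp
    rw [e, le_div_iff₀ hl0]
    have h3 : (1 + 2 * ε) * L * l ≤ (1 + 2 * ε) * L * (κ * m) :=
      mul_le_mul_of_nonneg_left hlκ (by positivity)
    have h4 : (κ * (1 + 2 * ε)) * (m * L) ≤ a ^ 2 * (m * L) :=
      mul_le_mul_of_nonneg_right haκ (by positivity)
    nlinarith
  have hT1' : lam * x / 2 ≤ a ^ 2 * L := by
    have e : lam * x / 2 = a ^ 2 * m * L / l := by
      rw [hlam]
      have : x / (vv * l) * x / 2 = x ^ 2 / (2 * vv * l) := by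
        field_simp
      rw [this, hx2]
      field_simp
    rw [e, div_le_iff₀ hl0]
    have : a ^ 2 * L * m ≤ a ^ 2 * L * l := mul_le_mul_of_nonneg_left hlm (by positivity)
    linarith
  have hT2 : lam * (A * √l) ≤ ε / 2 * L := by
    have hsl : 0 < √(l : ℝ) := Real.sqrt_pos.2 hl0
    have hsl2 : √(l : ℝ) * √(l : ℝ) = l := Real.mul_self_sqrt hl0.le
    have h3 : lam * √l ≤ a * √(2 / vv) * √L := by
      have e1 : lam * √l = x / (vv * √l) := by
        rw [hlam, div_mul_eq_mul_div, div_eq_div_iff (by positivity) (by positivity)]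
        rw [show x * √l * (vv * √l) = x * vv * (√l * √l) by ring, hsl2]
        ring
      have e2 : a * √(2 / vv) * √L = a * phi m / (vv * √m) := by
        rw [hphi, mul_assoc, ← Real.sqrt_mul (by positivity), mul_div_assoc]
        congr 1
        rw [eq_div_iff (by positivity)]
        have e3 : vv * √(m : ℝ) = √(vv ^ 2 * m) := by
          rw [Real.sqrt_mul (by positivity), Real.sqrt_sq hv.le]
        rw [e3, ← Real.sqrt_mul (by positivity)]
        congr 1
        field_simp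
      rw [e1, e2]
      apply div_le_div_of_nonneg_left hx0.le (by positivity)
      exact mul_le_mul_of_nonneg_left (Real.sqrt_le_sqrt hlm) hv.le
    have hsL : √L * √L = L := Real.mul_self_sqrt hL0.le
    have h4 : 2 * A * a * √(2 / vv) / ε ≤ √L := Real.le_sqrt_of_sq_le hL2
    rw [div_le_iff₀ hε] at h4
    have hsL0 : 0 ≤ √L := Real.sqrt_nonneg _
    have h5 : A * (lam * √l) ≤ A * (a * √(2 / vv) * √L) := mul_le_mul_of_nonneg_left h3 hA.le
    have h6 : 2 * A * a * √(2 / vv) * √L ≤ √L * ε * √L := mul_le_mul_of_nonneg_right h4 hsL0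
    nlinarith
  have hT3 : lam * (4 + 18 * kk m) + C * (lam * (kk m + 1)) ≤ ε / 4 * L := by
    have h3 : lam * (4 + 18 * kk m) ≤ 22 * (lam * (kk m + 1)) := by nlinarith
    have h4 : (22 + C) * (lam * (kk m + 1)) ≤ (22 + C) * δ :=
      mul_le_mul_of_nonneg_left hlk (by positivity)
    have h5 : (22 + C) * δ ≤ ε / 4 := by
      have := mul_le_mul_of_nonneg_left hd3 (by positivity : 0 ≤ 22 + C)
      refine this.trans (le_of_eq ?_)
      field_simp
    nlinarith
  have hT4 : C * (l * lam ^ 3) ≤ ε / 4 * L := by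
    have e : l * lam ^ 3 = lam * (lam * x) / vv := by
      have : x = vv * l * lam := hml2.symm
      rw [this]
      field_simp
    rw [e]
    have h3 : lam * (lam * x) ≤ δ * (2 * a ^ 2 * L) := by
      apply mul_le_mul hlam1 (by linarith) (by positivity) hδ0.le
    have h4 : C * (lam * (lam * x) / vv) ≤ C * (δ * (2 * a ^ 2 * L) / vv) := by
      apply mul_le_mul_of_nonneg_left _ hC.le
      exact div_le_div_of_nonneg_right h3 hv.le
    refine h4.trans ?_
    have h5 : C * (δ * (2 * a ^ 2 * L) / vv) = δ * (2 * a ^ 2 * C / vv) * L := by ring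
    rw [h5]
    apply mul_le_mul_of_nonneg_right _ hL0.le
    have h6 := mul_le_mul_of_nonneg_right hd2 (by positivity : 0 ≤ 2 * a ^ 2 * C / vv)
    refine h6.trans (le_of_eq ?_)
    field_simp
    norm_num
  have e1 : vv * l * lam ^ 2 / 2 = lam * x / 2 := by
    rw [← hml2]
    ring
  rw [e1]
  nlinarith

/-- **Probability that the bound fails in a block.** -/
theorem block_up {a κ ε : ℝ} (ha : 0 < a) (hκ : 1 ≤ κ) (hε : 0 < ε)
    (haκ : κ * (1 + 2 * ε) ≤ a ^ 2) : ∃ D : ℝ, 0 < D ∧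
    ∀ᶠ m : ℕ in atTop, ∀ i1 : ℕ, m ≤ i1 → ((i1 + 2 : ℕ) : ℝ) ≤ κ * m →
      Pr P2 (BS (i1 + 3)) (fun F => ∃ i, m ≤ i ∧ i ≤ i1 ∧
        (cc * i + a * phi m ≤ XF i F ∨ XF i F ≤ cc * i - a * phi m)) ≤
      D * (Real.exp (-((1 + ε) * LL m)) + 1 / m) := by
  obtain ⟨A, C1, hA, hC1, hmax⟩ := max_ineq
  obtain ⟨C2, hC2, hT⟩ := T_up
  refine ⟨16 + 4 * κ * C1, by positivity, ?_⟩
  filter_upwards [est ha hκ hε haκ hA hC2, eventually_ge_atTop 4] with m hm hm4 i1 hi1 hκm
  have hmR : (4 : ℝ) ≤ m := by exact_mod_cast hm4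
  have hm0 : (0 : ℝ) < m := by linarith
  set l : ℕ := i1 + 2 with hl
  obtain ⟨e1, e2, e3⟩ := hm l (by omega) hκm
  set lam : ℝ := a * phi m / (vv * l) with hlam
  have hS : BS (l + 1) ⊆ BS (i1 + 3) := BS_mono (by omega)
  obtain ⟨b1, b2⟩ := hmax m i1 l (by omega) (by omega) (by omega) (a * phi m) (kk m)
    (BS (i1 + 3)) hS
  obtain ⟨c1, c2⟩ := hT l (by omega) lam e1 e2
  obtain ⟨r1, r2⟩ := rr_kk m (by omega)
  have hk0 : (0 : ℝ) ≤ kk m := Nat.cast_nonneg _
  have d1 : ET (2 ^ l) (fun n => ind (cc * l + (a * phi m - A * √l) ≤ n)) ≤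
      Real.exp (-((1 + ε) * LL m)) := by
    refine (c1 _).trans (Real.exp_le_exp.2 ?_)
    refine le_trans ?_ e3
    have h1 : 0 ≤ lam * (4 + 18 * kk m) := by positivity
    have h2 : 0 ≤ C2 * (lam * kk m) := by positivity
    nlinarith
  have d2 : ET (2 ^ l) (fun n => ind ((n : ℝ) ≤ cc * l -
      (a * phi m - A * √l - (4 + 18 * kk m)))) ≤ Real.exp (-((1 + ε) * LL m)) +
        6 * (1 / (m : ℝ) ^ 2) := by
    refine (c2 _ (kk m)).trans (add_le_add (Real.exp_le_exp.2 e3) ?_)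
    apply mul_le_mul_of_nonneg_left _ (by norm_num)
    refine le_trans ?_ r1
    exact pow_le_pow_of_le_one rr_pos.le rr_lt.le (by omega)
  have h3 : Pr P2 (BS (i1 + 3)) (fun F => ∃ i, m ≤ i ∧ i ≤ i1 ∧
        (cc * i + a * phi m ≤ XF i F ∨ XF i F ≤ cc * i - a * phi m)) ≤
      Pr P2 (BS (i1 + 3)) (fun F => ∃ i, m ≤ i ∧ i ≤ i1 ∧ cc * i + a * phi m ≤ XF i F) +
      Pr P2 (BS (i1 + 3)) (fun F => ∃ i, m ≤ i ∧ i ≤ i1 ∧ XF i F ≤ cc * i - a * phi m) := by
    refine le_trans (Pr_mono ok2 ?_) (Pr_or_le ok2 _ _ _)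
    rintro F _ ⟨i, h4, h5, h6 | h6⟩
    · exact Or.inl ⟨i, h4, h5, h6⟩
    · exact Or.inr ⟨i, h4, h5, h6⟩
  have h4 : (l : ℝ) * (C1 * (1 / 2 : ℝ) ^ kk m) ≤ κ * C1 * (1 / m) := by
    have h5 : C1 * (1 / 2 : ℝ) ^ kk m ≤ C1 * (1 / (m : ℝ) ^ 2) :=
      mul_le_mul_of_nonneg_left r2 hC1.le
    calc (l : ℝ) * (C1 * (1 / 2 : ℝ) ^ kk m) ≤ κ * m * (C1 * (1 / (m : ℝ) ^ 2)) :=
          mul_le_mul hκm h5 (by positivity) (by positivity)
      _ = κ * C1 * (1 / m) := by
          field_simp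
  have h5 : (1 : ℝ) / (m : ℝ) ^ 2 ≤ 1 / m := by
    apply one_div_le_one_div_of_le hm0
    nlinarith
  have hE := Real.exp_pos (-((1 + ε) * LL m))
  have hm1 : (0 : ℝ) < 1 / m := by positivity
  have h6 : 0 ≤ κ * C1 * Real.exp (-((1 + ε) * LL m)) := by positivity
  have h7 : 0 ≤ κ * C1 * (1 / (m : ℝ)) := by positivity
  nlinarith

end Pool.Agent.H78NF
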