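import Pool.Agent.H78NF.F

/-!
# The upper half of the law of the iterated logarithm
-/

set_option autoImplicit false

namespace Pool.Agent.H78NF
open H974 H906.Cyl Finset Filter Topology MeasureTheory
open Pool.Agent.W819.EN (vb P2 bx an NA Geo geoNA Lnk LTail ltail)
open Pool.Agent.H863R2.NL (ET ET_le_ET ET_const)
open Pool.Agent.H78CZ (ok2 bx_mono ex_tr NA_local)

/-- the number of layers up to the scale `i`, as a random variable -/
noncomputable def Xw (i : ℕ) (ω : sqLattice.edgeSet → Bool) : ℝ := XF i (FF (BS i) ω)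

theorem FF_inter' (S T : Finset Edg) (h : T ⊆ S) (ω : sqLattice.edgeSet → Bool) :
    FF S ω ∩ T = FF T ω := by
  ext e
  rw [Finset.mem_inter, mem_FF, mem_FF]
  exact ⟨fun h1 => ⟨h1.2, h1.1.2⟩, fun h1 => ⟨⟨h h1.1, h1.2⟩, h1.1⟩⟩

theorem X_FF {i : ℕ} {S : Finset Edg} (h : BS i ⊆ S) (ω : sqLattice.edgeSet → Bool) :
    XF i (FF S ω) = Xw i ω := by
  rw [X_loc i (FF S ω) (Finset.Subset.refl _), FF_inter' S _ h]
  rfl

/-- transfer of the probabilities -/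
theorem prw {S : Finset Edg} (Q : Finset Edg → Prop) :
    (bondLaw hlf).real {ω | Q (FF S ω)} = Pr P2 S Q := law_event hlf S Q

theorem LL_mono {m i : ℕ} (hm : 3 ≤ m) (h : m ≤ i) : LL m ≤ LL i := by
  unfold LL
  have h1 : (3 : ℝ) ≤ m := by exact_mod_cast hm
  have h2 : (m : ℝ) ≤ i := by exact_mod_cast h
  apply Real.log_le_log (Real.log_pos (by linarith))
  exact Real.log_le_log (by linarith) h2

theorem phi_mono {m i : ℕ} (hm : 3 ≤ m) (h : m ≤ i) (hL : 0 ≤ LL m) : phi m ≤ phi i := by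
  unfold phi
  apply Real.sqrt_le_sqrt
  have h2 : (m : ℝ) ≤ i := by exact_mod_cast h
  have hv := vv_pos
  apply mul_le_mul _ (LL_mono hm h) hL (by positivity)
  exact mul_le_mul_of_nonneg_left h2 (by positivity)

/-- the ends of the blocks -/
noncomputable def mk (ρ : ℝ) (k : ℕ) : ℕ := ⌈ρ ^ k⌉₊

theorem mk_ge (ρ : ℝ) (k : ℕ) : ρ ^ k ≤ mk ρ k := Nat.le_ceil _

theorem mk_lt {ρ : ℝ} (hρ : 0 ≤ ρ) (k : ℕ) : (mk ρ k : ℝ) < ρ ^ k + 1 :=
  Nat.ceil_lt_add_one (by positivity)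

theorem mk_tend {ρ : ℝ} (hρ : 1 < ρ) : Tendsto (mk ρ) atTop atTop := by
  have h1 := tendsto_pow_atTop_atTop_of_one_lt hρ
  rw [← tendsto_natCast_atTop_iff (R := ℝ)]
  exact tendsto_atTop_mono (fun k => mk_ge ρ k) h1

theorem mk_mono {ρ : ℝ} (hρ : 1 ≤ ρ) : Monotone (mk ρ) := by
  intro a b h
  apply Nat.ceil_le_ceil
  exact pow_le_pow_right₀ hρ h

/-- the block of a scale -/
theorem find_block {ρ : ℝ} (hρ : 1 < ρ) {K i : ℕ} (hi : mk ρ K ≤ i) :
    ∃ k, K ≤ k ∧ mk ρ k ≤ i ∧ i ≤ mk ρ (k + 1) := by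
  classical
  have hex : ∃ k, i < mk ρ k := ((mk_tend hρ).eventually_gt_atTop i).exists
  set j := Nat.find hex with hj
  have h1 : i < mk ρ j := Nat.find_spec hex
  have h2 : K < j := by
    by_contra hc
    have := mk_mono hρ.le (not_lt.1 hc)
    omega
  obtain ⟨k, hk⟩ : ∃ k, j = k + 1 := ⟨j - 1, by omega⟩
  refine ⟨k, by omega, ?_, ?_⟩
  · by_contra hc
    have := Nat.find_min hex (m := k) (by omega)
    exact this (not_le.1 hc)
  · rw [← hk]
    exact h1.le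

theorem summable_block {ρ ε D : ℝ} (hρ : 1 < ρ) (hε : 0 < ε) : ∃ b : ℕ → ℝ, Summable b ∧
    ∀ᶠ k : ℕ in atTop, D * (Real.exp (-((1 + ε) * LL (mk ρ k))) + 1 / (mk ρ k : ℝ)) ≤ b k := by
  have hlρ : 0 < Real.log ρ := Real.log_pos hρ
  refine ⟨fun k => |D| * ((Real.log ρ) ^ (-(1 + ε)) * (k : ℝ) ^ (-(1 + ε)) + (ρ⁻¹) ^ k), ?_, ?_⟩
  · apply Summable.mul_left
    apply Summable.add
    · apply Summable.mul_left
      exact Real.summable_nat_rpow.2 (by linarith)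
    · apply summable_geometric_of_lt_one (by positivity)
      exact inv_lt_one_of_one_lt₀ hρ
  · have h1 : ∀ᶠ k : ℕ in atTop, 1 < (k : ℝ) * Real.log ρ := by
      have := (tendsto_natCast_atTop_atTop (R := ℝ)).atTop_mul_const hlρ
      exact this.eventually_gt_atTop 1
    filter_upwards [h1, eventually_ge_atTop 1] with k hk hk1
    have hk0 : (0 : ℝ) < k := by exact_mod_cast hk1
    have hm := mk_ge ρ k
    have hρk : 0 < ρ ^ k := by positivity
    have h2 : (k : ℝ) * Real.log ρ ≤ Real.log (mk ρ k) := by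
      rw [← Real.log_pow]
      exact Real.log_le_log hρk hm
    have h3 : Real.log (k * Real.log ρ) ≤ LL (mk ρ k) := Real.log_le_log (by linarith) h2
    have h4 : Real.exp (-((1 + ε) * LL (mk ρ k))) ≤
        (Real.log ρ) ^ (-(1 + ε)) * (k : ℝ) ^ (-(1 + ε)) := by
      rw [← Real.mul_rpow hlρ.le hk0.le, mul_comm (Real.log ρ)]
      rw [Real.rpow_def_of_pos (by positivity)]
      apply Real.exp_le_exp.2
      nlinarith
    have h5 : 1 / (mk ρ k : ℝ) ≤ (ρ⁻¹) ^ k := by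
      rw [inv_pow, ← one_div]
      exact one_div_le_one_div_of_le hρk hm
    have h6 : 0 ≤ Real.exp (-((1 + ε) * LL (mk ρ k))) + 1 / (mk ρ k : ℝ) := by positivity
    calc D * (Real.exp (-((1 + ε) * LL (mk ρ k))) + 1 / (mk ρ k : ℝ))
        ≤ |D| * (Real.exp (-((1 + ε) * LL (mk ρ k))) + 1 / (mk ρ k : ℝ)) :=
          mul_le_mul_of_nonneg_right (le_abs_self D) h6
      _ ≤ _ := mul_le_mul_of_nonneg_left (add_le_add h4 h5) (abs_nonneg D)

/-- Borel-Cantelli, eventual form -/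
theorem bc1 {s : ℕ → Set (sqLattice.edgeSet → Bool)} {b : ℕ → ℝ} (hb : Summable b)
    (h : ∀ᶠ k : ℕ in atTop, (bondLaw hlf).real (s k) ≤ b k) :
    ∀ᵐ ω ∂(bondLaw hlf), ∀ᶠ k : ℕ in atTop, ω ∉ s k := by
  obtain ⟨K, hK⟩ := eventually_atTop.1 h
  have h0 : ∀ k, 0 ≤ b (k + K) := fun k => measureReal_nonneg.trans (hK (k + K) (by omega))
  have h1 : ∀ k, (bondLaw hlf) (s (k + K)) ≤ ENNReal.ofReal (b (k + K)) := by
    intro k
    rw [← ENNReal.ofReal_toReal (measure_ne_top (bondLaw hlf) (s (k + K)))]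
    exact ENNReal.ofReal_le_ofReal (hK (k + K) (by omega))
  have h2 : ∑' k, (bondLaw hlf) (s (k + K)) ≠ ⊤ := by
    apply ne_top_of_le_ne_top _ (ENNReal.tsum_le_tsum h1)
    rw [← ENNReal.ofReal_tsum_of_nonneg h0 ((summable_nat_add_iff K).2 hb)]
    exact ENNReal.ofReal_ne_top
  filter_upwards [ae_eventually_notMem h2] with ω hω
  obtain ⟨K', hK'⟩ := eventually_atTop.1 hω
  rw [eventually_atTop]
  refine ⟨K' + K, fun k hk => ?_⟩
  have := hK' (k - K) (by omega)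
  rwa [Nat.sub_add_cancel (by omega)] at this

/-- **The upper half.** -/
theorem ae_up {a : ℝ} (ha : 1 < a) : ∀ᵐ ω ∂(bondLaw hlf), ∀ᶠ i : ℕ in atTop,
    |Xw i ω - cc * i| ≤ a * phi i := by
  set ρ : ℝ := √a with hρ
  have hρ1 : 1 < ρ := by
    rw [hρ]
    exact Real.lt_sqrt_of_sq_lt (by linarith)
  have hρ2 : ρ * ρ = a := Real.mul_self_sqrt (by linarith)
  obtain ⟨D, hD, hb⟩ := block_up (a := a) (κ := a) (ε := (a - 1) / 2) (by linarith) ha.le
    (by linarith) (by nlinarith)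
  set s : ℕ → Set (sqLattice.edgeSet → Bool) := fun k => {ω | ∃ i, mk ρ k ≤ i ∧ i ≤ mk ρ (k + 1) ∧
    (cc * i + a * phi (mk ρ k) ≤ Xw i ω ∨ Xw i ω ≤ cc * i - a * phi (mk ρ k))} with hs
  obtain ⟨b, hbs, hbb⟩ := summable_block (ρ := ρ) (ε := (a - 1) / 2) (D := D) hρ1 (by linarith)
  have hP : ∀ᶠ k : ℕ in atTop, (bondLaw hlf).real (s k) ≤ b k := by
    have h1 := (mk_tend hρ1).eventually hb
    have h2 : ∀ᶠ k : ℕ in atTop, 3 / ((ρ - 1) * ρ) ≤ mk ρ k := by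
      have := (tendsto_natCast_atTop_atTop (R := ℝ)).comp (mk_tend hρ1)
      exact this.eventually_ge_atTop _
    filter_upwards [h1, h2, hbb] with k hk1 hk2 hk3
    refine le_trans ?_ hk3
    have h3 : mk ρ k ≤ mk ρ (k + 1) := mk_mono hρ1.le (Nat.le_succ k)
    have h4 : ((mk ρ (k + 1) + 2 : ℕ) : ℝ) ≤ a * mk ρ k := by
      have h5 := mk_lt (by linarith : 0 ≤ ρ) (k + 1)
      have h6 := mk_ge ρ k
      rw [div_le_iff₀ (by nlinarith)] at hk2
      push_cast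
      have h7 : ρ ^ (k + 1) = ρ * ρ ^ k := by ring
      have h8 : ρ * ρ ^ k ≤ ρ * mk ρ k := mul_le_mul_of_nonneg_left h6 (by linarith)
      rw [← hρ2]
      nlinarith
    refine le_trans (le_of_eq ?_) (hk1 (mk ρ (k + 1)) h3 h4)
    rw [← prw]
    congr 1
    ext ω
    rw [hs]
    simp only [Set.mem_ofPred_eq]
    refine exists_congr fun i => and_congr_right fun _ => and_congr_right fun hi => ?_
    rw [X_FF (BS_mono (by omega : i ≤ mk ρ (k + 1) + 3)) ω]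
  filter_upwards [bc1 hbs hP] with ω hω
  have hL : ∀ᶠ k : ℕ in atTop, 0 ≤ LL (mk ρ k) :=
    (mk_tend hρ1).eventually (LL_tend.eventually_ge_atTop 0)
  have h3 : ∀ᶠ k : ℕ in atTop, 3 ≤ mk ρ k := (mk_tend hρ1).eventually_ge_atTop 3
  obtain ⟨K, hK⟩ := eventually_atTop.1 ((hω.and hL).and h3)
  rw [eventually_atTop]
  refine ⟨mk ρ K, fun i hi => ?_⟩
  obtain ⟨k, hk1, hk2, hk3⟩ := find_block hρ1 hi
  obtain ⟨⟨h4, h5⟩, h6⟩ := hK k hk1
  have h7 : ¬ (cc * i + a * phi (mk ρ k) ≤ Xw i ω ∨ Xw i ω ≤ cc * i - a * phi (mk ρ k)) :=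
    fun hc => h4 ⟨i, hk2, hk3, hc⟩
  push Not at h7
  have h8 : a * phi (mk ρ k) ≤ a * phi i :=
    mul_le_mul_of_nonneg_left (phi_mono h6 hk2 h5) (by linarith)
  rw [abs_le]
  constructor <;> linarith [h7.1, h7.2]

end Pool.Agent.H78NF
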