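import Pool.Agent.H78NF.T
import Mathlib.Probability.Distributions.Gaussian.Multivariate
import Mathlib.MeasureTheory.Function.ConvergenceInDistribution
import Mathlib.MeasureTheory.Measure.LevyConvergence

/-!
# Convergence in law of the nesting field
-/

set_option autoImplicit false

namespace Pool.Agent.H78NF
open H974 H906.Cyl Finset Filter Topology MeasureTheory ProbabilityTheory
open Pool.Agent.W819.EN (vb P2 bx an NA Geo geoNA Lnk LTail ltail layers layers_eq nmv DA)
open Pool.Agent.H863R2.NL (cN vN)
open scoped RealInnerProductSpace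

section multi

variable {ι : Type*} [Fintype ι] [DecidableEq ι]
variable {v : ℕ → ι → ℤ × ℤ} {R : ℕ → ι → ℕ} {s : ι → ℝ} {a : ι → ι → ℝ}

omit [Fintype ι] [DecidableEq ι] in
theorem Sg_symm (H : Hyp v R s a) (i j : ι) : Sg s a i j = Sg s a j i := by
  unfold Sg
  rw [min_comm, H.symm]

theorem Qd_nonneg (H : Hyp v R s a) (θ : ι → ℝ) : 0 ≤ Qd s a θ := by
  have h1 := (char_lim H θ).norm
  have h2 : ‖((Real.exp (-(Qd s a θ / 2)) : ℝ) : ℂ)‖ ≤ 1 :=
    le_of_tendsto h1 (Eventually.of_forall fun n => norm_int_e1)
  rw [Complex.norm_real, Real.norm_eq_abs, abs_of_pos (Real.exp_pos _), Real.exp_le_one_iff] at h2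
  linarith

theorem Sg_psd (H : Hyp v R s a) : (Matrix.of (Sg s a)).PosSemidef := by
  apply Matrix.PosSemidef.of_dotProduct_mulVec_nonneg
  · ext i j
    simp [Matrix.conjTranspose, Sg_symm H j i]
  · intro x
    have h := Qd_nonneg H x
    unfold Qd at h
    refine h.trans (le_of_eq ?_)
    simp only [dotProduct, Matrix.mulVec, Matrix.of_apply, Pi.star_apply, star_trivial,
      Finset.mul_sum]
    refine Finset.sum_congr rfl fun i _ => Finset.sum_congr rfl fun j _ => ?_
    ring

/-- the normalized field -/
noncomputable def Xv (v : ℕ → ι → ℤ × ℤ) (R : ℕ → ι → ℕ) (n : ℕ) (ω : sqLattice.edgeSet → Bool) :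
    EuclideanSpace ℝ ι :=
  WithLp.toLp 2 fun i => ((W (v n i) 0 (R n i) ω : ℝ) - cN * Real.log (R n i)) / sc n

omit [DecidableEq ι] in
theorem Xv_meas (n : ℕ) : Measurable (Xv v R n) := by
  unfold Xv
  apply (WithLp.measurable_toLp 2 _).comp
  apply measurable_pi_lambda
  intro i
  apply Measurable.div_const
  apply Measurable.sub_const
  exact measurable_from_top.comp (meas_W (v n i) 0 (R n i))

theorem field_clt (H : Hyp v R s a) : TendstoInDistribution (Xv v R) atTop
    (id : EuclideanSpace ℝ ι → EuclideanSpace ℝ ι) (fun _ => mu2)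
    (multivariateGaussian 0 (Matrix.of (Sg s a))) where
  forall_aemeasurable n := (Xv_meas n).aemeasurable
  aemeasurable_limit := aemeasurable_id
  tendsto := by
    apply ProbabilityMeasure.tendsto_of_tendsto_charFun
    intro t
    have e1' : ∀ n, charFun ((mu2.map (Xv v R n) : Measure (EuclideanSpace ℝ ι))) t =
        ∫ ω, e1 (∑ i, t i / sc n * ((W (v n i) 0 (R n i) ω : ℝ) - cN * Real.log (R n i))) ∂mu2 := by
      intro n
      rw [charFun_apply, integral_map (Xv_meas n).aemeasurable (by fun_prop)]
      congr 1
      funext ω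
      unfold e1
      rw [mul_comm]
      congr 3
      rw [PiLp.inner_apply]
      apply Finset.sum_congr rfl
      intro i _
      unfold Xv
      simp only [RCLike.inner_apply, conj_trivial]
      ring
    have e2 : charFun ((multivariateGaussian 0 (Matrix.of (Sg s a))).map id :
        Measure (EuclideanSpace ℝ ι)) t = ((Real.exp (-(Qd s a t / 2)) : ℝ) : ℂ) := by
      rw [Measure.map_id, charFun_multivariateGaussian (Sg_psd H)]
      rw [inner_zero_right, Complex.ofReal_zero, zero_mul, zero_sub, Complex.ofReal_exp]
      congr 1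
      push_cast
      congr 2
      unfold Qd
      push_cast
      simp only [dotProduct, Matrix.mulVec, Matrix.of_apply, Finset.mul_sum]
      push_cast
      refine Finset.sum_congr rfl fun i _ => Finset.sum_congr rfl fun j _ => ?_
      ring
    simp only [ProbabilityMeasure.coe_mk, e1', e2]
    exact char_lim H t

end multi

end Pool.Agent.H78NF
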