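import Pool.Agent.H78NF.G

/-!
# The probabilities of the blocks: lower bounds
-/

set_option autoImplicit false

namespace Pool.Agent.H78NF
open H974 H906.Cyl Finset Filter Topology MeasureTheory
open Pool.Agent.W819.EN (vb P2 bx an NA Geo geoNA Lnk LTail ltail)
open Pool.Agent.H863R2.NL (ET ET_le_ET ET_const)
open Pool.Agent.H78CZ (ok2 bx_mono ex_tr NA_local)

theorem phi_eq (m : ℕ) : phi m = √(2 * vv) * √(m * LL m) := by
  unfold phi
  have hv := vv_pos
  rw [← Real.sqrt_mul (by positivity)]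
  congr 1
  ring

theorem phi_nonneg (m : ℕ) : 0 ≤ phi m := Real.sqrt_nonneg _

theorem ev1 (T : ℝ) : ∀ᶠ l : ℕ in atTop, T * √l ≤ phi l := by
  have hv := vv_pos
  filter_upwards [LL_tend.eventually_ge_atTop (max 0 (T ^ 2 / (2 * vv)))] with l hl
  have hL0 : 0 ≤ LL l := (le_max_left _ _).trans hl
  have hL : T ^ 2 / (2 * vv) ≤ LL l := (le_max_right _ _).trans hl
  rw [div_le_iff₀ (by positivity)] at hL
  have h1 : T ≤ √(2 * vv * LL l) := by
    apply Real.le_sqrt_of_sq_le
    linarith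
  have h2 : phi l = √(2 * vv * LL l) * √l := by
    unfold phi
    rw [← Real.sqrt_mul (by positivity)]
    congr 1
    ring
  rw [h2]
  exact mul_le_mul_of_nonneg_right h1 (Real.sqrt_nonneg _)

theorem ev2 {ε : ℝ} (hε : 0 < ε) : ∀ᶠ l : ℕ in atTop, (kk l : ℝ) + 1 ≤ ε * phi l := by
  have hv := vv_pos
  have hs : 0 < √(2 * vv) := Real.sqrt_pos.2 (by positivity)
  filter_upwards [LL_tend.eventually_ge_atTop 1, eventually_ge_atTop 1,
    qq_tend.eventually_lt_const (show 0 < ε * √(2 * vv) by positivity)] with l hL hl hq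
  have hl0 : (0 : ℝ) < l := by exact_mod_cast hl
  have hL0 : 0 < LL l := by linarith
  unfold qq at hq
  have h1 : √((l : ℝ) * LL l) * √(LL l / l) = LL l := by
    rw [← Real.sqrt_mul (by positivity)]
    have : (l : ℝ) * LL l * (LL l / l) = LL l ^ 2 := by
      field_simp
    rw [this, Real.sqrt_sq hL0.le]
  have hk0 : (0 : ℝ) ≤ kk l + 1 := by positivity
  have h2 : (kk l : ℝ) + 1 ≤ √((l : ℝ) * LL l) * (√(LL l / l) * (kk l + 1)) := by
    rw [← mul_assoc, h1]
    nlinarith
  have h3 : √((l : ℝ) * LL l) * (√(LL l / l) * (kk l + 1)) ≤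
      √((l : ℝ) * LL l) * (ε * √(2 * vv)) :=
    mul_le_mul_of_nonneg_left hq.le (Real.sqrt_nonneg _)
  rw [phi_eq]
  linarith

theorem ev3 {ε : ℝ} (hε : 0 < ε) : ∀ᶠ l : ℕ in atTop, LL l * phi l / l ≤ ε := by
  have hv := vv_pos
  have hs : 0 < √(2 * vv) := Real.sqrt_pos.2 (by positivity)
  filter_upwards [LL_tend.eventually_ge_atTop 1, eventually_ge_atTop 2,
    qq_tend.eventually_lt_const (show 0 < ε / √(2 * vv) by positivity)] with l hL hl hq
  have hlR : (2 : ℝ) ≤ l := by exact_mod_cast hl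
  have hl0 : (0 : ℝ) < l := by linarith
  have hL0 : 0 < LL l := by linarith
  have hlog : 0 ≤ Real.log l := Real.log_nonneg (by linarith)
  have h1 : LL l ≤ kk l + 1 := by
    have h2 := LL_le hl
    have h3 : (2 : ℝ) ^ 48 * Real.log l ≤ kk l := Nat.le_ceil _
    nlinarith
  unfold qq at hq
  have h4 : √((l : ℝ) * LL l) / l = √(LL l / l) := by
    have e : (l : ℝ) = √((l : ℝ) ^ 2) := (Real.sqrt_sq hl0.le).symm
    rw [eq_comm]
    conv_rhs => rw [show √((l : ℝ) * LL l) / l = √((l : ℝ) * LL l) / √((l : ℝ) ^ 2) by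
      rw [Real.sqrt_sq hl0.le]]
    rw [← Real.sqrt_div (by positivity)]
    congr 1
    field_simp
  have h5 : LL l * phi l / l = √(2 * vv) * (√(LL l / l) * LL l) := by
    rw [phi_eq, ← h4]
    ring
  rw [h5]
  have h6 : √(LL l / l) * LL l ≤ √(LL l / l) * (kk l + 1) :=
    mul_le_mul_of_nonneg_left h1 (Real.sqrt_nonneg _)
  rw [lt_div_iff₀ hs] at hq
  have h7 := mul_le_mul_of_nonneg_left h6 hs.le
  linarith

theorem phi_sq {l : ℕ} (h : 0 ≤ LL l) : phi l ^ 2 = 2 * vv * l * LL l := by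
  unfold phi
  have hv := vv_pos
  exact Real.sq_sqrt (by positivity)

/-- lower bounds at the scale of the law of the iterated logarithm -/
theorem lo_est {b θ : ℝ} (hb : 0 < b) (hbθ : b ^ 2 < θ) : ∀ᶠ l : ℕ in atTop,
    1 / 2 * Real.exp (-(θ * LL l)) ≤
      ET (2 ^ l) (fun m => ind (cc * l + b * phi l ≤ m)) + 6 / (l : ℝ) ^ 2 ∧
    1 / 2 * Real.exp (-(θ * LL l)) ≤ ET (2 ^ l) (fun m => ind ((m : ℝ) ≤ cc * l - b * phi l)) := by
  obtain ⟨C, δ, I0, hC, hδ, hI0, h⟩ := T_lo
  have hv := vv_pos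
  set b' : ℝ := √((b ^ 2 + θ) / 2) with hb'
  have hb'2 : b' ^ 2 = (b ^ 2 + θ) / 2 := Real.sq_sqrt (by nlinarith [sq_nonneg b])
  have hb'0 : 0 ≤ b' := Real.sqrt_nonneg _
  have hbb' : b < b' := by
    by_contra hc
    push Not at hc
    have : b' ^ 2 ≤ b ^ 2 := pow_le_pow_left₀ hb'0 hc 2
    linarith
  have hb'pos : 0 < b' := hb.trans hbb'
  set ε : ℝ := (θ - b ^ 2) / 2 with hε
  have hε0 : 0 < ε := by rw [hε]; linarith
  filter_upwards [eventually_ge_atTop (I0 + 3), LL_tend.eventually_ge_atTop 1,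
    ev1 (2 * C / (b' - b)), ev2 (show 0 < (b' - b) / (2 * C) by
      have : 0 < b' - b := by linarith
      positivity), ev3 (show 0 < δ * vv ^ 2 / (2 * b' ^ 3) by positivity),
    LL_tend.eventually_ge_atTop (max (2 * C / ε) ((2 * C * b' * √(2 / vv) / ε) ^ 2))]
    with l hl hL1 e1 e2 e3 e4
  have hlI : I0 ≤ l := by omega
  have hl3 : 3 ≤ l := by omega
  have hlR : (3 : ℝ) ≤ l := by exact_mod_cast hl3
  have hl0 : (0 : ℝ) < l := by linarith
  have hL0 : 0 < LL l := by linarith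
  have hphi2 := phi_sq hL0.le
  have hphi0 : 0 < phi l := by
    unfold phi
    exact Real.sqrt_pos.2 (by positivity)
  set lam : ℝ := b' * phi l / (vv * l) with hlam
  have hlam0 : 0 < lam := by positivity
  have hvl : vv * l * lam = b' * phi l := by
    rw [hlam]
    field_simp
  have hcub : (l : ℝ) * lam ^ 3 ≤ δ := by
    have e : (l : ℝ) * lam ^ 3 = 2 * b' ^ 3 / vv ^ 2 * (LL l * phi l / l) := by
      have : (l : ℝ) * lam ^ 3 = b' ^ 3 * (phi l ^ 2) * phi l / (vv ^ 3 * l ^ 2) := by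
        rw [hlam]
        field_simp
      rw [this, hphi2]
      field_simp
    rw [e]
    have := mul_le_mul_of_nonneg_left e3 (by positivity : 0 ≤ 2 * b' ^ 3 / vv ^ 2)
    refine this.trans (le_of_eq ?_)
    field_simp
  have hexp : θ * LL l ≥ vv * l * lam ^ 2 / 2 + C * (lam * √l + 1) := by
    have a1 : vv * l * lam ^ 2 / 2 = b' ^ 2 * LL l := by
      have : vv * l * lam ^ 2 / 2 = b' ^ 2 * (phi l ^ 2) / (2 * vv * l) := by
        rw [hlam]
        field_simp
      rw [this, hphi2]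
      field_simp
    have a2 : C ≤ ε / 2 * LL l := by
      have := (le_max_left _ _).trans e4
      rw [div_le_iff₀ hε0] at this
      linarith
    have a3 : C * (lam * √l) ≤ ε / 2 * LL l := by
      have h1 : lam * √l = b' * √(2 / vv) * √(LL l) := by
        have hsl : 0 < √(l : ℝ) := Real.sqrt_pos.2 hl0
        have hsl2 : √(l : ℝ) * √(l : ℝ) = l := Real.mul_self_sqrt hl0.le
        have h2 : phi l = √(2 * vv) * (√l * √(LL l)) := by
          rw [phi_eq, Real.sqrt_mul hl0.le]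
        have h3 : √(2 * vv) / vv = √(2 / vv) := by
          rw [div_eq_iff hv.ne']
          conv_rhs => rw [← Real.sqrt_sq hv.le]
          rw [← Real.sqrt_mul (by positivity)]
          congr 1
          rw [Real.sqrt_sq hv.le]
          field_simp
        rw [hlam, h2, ← h3]
        field_simp
        rw [Real.sq_sqrt hl0.le]
      rw [h1]
      have h4 := (le_max_right _ _).trans e4
      have h5 : 2 * C * b' * √(2 / vv) / ε ≤ √(LL l) := Real.le_sqrt_of_sq_le h4
      rw [div_le_iff₀ hε0] at h5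
      have h6 : √(LL l) * √(LL l) = LL l := Real.mul_self_sqrt hL0.le
      have h7 := mul_le_mul_of_nonneg_right h5 (Real.sqrt_nonneg (LL l))
      nlinarith
    have a4 : b' ^ 2 + ε = θ := by
      rw [hb'2, hε]
      ring
    rw [a1]
    nlinarith
  have habs : |lam| = lam := abs_of_pos hlam0
  have habs' : |-lam| = lam := by rw [abs_neg, habs]
  have hmain : 1 / 2 * Real.exp (-(θ * LL l)) ≤
      1 / 2 * Real.exp (-(vv * l * lam ^ 2 / 2) - C * (lam * √l + 1)) := by
    apply mul_le_mul_of_nonneg_left _ (by norm_num)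
    apply Real.exp_le_exp.2
    linarith
  have hbd : 0 < b' - b := by linarith
  have s1 : 2 * C * √l ≤ (b' - b) * phi l := by
    have := mul_le_mul_of_nonneg_left e1 hbd.le
    refine le_trans (le_of_eq ?_) this
    field_simp
  have s2 : 2 * C * (kk l + 1) ≤ (b' - b) * phi l := by
    have := mul_le_mul_of_nonneg_left e2 (by positivity : 0 ≤ 2 * C)
    refine this.trans (le_of_eq ?_)
    field_simp
  constructor
  · have h1 := (h l hlI lam (by rw [habs]; exact hcub)).1 (kk l)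
    rw [habs] at h1
    refine hmain.trans (h1.trans ?_)
    apply add_le_add
    · apply ET_le_ET
      intro m
      apply ind_mono
      intro hm
      rw [hvl] at hm
      nlinarith
    · have h2 := (rr_kk l (by omega)).1
      have h3 : rr ^ (kk l + 1) ≤ rr ^ kk l :=
        pow_le_pow_of_le_one rr_pos.le rr_lt.le (by omega)
      have h4 : (6 : ℝ) / (l : ℝ) ^ 2 = 6 * (1 / (l : ℝ) ^ 2) := by ring
      rw [h4]
      linarith
  · have h1 := (h l hlI (-lam) (by rw [habs']; exact hcub)).2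
    rw [habs'] at h1
    have e5 : (-lam) ^ 2 = lam ^ 2 := by ring
    rw [e5] at h1
    refine hmain.trans (h1.trans ?_)
    apply ET_le_ET
    intro m
    apply ind_mono
    intro hm
    have hk0 : (0 : ℝ) ≤ kk l := Nat.cast_nonneg _
    have h6 : vv * l * -lam = -(b' * phi l) := by
      rw [← hvl]
      ring
    rw [h6] at hm
    nlinarith

/-- a rough upper bound -/
theorem rough : ∀ᶠ m : ℕ in atTop,
    ET (2 ^ m) (fun n => ind (cc * m + 2 * phi m ≤ n)) ≤ Real.exp (-(2 * LL m)) ∧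
    ET (2 ^ m) (fun n => ind ((n : ℝ) ≤ cc * m - 2 * phi m)) ≤ Real.exp (-(2 * LL m)) +
      6 / (m : ℝ) ^ 2 := by
  obtain ⟨C, hC, hT⟩ := T_up
  filter_upwards [est (a := 2) (κ := 1) (ε := 1) (A := 1) (C := C) (by norm_num) le_rfl one_pos
    (by norm_num) one_pos hC, eventually_ge_atTop 2] with m hm hm2
  obtain ⟨e1, e2, e3⟩ := hm m le_rfl (by rw [one_mul])
  set lam : ℝ := 2 * phi m / (vv * m) with hlam
  obtain ⟨c1, c2⟩ := hT m hm2 lam e1 e2
  have hk0 : (0 : ℝ) ≤ kk m := Nat.cast_nonneg _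
  have hs0 : (0 : ℝ) ≤ √m := Real.sqrt_nonneg _
  have h1 : 0 ≤ lam * (4 + 18 * kk m) := by positivity
  have h2 : 0 ≤ C * (lam * kk m) := by positivity
  have h3 : 0 ≤ lam * (1 * √m) := by positivity
  constructor
  · refine (c1 _).trans (Real.exp_le_exp.2 ?_)
    nlinarith
  · refine (c2 _ (kk m)).trans (add_le_add (Real.exp_le_exp.2 ?_) ?_)
    · nlinarith
    · have h4 := (rr_kk m hm2).1
      have h5 : rr ^ (kk m + 1) ≤ rr ^ kk m :=
        pow_le_pow_of_le_one rr_pos.le rr_lt.le (by omega)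
      have h6 : (6 : ℝ) / (m : ℝ) ^ 2 = 6 * (1 / (m : ℝ) ^ 2) := by ring
      rw [h6]
      linarith

end Pool.Agent.H78NF
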