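import Pool.Agent.H78NF.H

/-!
# The lower half of the law of the iterated logarithm
-/

set_option autoImplicit false

namespace Pool.Agent.H78NF
open H974 H906.Cyl Finset Filter Topology MeasureTheory
open Pool.Agent.W819.EN (vb P2 bx an NA Geo geoNA Lnk LTail ltail)
open Pool.Agent.H863R2.NL (ET ET_le_ET ET_const)
open Pool.Agent.H78CZ (ok2 bx_mono ex_tr NA_local)

/-- the sum of the error terms is small -/
theorem small_err {θ : ℝ} (hθ : θ < 1) (C : ℝ) (M : ℕ) (hM : 1 ≤ M) : ∀ᶠ i : ℕ in atTop,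
    1 / Real.log ((M * i : ℕ) : ℝ) ≤ 1 / 2 * Real.exp (-(θ * LL (M * i))) -
      Real.exp (-(2 * LL i)) - (C / ((M * i : ℕ) : ℝ) ^ 2 + 6 / (i : ℝ) ^ 2) := by
  have hMt : Tendsto (fun i : ℕ => M * i) atTop atTop := tendsto_id.const_mul_atTop' (by omega)
  have hMR : (1 : ℝ) ≤ M := by exact_mod_cast hM
  filter_upwards [eventually_ge_atTop 3, log_tend.eventually_ge_atTop (max 4 (Real.log M)),
    hMt.eventually (LL_tend.eventually_ge_atTop (Real.log 8 / (1 - θ))),
    hMt.eventually ((tendsto_natCast_atTop_atTop (R := ℝ)).eventually_ge_atTop (|C| + 6 * M ^ 2))]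
    with i hi hlog hLL hbig
  have hiR : (3 : ℝ) ≤ i := by exact_mod_cast hi
  have hi0 : (0 : ℝ) < i := by linarith
  have hM0 : (0 : ℝ) < M := by linarith
  set l : ℕ := M * i with hl
  have hlR : (l : ℝ) = M * i := by rw [hl]; push_cast; rfl
  have hl0 : (0 : ℝ) < l := by rw [hlR]; positivity
  have hlogM : Real.log l = Real.log M + Real.log i := by
    rw [hlR, Real.log_mul hM0.ne' hi0.ne']
  have hM1 : 0 ≤ Real.log M := Real.log_nonneg hMR
  have h4 : 4 ≤ Real.log i := (le_max_left _ _).trans hlog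
  have hlM : Real.log M ≤ Real.log i := (le_max_right _ _).trans hlog
  set L : ℝ := Real.log l with hL
  have hL4 : 4 ≤ L := by linarith
  have hL0 : 0 < L := by linarith
  have hLi : L ≤ 2 * Real.log i := by linarith
  have e1 : 4 / L ≤ 1 / 2 * Real.exp (-(θ * LL l)) := by
    have h1 : 0 < 1 - θ := by linarith
    rw [div_le_iff₀ h1] at hLL
    have h2 : 8 ≤ Real.exp (LL l * (1 - θ)) := by
      calc (8 : ℝ) = Real.exp (Real.log 8) := (Real.exp_log (by norm_num)).symm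
        _ ≤ _ := Real.exp_le_exp.2 hLL
    have h3 : Real.exp (-(θ * LL l)) = Real.exp (LL l * (1 - θ)) / L := by
      have : L = Real.exp (LL l) := by
        unfold LL
        rw [Real.exp_log hL0]
      rw [this, ← Real.exp_sub]
      congr 1
      ring
    rw [h3]
    have h5 : 8 / L ≤ Real.exp (LL l * (1 - θ)) / L := div_le_div_of_nonneg_right h2 hL0.le
    have h6 : 4 / L = 1 / 2 * (8 / L) := by ring
    rw [h6]
    linarith
  have e2 : Real.exp (-(2 * LL i)) ≤ 1 / L := by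
    have hli : 0 < Real.log i := by linarith
    have h1 : Real.exp (-(2 * LL i)) = 1 / Real.log i ^ 2 := by
      rw [Real.exp_neg, one_div]
      congr 1
      have : 2 * LL i = LL i + LL i := by ring
      rw [this, Real.exp_add]
      unfold LL
      rw [Real.exp_log hli]
      ring
    rw [h1]
    apply one_div_le_one_div_of_le hL0
    nlinarith
  have e3 : C / (l : ℝ) ^ 2 + 6 / (i : ℝ) ^ 2 ≤ 1 / L := by
    have h1 : C / (l : ℝ) ^ 2 + 6 / (i : ℝ) ^ 2 ≤ (|C| + 6 * M ^ 2) / (l : ℝ) ^ 2 := by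
      have h2 : 6 / (i : ℝ) ^ 2 = 6 * M ^ 2 / (l : ℝ) ^ 2 := by
        rw [hlR]
        field_simp
      rw [h2, ← add_div]
      apply div_le_div_of_nonneg_right _ (by positivity)
      linarith [le_abs_self C]
    refine h1.trans ?_
    rw [div_le_div_iff₀ (by positivity) hL0]
    have h3 : L ≤ l := by
      have := Real.log_le_sub_one_of_pos hl0
      linarith
    have h5 : 0 ≤ |C| + 6 * (M : ℝ) ^ 2 := by positivity
    calc (|C| + 6 * M ^ 2) * L ≤ l * l := mul_le_mul hbig h3 hL0.le hl0.le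
      _ = 1 * (l : ℝ) ^ 2 := by ring
  have e4 : 4 / L = 1 / L + 1 / L + 1 / L + 1 / L := by ring
  have e5 : 0 < 1 / L := by positivity
  linarith

/-- **Probability that a block makes a large excursion.** -/
theorem block_lo {b : ℝ} (hb : 0 < b) (hb1 : b < 1) (M : ℕ) (hM : 2 ≤ M)
    (hbM : 2 ≤ (1 - b) / 4 * √M) : ∀ᶠ i : ℕ in atTop,
    1 / Real.log ((M * i : ℕ) : ℝ) ≤ Pr P2 (BS (M * i)) (fun F =>
      cc * ((M * i : ℕ) - i) + b * phi (M * i) ≤ ZF i (M * i) F) ∧
    1 / Real.log ((M * i : ℕ) : ℝ) ≤ Pr P2 (BS (M * i)) (fun F =>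
      ZF i (M * i) F ≤ cc * ((M * i : ℕ) - i) - b * phi (M * i)) := by
  obtain ⟨C, hC, hL⟩ := link_tail
  have hMt : Tendsto (fun i : ℕ => M * i) atTop atTop := tendsto_id.const_mul_atTop' (by omega)
  have hMR : (2 : ℝ) ≤ M := by exact_mod_cast hM
  set b1 : ℝ := (1 + b) / 2 with hb1'
  set b2 : ℝ := (1 - b) / 4 with hb2'
  have hb10 : 0 < b1 := by rw [hb1']; linarith
  have hb11 : b1 < 1 := by rw [hb1']; linarith
  have hb20 : 0 < b2 := by rw [hb2']; linarith
  set θ : ℝ := (1 + b1 ^ 2) / 2 with hθ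
  have hθ1 : b1 ^ 2 < 1 := by nlinarith
  have hθ2 : b1 ^ 2 < θ := by rw [hθ]; linarith
  have hθ3 : θ < 1 := by rw [hθ]; linarith
  filter_upwards [eventually_ge_atTop 5, hMt.eventually (lo_est hb10 hθ2), rough,
    small_err hθ3 (6 + C) M (by omega), hMt.eventually (ev2 (show 0 < b2 / 22 by positivity)),
    LL_tend.eventually_ge_atTop 0]
    with i hi hlo hr herr he hLi
  have hiR : (5 : ℝ) ≤ i := by exact_mod_cast hi
  have hi0 : (0 : ℝ) < i := by linarith
  set l : ℕ := M * i with hl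
  have hlR : (l : ℝ) = M * i := by rw [hl]; push_cast; rfl
  have hil : i + 2 ≤ l := by
    have : 2 * i ≤ M * i := Nat.mul_le_mul_right i hM
    omega
  have hl2 : 2 ≤ l := by omega
  have hk := (rr_kk l hl2).2
  -- φ(l) dominates φ(i)
  have hphi : 2 * phi i ≤ b2 * phi l := by
    have h1 : √(M : ℝ) * phi i ≤ phi l := by
      unfold phi
      rw [← Real.sqrt_mul (by positivity)]
      apply Real.sqrt_le_sqrt
      rw [hlR]
      have h2 := LL_mono (by omega : 3 ≤ i) (by omega : i ≤ l)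
      have hv := vv_pos
      have h3 : 2 * vv * (M * i) * LL i ≤ 2 * vv * (M * i) * LL l :=
        mul_le_mul_of_nonneg_left h2 (by positivity)
      refine le_trans (le_of_eq ?_) h3
      ring
    have h2 : b2 * (√(M : ℝ) * phi i) ≤ b2 * phi l := mul_le_mul_of_nonneg_left h1 hb20.le
    have h3 : 2 * phi i ≤ b2 * √M * phi i := mul_le_mul_of_nonneg_right hbM (phi_nonneg i)
    linarith
  have hkk : (4 + 18 * (kk l : ℝ)) ≤ b2 * phi l := by
    have hk0 : (0 : ℝ) ≤ kk l := Nat.cast_nonneg _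
    have : (kk l : ℝ) + 1 ≤ b2 / 22 * phi l := he
    linarith
  have hbb : b1 - b2 - b2 = b := by rw [hb1', hb2']; ring
  have hLk := hL (i - 1) (kk l) (BS l) (BS_mono (by omega))
  have hLk2 : C * (1 / 2 : ℝ) ^ kk l ≤ C * (1 / (l : ℝ) ^ 2) := mul_le_mul_of_nonneg_left hk hC.le
  have hCl : C * (1 / (l : ℝ) ^ 2) = C / (l : ℝ) ^ 2 := by ring
  have h6C : (6 + C) / (l : ℝ) ^ 2 = 6 / (l : ℝ) ^ 2 + C / (l : ℝ) ^ 2 := by ring
  have hp6 : 0 ≤ 6 / (i : ℝ) ^ 2 := by positivity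
  have hp7 : 0 ≤ 6 / (l : ℝ) ^ 2 := by positivity
  have hp8 : 0 ≤ C / (l : ℝ) ^ 2 := by positivity
  obtain ⟨lo1, lo2⟩ := hlo
  obtain ⟨r1, r2⟩ := hr
  rw [← law_X l (Finset.Subset.refl _) (fun x => cc * l + b1 * phi l ≤ x)] at lo1
  rw [← law_X l (Finset.Subset.refl _) (fun x => x ≤ cc * l - b1 * phi l)] at lo2
  rw [← law_X i (BS_mono (by omega : i ≤ l)) (fun x => cc * i + 2 * phi i ≤ x)] at r1
  rw [← law_X i (BS_mono (by omega : i ≤ l)) (fun x => x ≤ cc * i - 2 * phi i)] at r2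
  constructor
  · have h1 : Pr P2 (BS l) (fun F => cc * l + b1 * phi l ≤ XF l F) ≤
        Pr P2 (BS l) (fun F => cc * (l - i) + b * phi l ≤ ZF i l F) +
        Pr P2 (BS l) (fun F => cc * i + 2 * phi i ≤ XF i F) +
        Pr P2 (BS l) (fun F => ¬ LF (i - 1) (kk l) F) := by
      have h2 : Pr P2 (BS l) (fun F => cc * l + b1 * phi l ≤ XF l F) ≤
          Pr P2 (BS l) (fun F => (cc * (l - i) + b * phi l ≤ ZF i l F ∨
            cc * i + 2 * phi i ≤ XF i F) ∨ ¬ LF (i - 1) (kk l) F) := by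
        apply Pr_mono ok2
        intro F _ hF
        by_contra hc
        push Not at hc
        obtain ⟨⟨c1, c2⟩, c3⟩ := hc
        have h3 := X_link (by omega : 1 ≤ i) hil c3
        have h4 : b * phi l = b1 * phi l - b2 * phi l - b2 * phi l := by
          rw [← hbb]
          ring
        linarith
      refine h2.trans ((Pr_or_le ok2 _ _ _).trans ?_)
      have := Pr_or_le ok2 (BS l) (fun F => cc * (l - i) + b * phi l ≤ ZF i l F)
        (fun F => cc * i + 2 * phi i ≤ XF i F)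
      linarith
    linarith
  · have h1 : Pr P2 (BS l) (fun F => XF l F ≤ cc * l - b1 * phi l) ≤
        Pr P2 (BS l) (fun F => ZF i l F ≤ cc * (l - i) - b * phi l) +
        Pr P2 (BS l) (fun F => XF i F ≤ cc * i - 2 * phi i) := by
      have h2 : Pr P2 (BS l) (fun F => XF l F ≤ cc * l - b1 * phi l) ≤
          Pr P2 (BS l) (fun F => ZF i l F ≤ cc * (l - i) - b * phi l ∨
            XF i F ≤ cc * i - 2 * phi i) := by
        apply Pr_mono ok2
        intro F _ hF
        by_contra hc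
        push Not at hc
        obtain ⟨c1, c2⟩ := hc
        have h3 := X_super (by omega : i + 1 ≤ l) F
        have h4 : b * phi l = b1 * phi l - b2 * phi l - b2 * phi l := by
          rw [← hbb]
          ring
        have h5 : 0 ≤ b2 * phi l := mul_nonneg hb20.le (phi_nonneg l)
        linarith
      exact h2.trans (Pr_or_le ok2 _ _ _)
    linarith

/-- the events of the blocks are independent -/
theorem indep_blocks {M : ℕ} (hM : 2 ≤ M) (Q : ℕ → ℝ → Prop) :
    ProbabilityTheory.iIndepSet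
      (fun k : ℕ => {ω | Q k (ZF (M ^ (k + 1)) (M ^ (k + 2)) (FF (AS (M ^ (k + 1)) (M ^ (k + 2))) ω))})
      (bondLaw hlf) := by
  classical
  rw [ProbabilityTheory.iIndepSet_iff_meas_biInter (fun k =>
    meas_event (AS (M ^ (k + 1)) (M ^ (k + 2))) (fun F => Q k (ZF (M ^ (k + 1)) (M ^ (k + 2)) F)))]
  intro s
  -- real version
  have hloc : ∀ k, ∀ S : Finset Edg, AS (M ^ (k + 1)) (M ^ (k + 2)) ⊆ S → ∀ ω : sqLattice.edgeSet → Bool,
      (Q k (ZF (M ^ (k + 1)) (M ^ (k + 2)) (FF S ω)) ↔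
      Q k (ZF (M ^ (k + 1)) (M ^ (k + 2)) (FF (AS (M ^ (k + 1)) (M ^ (k + 2))) ω))) := by
    intro k S hS ω
    have h1 : M ^ (k + 1) + 1 ≤ M ^ (k + 2) := Nat.pow_lt_pow_right (by omega) (by omega)
    rw [Z_loc h1 (FF S ω), FF_inter' S _ hS]
  have key : ∀ s : Finset ℕ, (bondLaw hlf).real (⋂ k ∈ s,
      {ω | Q k (ZF (M ^ (k + 1)) (M ^ (k + 2)) (FF (AS (M ^ (k + 1)) (M ^ (k + 2))) ω))}) =
      ∏ k ∈ s, (bondLaw hlf).real
      {ω | Q k (ZF (M ^ (k + 1)) (M ^ (k + 2)) (FF (AS (M ^ (k + 1)) (M ^ (k + 2))) ω))} := by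
    intro s
    induction s using Finset.induction_on_max with
    | empty => simp
    | insert a s hs ih =>
      have ha : a ∉ s := fun h => lt_irrefl _ (hs a h)
      rw [Finset.prod_insert ha, ← ih]
      set U : Finset Edg := BS (M ^ (a + 2)) with hU
      have hAU : AS (M ^ (a + 1)) (M ^ (a + 2)) ⊆ U := AS_sub _ _
      have hsU : ∀ k ∈ s, AS (M ^ (k + 1)) (M ^ (k + 2)) ⊆ BS (M ^ (a + 1)) := by
        intro k hk
        exact (AS_sub _ _).trans (BS_mono (Nat.pow_le_pow_right (by omega) (by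
          have := hs k hk
          omega)))
      have hBU : BS (M ^ (a + 1)) ⊆ U := BS_mono (Nat.pow_le_pow_right (by omega) (by omega))
      have e1 : (⋂ k ∈ insert a s,
          {ω | Q k (ZF (M ^ (k + 1)) (M ^ (k + 2)) (FF (AS (M ^ (k + 1)) (M ^ (k + 2))) ω))}) =
          {ω | (∀ k ∈ s, Q k (ZF (M ^ (k + 1)) (M ^ (k + 2)) (FF U ω))) ∧
            Q a (ZF (M ^ (a + 1)) (M ^ (a + 2)) (FF U ω))} := by
        ext ω
        simp only [Set.mem_iInter, Set.mem_ofPred_eq, Finset.mem_insert, forall_eq_or_imp]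
        rw [and_comm]
        refine and_congr ?_ ?_
        · refine forall_congr' fun k => forall_congr' fun hk => ?_
          exact (hloc k U ((hsU k hk).trans hBU) ω).symm
        · exact (hloc a U hAU ω).symm
      have e2 : (⋂ k ∈ s,
          {ω | Q k (ZF (M ^ (k + 1)) (M ^ (k + 2)) (FF (AS (M ^ (k + 1)) (M ^ (k + 2))) ω))}) =
          {ω | (∀ k ∈ s, Q k (ZF (M ^ (k + 1)) (M ^ (k + 2)) (FF U ω)))} := by
        ext ω
        simp only [Set.mem_iInter, Set.mem_ofPred_eq]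
        refine forall_congr' fun k => forall_congr' fun hk => ?_
        exact (hloc k U ((hsU k hk).trans hBU) ω).symm
      have e3 : {ω | Q a (ZF (M ^ (a + 1)) (M ^ (a + 2)) (FF (AS (M ^ (a + 1)) (M ^ (a + 2))) ω))} =
          {ω | Q a (ZF (M ^ (a + 1)) (M ^ (a + 2)) (FF U ω))} := by
        ext ω
        simp only [Set.mem_ofPred_eq]
        exact (hloc a U hAU ω).symm
      rw [e1, e2, e3, prw (S := U) (fun F => (∀ k ∈ s, Q k (ZF (M ^ (k + 1)) (M ^ (k + 2)) F)) ∧
          Q a (ZF (M ^ (a + 1)) (M ^ (a + 2)) F)),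
        prw (S := U) (fun F => (∀ k ∈ s, Q k (ZF (M ^ (k + 1)) (M ^ (k + 2)) F))),
        prw (S := U) (fun F => Q a (ZF (M ^ (a + 1)) (M ^ (a + 2)) F))]
      rw [Pr_indep hBU hAU (disj_BA _ _)]
      · ring
      · intro F _
        refine forall_congr' fun k => forall_congr' fun hk => ?_
        have h1 : M ^ (k + 1) + 1 ≤ M ^ (k + 2) := Nat.pow_lt_pow_right (by omega) (by omega)
        rw [Z_loc h1 F, Z_loc h1 (F ∩ BS (M ^ (a + 1))), Finset.inter_assoc,
          Finset.inter_eq_right.2 (hsU k hk)]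
      · intro F _
        have h1 : M ^ (a + 1) + 1 ≤ M ^ (a + 2) := Nat.pow_lt_pow_right (by omega) (by omega)
        rw [Z_loc h1 F, Z_loc h1 (F ∩ AS (M ^ (a + 1)) (M ^ (a + 2))), Finset.inter_assoc,
          Finset.inter_self]
  have h1 := key s
  rw [← ENNReal.ofReal_toReal (measure_ne_top (bondLaw hlf) (⋂ k ∈ s, _))]
  show ENNReal.ofReal ((bondLaw hlf).real _) = _
  rw [h1, ENNReal.ofReal_prod_of_nonneg (fun _ _ => measureReal_nonneg)]
  apply Finset.prod_congr rfl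
  intro k _
  exact ENNReal.ofReal_toReal (measure_ne_top _ _)

/-- second Borel-Cantelli for the blocks -/
theorem bc2 {M : ℕ} (hM : 2 ≤ M) (Q : ℕ → ℝ → Prop) {c : ℝ} (hc : 0 < c)
    (h : ∀ᶠ k : ℕ in atTop, c / ((k : ℝ) + 2) ≤ (bondLaw hlf).real
      {ω | Q k (ZF (M ^ (k + 1)) (M ^ (k + 2)) (FF (AS (M ^ (k + 1)) (M ^ (k + 2))) ω))}) :
    ∀ᵐ ω ∂(bondLaw hlf), ∃ᶠ k : ℕ in atTop,
      Q k (ZF (M ^ (k + 1)) (M ^ (k + 2)) (FF (AS (M ^ (k + 1)) (M ^ (k + 2))) ω)) := by
  set s : ℕ → Set (sqLattice.edgeSet → Bool) := fun k =>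
    {ω | Q k (ZF (M ^ (k + 1)) (M ^ (k + 2)) (FF (AS (M ^ (k + 1)) (M ^ (k + 2))) ω))} with hs
  have hsm : ∀ k, MeasurableSet (s k) := fun k =>
    meas_event (AS (M ^ (k + 1)) (M ^ (k + 2))) (fun F => Q k (ZF (M ^ (k + 1)) (M ^ (k + 2)) F))
  have hsum : ∑' k, (bondLaw hlf) (s k) = ⊤ := by
    by_contra hne
    have h1 : Summable (fun k => (bondLaw hlf).real (s k)) := ENNReal.summable_toReal hne
    have h2 : Summable (fun k : ℕ => c / ((k : ℝ) + 2)) := by
      apply Summable.of_norm_bounded_eventually_nat h1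
      filter_upwards [h] with k hk
      rw [Real.norm_of_nonneg (by positivity)]
      exact hk
    have h3 : Summable (fun k : ℕ => 1 / (((k + 2 : ℕ) : ℝ))) := by
      have h4 := h2.mul_left c⁻¹
      refine h4.congr fun k => ?_
      push_cast
      field_simp
    exact Real.not_summable_one_div_natCast ((summable_nat_add_iff 2).1 h3)
  have h1 := ProbabilityTheory.measure_limsup_eq_one hsm (indep_blocks hM Q) hsum
  have h2 : ∀ᵐ ω ∂(bondLaw hlf), ω ∈ limsup s atTop :=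
    (mem_ae_iff_prob_eq_one (MeasurableSet.measurableSet_limsup hsm)).2 h1
  filter_upwards [h2] with ω hω
  rw [Filter.mem_limsup_iff_frequently_mem] at hω
  exact hω

theorem pow_tend {M : ℕ} (hM : 2 ≤ M) : Tendsto (fun k : ℕ => M ^ (k + 1)) atTop atTop :=
  (tendsto_pow_atTop_atTop_of_one_lt (by omega : 1 < M)).comp (tendsto_add_atTop_nat 1)

theorem exists_M {b : ℝ} (hb1 : b < 1) : ∃ M : ℕ, 2 ≤ M ∧ 2 ≤ (1 - b) / 4 * √M := by
  have h : 0 < (1 - b) / 4 := by linarith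
  obtain ⟨M, hM⟩ := exists_nat_gt (max 2 ((2 / ((1 - b) / 4)) ^ 2))
  refine ⟨M, ?_, ?_⟩
  · have : (2 : ℝ) < M := lt_of_le_of_lt (le_max_left _ _) hM
    exact_mod_cast this.le
  · have h1 : (2 / ((1 - b) / 4)) ^ 2 ≤ M := (le_max_right _ _).trans hM.le
    have h2 : 2 / ((1 - b) / 4) ≤ √M := Real.le_sqrt_of_sq_le h1
    rw [div_le_iff₀ h] at h2
    linarith

/-- the scale function at consecutive blocks -/
theorem phi_blk {b : ℝ} {M i : ℕ} (hb : 0 < (1 - b) / 4) (hM : 2 ≤ M) (hi : 3 ≤ i)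
    (hbM : 2 ≤ (1 - b) / 4 * √M) :
    2 * phi i ≤ (1 - b) / 4 * phi (M * i) := by
  have h1 : √(M : ℝ) * phi i ≤ phi (M * i) := by
    unfold phi
    rw [← Real.sqrt_mul (by positivity)]
    apply Real.sqrt_le_sqrt
    push_cast
    have h2 := LL_mono hi (by nlinarith : i ≤ M * i)
    have hv := vv_pos
    have h3 : 2 * vv * (M * i) * LL i ≤ 2 * vv * (M * i) * LL (M * i) :=
      mul_le_mul_of_nonneg_left h2 (by positivity)
    refine le_trans (le_of_eq ?_) h3
    ring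
  have h2 := mul_le_mul_of_nonneg_left h1 hb.le
  have h3 := mul_le_mul_of_nonneg_right hbM (phi_nonneg i)
  linarith

/-- **The lower half, large values.** -/
theorem ae_lo1 {b : ℝ} (hb : 0 < b) (hb1 : b < 1) : ∀ᵐ ω ∂(bondLaw hlf), ∃ᶠ i : ℕ in atTop,
    cc * i + b * phi i ≤ Xw i ω := by
  set b' : ℝ := (1 + b) / 2 with hb'
  have hb'0 : 0 < b' := by rw [hb']; linarith
  have hb'1 : b' < 1 := by rw [hb']; linarith
  have hb4 : 0 < (1 - b') / 4 := by linarith
  obtain ⟨M, hM, hbM⟩ := exists_M hb'1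
  have hMR : (2 : ℝ) ≤ M := by exact_mod_cast hM
  have hlM : 0 < Real.log M := Real.log_pos (by linarith)
  have e : ∀ k : ℕ, M ^ (k + 2) = M * M ^ (k + 1) := fun k => by ring
  have hP := (pow_tend hM).eventually (block_lo hb'0 hb'1 M hM hbM)
  have h1 := bc2 hM (fun k z => cc * ((M ^ (k + 2) : ℕ) - (M ^ (k + 1) : ℕ)) +
    b' * phi (M ^ (k + 2)) ≤ z) (c := 1 / Real.log M) (by positivity) (by
      filter_upwards [hP] with k hk
      rw [prw (S := AS (M ^ (k + 1)) (M ^ (k + 2))) (fun F =>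
        cc * ((M ^ (k + 2) : ℕ) - (M ^ (k + 1) : ℕ)) + b' * phi (M ^ (k + 2)) ≤
          ZF (M ^ (k + 1)) (M ^ (k + 2)) F)]
      have h2 : M ^ (k + 1) + 1 ≤ M ^ (k + 2) := Nat.pow_lt_pow_right (by omega) (by omega)
      rw [← Pr_local (AS_sub (M ^ (k + 1)) (M ^ (k + 2))) (fun F _ => by
        rw [Z_loc h2 F])]
      have h3 := hk.1
      rw [← e k] at h3
      refine le_trans (le_of_eq ?_) h3
      push_cast
      rw [Real.log_pow]
      push_cast
      field_simp)
  filter_upwards [h1, ae_up (a := 2) (by norm_num)] with ω hω hup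
  have h3 : ∀ᶠ k : ℕ in atTop, 3 ≤ M ^ (k + 1) := (pow_tend hM).eventually_ge_atTop 3
  have h4 := (hω.and_eventually ((pow_tend hM).eventually hup)).and_eventually h3
  have ht : Tendsto (fun k : ℕ => M ^ (k + 2)) atTop atTop :=
    (tendsto_pow_atTop_atTop_of_one_lt (by omega : 1 < M)).comp (tendsto_add_atTop_nat 2)
  refine ht.frequently (p := fun i : ℕ => cc * (i : ℝ) + b * phi i ≤ Xw i ω) (h4.mono ?_)
  rintro k ⟨⟨h5, h6⟩, h7⟩
  have h8 : M ^ (k + 1) + 1 ≤ M ^ (k + 2) := Nat.pow_lt_pow_right (by omega) (by omega)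
  have h9 := X_super h8 (FF (BS (M ^ (k + 2))) ω)
  rw [X_FF (BS_mono (by omega)), X_FF (Finset.Subset.refl _),
    Z_loc h8 (FF (BS (M ^ (k + 2))) ω), FF_inter' _ _ (AS_sub _ _)] at h9
  have h10 := phi_blk hb4 hM h7 hbM
  rw [← e k] at h10
  have h11 := (abs_le.1 h6).1
  have h12 := phi_nonneg (M ^ (k + 2))
  have h13 : b * phi (M ^ (k + 2)) ≤ (b' - (1 - b') / 4) * phi (M ^ (k + 2)) := by
    apply mul_le_mul_of_nonneg_right _ h12
    rw [hb']
    linarith
  linarith

/-- **The lower half, small values.** -/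
theorem ae_lo2 {b : ℝ} (hb : 0 < b) (hb1 : b < 1) : ∀ᵐ ω ∂(bondLaw hlf), ∃ᶠ i : ℕ in atTop,
    Xw i ω ≤ cc * i - b * phi i := by
  set b' : ℝ := (1 + b) / 2 with hb'
  have hb'0 : 0 < b' := by rw [hb']; linarith
  have hb'1 : b' < 1 := by rw [hb']; linarith
  have hb4 : 0 < (1 - b') / 4 := by linarith
  obtain ⟨M, hM, hbM⟩ := exists_M hb'1
  have hMR : (2 : ℝ) ≤ M := by exact_mod_cast hM
  have hlM : 0 < Real.log M := Real.log_pos (by linarith)
  have e : ∀ k : ℕ, M ^ (k + 2) = M * M ^ (k + 1) := fun k => by ring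
  have ht : Tendsto (fun k : ℕ => M ^ (k + 2)) atTop atTop :=
    (tendsto_pow_atTop_atTop_of_one_lt (by omega : 1 < M)).comp (tendsto_add_atTop_nat 2)
  have hP := (pow_tend hM).eventually (block_lo hb'0 hb'1 M hM hbM)
  have h1 := bc2 hM (fun k z => z ≤ cc * ((M ^ (k + 2) : ℕ) - (M ^ (k + 1) : ℕ)) -
    b' * phi (M ^ (k + 2))) (c := 1 / Real.log M) (by positivity) (by
      filter_upwards [hP] with k hk
      rw [prw (S := AS (M ^ (k + 1)) (M ^ (k + 2))) (fun F =>
        ZF (M ^ (k + 1)) (M ^ (k + 2)) F ≤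
          cc * ((M ^ (k + 2) : ℕ) - (M ^ (k + 1) : ℕ)) - b' * phi (M ^ (k + 2)))]
      have h2 : M ^ (k + 1) + 1 ≤ M ^ (k + 2) := Nat.pow_lt_pow_right (by omega) (by omega)
      rw [← Pr_local (AS_sub (M ^ (k + 1)) (M ^ (k + 2))) (fun F _ => by
        rw [Z_loc h2 F])]
      have h3 := hk.2
      rw [← e k] at h3
      refine le_trans (le_of_eq ?_) h3
      push_cast
      rw [Real.log_pow]
      push_cast
      field_simp)
  -- the links
  obtain ⟨C, hC, hL⟩ := link_tail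
  have hlk : ∀ᵐ ω ∂(bondLaw hlf), ∀ᶠ k : ℕ in atTop,
      LF (M ^ (k + 1) - 1) (kk (M ^ (k + 2))) (FF (BS (M ^ (k + 2))) ω) := by
    have hsum : Summable (fun k : ℕ => C * (1 / 4 : ℝ) ^ (k + 2)) :=
      ((summable_nat_add_iff 2).2 (summable_geometric_of_lt_one (by norm_num) (by norm_num))).mul_left C
    have h2 := bc1 (s := fun k => {ω | ¬ LF (M ^ (k + 1) - 1) (kk (M ^ (k + 2)))
      (FF (BS (M ^ (k + 2))) ω)}) hsum (by
        filter_upwards [(pow_tend hM).eventually_ge_atTop 5] with k hk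
        rw [prw (S := BS (M ^ (k + 2))) (fun F => ¬ LF (M ^ (k + 1) - 1) (kk (M ^ (k + 2))) F)]
        have h5 : M ^ (k + 1) + 5 ≤ M ^ (k + 2) := by
          rw [e k]
          nlinarith
        refine (hL _ _ _ (BS_mono (by omega))).trans ?_
        apply mul_le_mul_of_nonneg_left _ hC.le
        refine (rr_kk (M ^ (k + 2)) (by omega)).2.trans ?_
        rw [div_pow, one_pow]
        apply one_div_le_one_div_of_le (by positivity)
        push_cast
        rw [← pow_mul, mul_comm (k + 2) 2, pow_mul]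
        apply pow_le_pow_left₀ (by norm_num)
        nlinarith)
    filter_upwards [h2] with ω hω
    filter_upwards [hω] with k hk
    simpa using hk
  filter_upwards [h1, ae_up (a := 2) (by norm_num), hlk] with ω hω hup hlw
  have h3 : ∀ᶠ k : ℕ in atTop, 3 ≤ M ^ (k + 1) := (pow_tend hM).eventually_ge_atTop 3
  have hev := ht.eventually (ev2 (show 0 < (1 - b') / 4 / 22 by positivity))
  have h4 := (((hω.and_eventually ((pow_tend hM).eventually hup)).and_eventually
    h3).and_eventually hlw).and_eventually hev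
  refine ht.frequently (p := fun i : ℕ => Xw i ω ≤ cc * (i : ℝ) - b * phi i) (h4.mono ?_)
  rintro k ⟨⟨⟨⟨h5, h6⟩, h7⟩, h14⟩, h15⟩
  have h8 : M ^ (k + 1) + 2 ≤ M ^ (k + 2) := by
    rw [e k]
    nlinarith
  have h9 := X_link (by omega) h8 h14
  rw [X_FF (i := M ^ (k + 2)) (Finset.Subset.refl _),
    X_FF (i := M ^ (k + 1)) (S := BS (M ^ (k + 2))) (BS_mono (by omega)),
    Z_loc (by omega) (FF (BS (M ^ (k + 2))) ω), FF_inter' _ _ (AS_sub _ _)] at h9
  have h10 := phi_blk hb4 hM h7 hbM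
  rw [← e k] at h10
  have h11 := (abs_le.1 h6).2
  have h12 := phi_nonneg (M ^ (k + 2))
  have h13 : b * phi (M ^ (k + 2)) ≤ (b' - (1 - b') / 4 - (1 - b') / 4) * phi (M ^ (k + 2)) := by
    apply mul_le_mul_of_nonneg_right _ h12
    rw [hb']
    linarith
  have hk0 : (0 : ℝ) ≤ kk (M ^ (k + 2)) := Nat.cast_nonneg _
  linarith

end Pool.Agent.H78NF
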