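import Pool.Agent.H78NF.I
import Pool.Agent.W819.EN.Layers

/-!
# The law of the iterated logarithm for all radii
-/

set_option autoImplicit false

namespace Pool.Agent.H78NF
open H974 H906.Cyl Finset Filter Topology MeasureTheory
open Pool.Agent.W819.EN (vb P2 bx an NA Geo geoNA Lnk LTail ltail layers layers_eq)
open Pool.Agent.H863R2.NL (ET ET_le_ET ET_const changes changes_mono changes_eq cN vN)
open Pool.Agent.H78CZ (ok2 bx_mono ex_tr NA_local)

/-- the number of changes at the dyadic radii -/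
theorem changes_two (i : ℕ) (ω : sqLattice.edgeSet → Bool) : (changes (2 ^ i) ω : ℝ) = Xw i ω := by
  have h1 : changes (2 ^ i) ω = layers (2 ^ i) (0, 0) ω := by
    rw [changes_eq, Pool.Agent.W819.EN.layers_NS, Pool.Agent.W819.EN.NS_zero]
  rw [h1, layers_eq]
  rfl

/-- the scale function -/
noncomputable def psi (n : ℕ) : ℝ := √(2 * vN * Real.log n * Real.log (Real.log (Real.log n)))

/-- limsup of a sequence of real numbers -/
theorem limsup_one {u : ℕ → ℝ} (h1 : ∀ a : ℝ, 1 < a → ∀ᶠ n in atTop, |u n| ≤ a)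
    (h2 : ∀ b : ℝ, 0 < b → b < 1 → ∃ᶠ n in atTop, b ≤ u n) : limsup u atTop = 1 := by
  have hb : IsBoundedUnder (· ≤ ·) atTop u :=
    ⟨2, eventually_map.2 ((h1 2 (by norm_num)).mono fun n hn => (abs_le.1 hn).2)⟩
  have hc : IsCoboundedUnder (· ≤ ·) atTop u :=
    isCoboundedUnder_le_of_eventually_le atTop (x := -2)
      ((h1 2 (by norm_num)).mono fun n hn => (abs_le.1 hn).1)
  apply le_antisymm
  · apply le_of_forall_pos_le_add
    intro ε hε
    apply limsup_le_of_le hc
    filter_upwards [h1 (1 + ε) (by linarith)] with n hn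
    exact (abs_le.1 hn).2
  · apply le_of_forall_pos_sub_le
    intro ε hε
    set b' := max (1 - ε) (1 / 2) with hb'
    have h4 : 1 - ε ≤ b' := le_max_left _ _
    have h5 : 0 < b' := lt_of_lt_of_le (by norm_num) (le_max_right _ _)
    have h6 : b' < 1 := max_lt (by linarith) (by norm_num)
    exact h4.trans (le_limsup_of_frequently_le (h2 b' h5 h6) hb)

theorem liminf_one {u : ℕ → ℝ} (h1 : ∀ a : ℝ, 1 < a → ∀ᶠ n in atTop, |u n| ≤ a)
    (h2 : ∀ b : ℝ, 0 < b → b < 1 → ∃ᶠ n in atTop, u n ≤ -b) : liminf u atTop = -1 := by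
  have hb : IsBoundedUnder (· ≥ ·) atTop u :=
    ⟨-2, eventually_map.2 ((h1 2 (by norm_num)).mono fun n hn => (abs_le.1 hn).1)⟩
  have hc : IsCoboundedUnder (· ≥ ·) atTop u :=
    isCoboundedUnder_ge_of_eventually_le atTop (x := 2)
      ((h1 2 (by norm_num)).mono fun n hn => (abs_le.1 hn).2)
  apply le_antisymm
  · apply le_of_forall_pos_le_add
    intro ε hε
    set b' := max (1 - ε) (1 / 2) with hb'
    have h4 : 1 - ε ≤ b' := le_max_left _ _
    have h5 : 0 < b' := lt_of_lt_of_le (by norm_num) (le_max_right _ _)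
    have h6 : b' < 1 := max_lt (by linarith) (by norm_num)
    exact (liminf_le_of_frequently_le (h2 b' h5 h6) hb).trans (by linarith)
  · apply le_of_forall_pos_sub_le
    intro ε hε
    apply le_liminf_of_le hc
    filter_upwards [h1 (1 + ε) (by linarith)] with n hn
    linarith [(abs_le.1 hn).1]

/-- the scale function at the dyadic scales -/
theorem psi_phi {ε : ℝ} (hε : 0 < ε) (hε1 : ε < 1) : ∀ᶠ j : ℕ in atTop, ∀ n : ℕ,
    |Real.log n - j * Real.log 2| ≤ Real.log 2 →
      (1 - ε) * phi j ≤ psi n ∧ psi n ≤ (1 + ε) * phi j := by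
  have hlog2 : 0 < Real.log 2 := Real.log_pos (by norm_num)
  have hlog2' : Real.log 2 < 1 := by
    have := Real.log_two_lt_d9
    linarith
  have hlog2'' : 1 / 2 < Real.log 2 := by
    have := Real.log_two_gt_d9
    linarith
  have hvN := vN_pos
  filter_upwards [eventually_ge_atTop 9, LL_tend.eventually_ge_atTop (max 1 (2 / ε)),
    (tendsto_natCast_atTop_atTop (R := ℝ)).eventually_ge_atTop (2 / ε)] with j hj hL hj2 n hn
  have hjR : (9 : ℝ) ≤ j := by exact_mod_cast hj
  have hL1 : 1 ≤ LL j := (le_max_left _ _).trans hL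
  have hL2 : 2 / ε ≤ LL j := (le_max_right _ _).trans hL
  have hL0 : 0 < LL j := by linarith
  obtain ⟨h1, h2⟩ := abs_le.1 hn
  set x := Real.log n with hx
  have hlogj : 2 * Real.log 3 ≤ Real.log j := by
    have : 2 * Real.log 3 = Real.log 9 := by
      rw [show (9 : ℝ) = 3 ^ 2 by norm_num, Real.log_pow]
      push_cast
      ring
    rw [this]
    exact Real.log_le_log (by norm_num) hjR
  have hlog3 : 0 < Real.log 3 := Real.log_pos (by norm_num)
  have hx1 : (j : ℝ) / 3 ≤ x := by nlinarith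
  have hx2 : x ≤ (j : ℝ) ^ 2 := by nlinarith
  have hx0 : 0 < x := by linarith
  have hy1 : Real.log j / 2 ≤ Real.log x := by
    have h3 : Real.log (j / 3) ≤ Real.log x := Real.log_le_log (by positivity) hx1
    rw [Real.log_div (by positivity) (by norm_num)] at h3
    linarith
  have hy2 : Real.log x ≤ 2 * Real.log j := by
    have h3 : Real.log x ≤ Real.log ((j : ℝ) ^ 2) := Real.log_le_log hx0 hx2
    rw [Real.log_pow] at h3
    push_cast at h3
    exact h3
  have hlj0 : 0 < Real.log j := by linarith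
  have hy0 : 0 < Real.log x := by linarith
  have hz1 : LL j - Real.log 2 ≤ Real.log (Real.log x) := by
    have h3 := Real.log_le_log (by positivity) hy1
    rw [Real.log_div hlj0.ne' (by norm_num)] at h3
    exact h3
  have hz2 : Real.log (Real.log x) ≤ LL j + Real.log 2 := by
    have h3 := Real.log_le_log hy0 hy2
    rw [Real.log_mul (by norm_num) hlj0.ne'] at h3
    unfold LL
    linarith
  have hphi : phi j = √(2 * vN * (j * Real.log 2) * LL j) := by
    unfold phi vv
    congr 1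
    ring
  have hjl : 0 < (j : ℝ) * Real.log 2 := by positivity
  have hx3 : x ≤ (j * Real.log 2) * (1 + ε) := by
    have : 1 ≤ ε * j := by
      rw [div_le_iff₀ hε] at hj2
      linarith
    nlinarith
  have hx4 : (j * Real.log 2) * (1 - ε) ≤ x := by
    have : 1 ≤ ε * j := by
      rw [div_le_iff₀ hε] at hj2
      linarith
    nlinarith
  have hεL : 2 ≤ ε * LL j := by
    rw [div_le_iff₀ hε] at hL2
    linarith
  have hz3 : Real.log (Real.log x) ≤ LL j * (1 + ε) := by linarith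
  have hz4 : LL j * (1 - ε) ≤ Real.log (Real.log x) := by linarith
  have hz0 : 0 ≤ Real.log (Real.log x) := by
    have : 0 ≤ LL j * (1 - ε) := mul_nonneg hL0.le (by linarith)
    linarith
  have e1 : (1 - ε) * phi j = √((1 - ε) ^ 2 * (2 * vN * (j * Real.log 2) * LL j)) := by
    rw [Real.sqrt_mul (by positivity), Real.sqrt_sq (by linarith), hphi]
  have e2 : (1 + ε) * phi j = √((1 + ε) ^ 2 * (2 * vN * (j * Real.log 2) * LL j)) := by
    rw [Real.sqrt_mul (by positivity), Real.sqrt_sq (by linarith), hphi]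
  unfold psi
  rw [e1, e2]
  constructor
  · apply Real.sqrt_le_sqrt
    have h5 : (j * Real.log 2) * (1 - ε) * (LL j * (1 - ε)) ≤ x * Real.log (Real.log x) :=
      mul_le_mul hx4 hz4 (mul_nonneg hL0.le (by linarith)) hx0.le
    have h6 := mul_le_mul_of_nonneg_left h5 (by positivity : 0 ≤ 2 * vN)
    refine le_trans (le_of_eq ?_) (h6.trans (le_of_eq ?_)) <;> ring
  · apply Real.sqrt_le_sqrt
    have h5 : x * Real.log (Real.log x) ≤ (j * Real.log 2) * (1 + ε) * (LL j * (1 + ε)) :=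
      mul_le_mul hx3 hz3 hz0 (by positivity)
    have h6 := mul_le_mul_of_nonneg_left h5 (by positivity : 0 ≤ 2 * vN)
    refine le_trans (le_of_eq ?_) (h6.trans (le_of_eq ?_)) <;> ring

/-- consecutive scales -/
theorem phi_succ {ε : ℝ} (hε : 0 < ε) (hε1 : ε < 1) : ∀ᶠ j : ℕ in atTop,
    (1 - ε) * phi (j + 1) ≤ (1 + ε) * phi j := by
  have h1 := psi_phi hε hε1
  have h2 := (tendsto_add_atTop_nat 1).eventually h1
  filter_upwards [h1, h2] with j a b
  have hlog2 : 0 < Real.log 2 := Real.log_pos (by norm_num)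
  have h3 := (a (2 ^ j) (by
    push_cast
    rw [Real.log_pow]
    simp only [sub_self, abs_zero]
    exact hlog2.le)).2
  have h4 := (b (2 ^ j) (by
    push_cast
    rw [Real.log_pow]
    have : (j : ℝ) * Real.log 2 - (j + 1) * Real.log 2 = -Real.log 2 := by ring
    rw [this, abs_neg, abs_of_pos hlog2])).1
  linarith

/-- eventual bounds for all radii -/
theorem ev_all {a : ℝ} (ha : 1 < a) : ∀ᵐ ω ∂(bondLaw hlf), ∀ᶠ n : ℕ in atTop,
    |((changes n ω : ℝ) - cN * Real.log n) / psi n| ≤ a := by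
  set a1 : ℝ := (1 + a) / 2 with ha1
  have ha11 : 1 < a1 := by rw [ha1]; linarith
  -- choose ε
  obtain ⟨ε, hε, hε1, hεa⟩ : ∃ ε : ℝ, 0 < ε ∧ ε < 1 ∧
      (a1 * (1 + ε) + ε * (1 - ε)) ≤ a * (1 - ε) * (1 - ε) := by
    refine ⟨min (1 / 2) ((a - 1) / (8 * a)), by have : 0 < a - 1 := by linarith
                                                positivity, ?_, ?_⟩
    · exact lt_of_le_of_lt (min_le_left _ _) (by norm_num)
    · set ε := min (1 / 2) ((a - 1) / (8 * a)) with hε
      have h1 : ε ≤ (a - 1) / (8 * a) := min_le_right _ _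
      have h2 : ε ≤ 1 / 2 := min_le_left _ _
      have h0 : 0 ≤ ε := by
        have : 0 < a - 1 := by linarith
        positivity
      rw [le_div_iff₀ (by linarith)] at h1
      rw [ha1]
      nlinarith
  filter_upwards [ae_up ha11] with ω hω
  have hc := cc_pos
  -- all conditions at the scale j
  have hev : ∀ᶠ j : ℕ in atTop, (|Xw j ω - cc * j| ≤ a1 * phi j ∧
      |Xw (j + 1) ω - cc * (j + 1)| ≤ a1 * phi (j + 1)) ∧ (cc ≤ ε * phi j ∧
      (1 - ε) * phi (j + 1) ≤ (1 + ε) * phi j) ∧ (∀ n : ℕ,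
      |Real.log n - j * Real.log 2| ≤ Real.log 2 →
      (1 - ε) * phi j ≤ psi n ∧ psi n ≤ (1 + ε) * phi j) ∧ 0 < phi j := by
    have t1 : ∀ᶠ j : ℕ in atTop, cc / ε * √j ≤ phi j := ev1 (cc / ε)
    have t2 := (tendsto_add_atTop_nat 1).eventually hω
    filter_upwards [hω, t2, t1, phi_succ hε hε1, psi_phi hε hε1, eventually_ge_atTop 1]
      with j h1 h2 h3 h4 h5 h6
    have hj : 1 ≤ √(j : ℝ) := by
      rw [Real.one_le_sqrt]
      exact_mod_cast h6
    have h7 : cc / ε * 1 ≤ cc / ε * √j := mul_le_mul_of_nonneg_left hj (by positivity)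
    have h8 : cc / ε ≤ phi j := by linarith
    refine ⟨⟨h1, by exact_mod_cast h2⟩, ⟨?_, h4⟩, h5, ?_⟩
    · rw [div_le_iff₀ hε] at h8
      linarith
    · exact lt_of_lt_of_le (by positivity) h8
  obtain ⟨J, hJ⟩ := eventually_atTop.1 hev
  rw [eventually_atTop]
  refine ⟨2 ^ (J + 1), fun n hn => ?_⟩
  have hn0 : n ≠ 0 := by
    have := Nat.one_le_two_pow (n := J + 1)
    omega
  set j := Nat.log 2 n with hj
  have hjJ : J ≤ j := by
    have : J + 1 ≤ j := Nat.le_log_of_pow_le (by norm_num) hn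
    omega
  have hj1 : 2 ^ j ≤ n := Nat.pow_log_le_self 2 hn0
  have hj2 : n < 2 ^ (j + 1) := Nat.lt_pow_succ_log_self (by norm_num) n
  obtain ⟨⟨h1, h2⟩, ⟨h3, h4⟩, h5, h6⟩ := hJ j hjJ
  have hnR : (0 : ℝ) < n := by exact_mod_cast Nat.pos_of_ne_zero hn0
  have hlog2 : 0 < Real.log 2 := Real.log_pos (by norm_num)
  have l1 : (j : ℝ) * Real.log 2 ≤ Real.log n := by
    rw [← Real.log_pow]
    apply Real.log_le_log (by positivity)
    exact_mod_cast hj1
  have l2 : Real.log n ≤ (j + 1) * Real.log 2 := by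
    have : ((j : ℝ) + 1) * Real.log 2 = Real.log (2 ^ (j + 1)) := by
      rw [Real.log_pow]
      push_cast
      ring
    rw [this]
    apply Real.log_le_log hnR
    exact_mod_cast hj2.le
  obtain ⟨h7, h8⟩ := h5 n (by rw [abs_le]; constructor <;> linarith)
  have hps : 0 < psi n := lt_of_lt_of_le (mul_pos (by linarith) h6) h7
  have m1 : Xw j ω ≤ changes n ω := by
    rw [← changes_two]
    exact_mod_cast changes_mono hj1 ω
  have m2 : (changes n ω : ℝ) ≤ Xw (j + 1) ω := by
    rw [← changes_two]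
    exact_mod_cast changes_mono hj2.le ω
  have hccc : cc = cN * Real.log 2 := rfl
  have hcN := cN_pos
  have n1 : cc * j ≤ cN * Real.log n := by
    rw [hccc]
    have := mul_le_mul_of_nonneg_left l1 hcN.le
    linarith
  have n2 : cN * Real.log n ≤ cc * (j + 1) := by
    rw [hccc]
    have := mul_le_mul_of_nonneg_left l2 hcN.le
    linarith
  have h10 := (abs_le.1 h1).1
  have h11 := (abs_le.1 h2).2
  -- a1 phi (j+1) + cc ≤ a psi n
  have k1 : a1 * phi (j + 1) + cc ≤ a * psi n := by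
    have e1 : (1 - ε) * (a1 * phi (j + 1)) ≤ a1 * ((1 + ε) * phi j) := by
      have := mul_le_mul_of_nonneg_left h4 (by linarith : 0 ≤ a1)
      linarith
    have e2 : (1 - ε) * cc ≤ (1 - ε) * (ε * phi j) := mul_le_mul_of_nonneg_left h3 (by linarith)
    have e3 : (a1 * (1 + ε) + ε * (1 - ε)) * phi j ≤ a * (1 - ε) * (1 - ε) * phi j :=
      mul_le_mul_of_nonneg_right hεa h6.le
    have e4 : a * (1 - ε) * ((1 - ε) * phi j) ≤ a * (1 - ε) * psi n :=
      mul_le_mul_of_nonneg_left h7 (mul_nonneg (by linarith) (by linarith))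
    have e5 : (1 - ε) * (a1 * phi (j + 1) + cc) ≤ (1 - ε) * (a * psi n) := by linarith
    exact le_of_mul_le_mul_left e5 (by linarith)
  have k2 : a1 * phi j + cc ≤ a * psi n := by
    have e1 : (a1 + ε) * phi j ≤ a * (1 - ε) * phi j := by
      apply mul_le_mul_of_nonneg_right _ h6.le
      nlinarith
    have e4 : a * ((1 - ε) * phi j) ≤ a * psi n :=
      mul_le_mul_of_nonneg_left h7 (by linarith)
    linarith
  rw [abs_div, abs_of_pos hps, div_le_iff₀ hps, abs_le]
  constructor <;> linarith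

/-- **Law of the iterated logarithm.** -/
theorem lil : ∀ᵐ ω ∂(bondLaw hlf),
    limsup (fun n : ℕ => ((changes n ω : ℝ) - cN * Real.log n) / psi n) atTop = 1 ∧
    liminf (fun n : ℕ => ((changes n ω : ℝ) - cN * Real.log n) / psi n) atTop = -1 := by
  -- the upper bounds for a countable family
  have hup : ∀ᵐ ω ∂(bondLaw hlf), ∀ m : ℕ, ∀ᶠ n : ℕ in atTop,
      |((changes n ω : ℝ) - cN * Real.log n) / psi n| ≤ 1 + 1 / ((m : ℝ) + 1) :=
    ae_all_iff.2 fun m => ev_all (by
      have : (0 : ℝ) < 1 / ((m : ℝ) + 1) := by positivity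
      linarith)
  have hlo1 : ∀ᵐ ω ∂(bondLaw hlf), ∀ m : ℕ, ∃ᶠ i : ℕ in atTop,
      cc * i + (1 - 1 / ((m : ℝ) + 2)) * phi i ≤ Xw i ω :=
    ae_all_iff.2 fun m => ae_lo1 (by
      have : 1 / ((m : ℝ) + 2) ≤ 1 / 2 := one_div_le_one_div_of_le (by norm_num) (by
        have : (0 : ℝ) ≤ m := Nat.cast_nonneg m
        linarith)
      linarith) (by
      have : (0 : ℝ) < 1 / ((m : ℝ) + 2) := by positivity
      linarith)
  have hlo2 : ∀ᵐ ω ∂(bondLaw hlf), ∀ m : ℕ, ∃ᶠ i : ℕ in atTop,
      Xw i ω ≤ cc * i - (1 - 1 / ((m : ℝ) + 2)) * phi i :=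
    ae_all_iff.2 fun m => ae_lo2 (by
      have : 1 / ((m : ℝ) + 2) ≤ 1 / 2 := one_div_le_one_div_of_le (by norm_num) (by
        have : (0 : ℝ) ≤ m := Nat.cast_nonneg m
        linarith)
      linarith) (by
      have : (0 : ℝ) < 1 / ((m : ℝ) + 2) := by positivity
      linarith)
  filter_upwards [hup, hlo1, hlo2] with ω h1 h2 h3
  have g1 : ∀ a : ℝ, 1 < a → ∀ᶠ n : ℕ in atTop,
      |((changes n ω : ℝ) - cN * Real.log n) / psi n| ≤ a := by
    intro a ha
    obtain ⟨m, hm⟩ := exists_nat_gt (1 / (a - 1))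
    filter_upwards [h1 m] with n hn
    refine hn.trans ?_
    have ha0 : 0 < a - 1 := by linarith
    have : 1 / ((m : ℝ) + 1) ≤ a - 1 := by
      rw [div_le_iff₀ (by positivity)]
      rw [div_lt_iff₀ ha0] at hm
      nlinarith
    linarith
  -- passage from the dyadic scales
  have ht : Tendsto (fun i : ℕ => 2 ^ i) atTop atTop :=
    tendsto_pow_atTop_atTop_of_one_lt (by norm_num : 1 < 2)
  have hlog2 : 0 < Real.log 2 := Real.log_pos (by norm_num)
  have hccc : cc = cN * Real.log 2 := rfl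
  have g2 : ∀ b : ℝ, 0 < b → b < 1 → ∃ m : ℕ, ∃ ε : ℝ, 0 < ε ∧ ε < 1 ∧
      b * (1 + ε) ≤ 1 - 1 / ((m : ℝ) + 2) := by
    intro b hb hb1
    obtain ⟨m, hm⟩ := exists_nat_gt (2 / (1 - b))
    refine ⟨m, (1 - b) / 2, by linarith, by linarith, ?_⟩
    have ha0 : 0 < 1 - b := by linarith
    have : 1 / ((m : ℝ) + 2) ≤ (1 - b) / 2 := by
      rw [div_le_iff₀ (by positivity)]
      rw [div_lt_iff₀ ha0] at hm
      nlinarith
    nlinarith
  have g3 : ∀ ε : ℝ, 0 < ε → ε < 1 → ∀ᶠ i : ℕ in atTop,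
      (1 - ε) * phi i ≤ psi (2 ^ i) ∧ psi (2 ^ i) ≤ (1 + ε) * phi i := by
    intro ε hε hε1
    filter_upwards [psi_phi hε hε1] with i hi
    apply hi
    push_cast
    rw [Real.log_pow]
    simp only [sub_self, abs_zero]
    exact hlog2.le
  have g4 : ∀ᶠ i : ℕ in atTop, 0 < phi i := by
    filter_upwards [ev1 1, eventually_ge_atTop 1] with i hi hi1
    have : 0 < √(i : ℝ) := Real.sqrt_pos.2 (by exact_mod_cast hi1)
    linarith
  have hcl : ∀ i : ℕ, cN * Real.log ((2 ^ i : ℕ) : ℝ) = cc * i := by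
    intro i
    push_cast
    rw [Real.log_pow, hccc]
    ring
  constructor
  · apply limsup_one g1
    intro b hb hb1
    obtain ⟨m, ε, hε, hε1, hbm⟩ := g2 b hb hb1
    refine ht.frequently (((h2 m).and_eventually ((g3 ε hε hε1).and g4)).mono ?_)
    rintro i ⟨h5, ⟨h6, h7⟩, h8⟩
    have hps : 0 < psi (2 ^ i) := lt_of_lt_of_le (mul_pos (by linarith) h8) h6
    rw [le_div_iff₀ hps, changes_two, hcl]
    have h9 : b * psi (2 ^ i) ≤ b * ((1 + ε) * phi i) := mul_le_mul_of_nonneg_left h7 hb.le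
    have h10 := mul_le_mul_of_nonneg_right hbm h8.le
    linarith
  · apply liminf_one g1
    intro b hb hb1
    obtain ⟨m, ε, hε, hε1, hbm⟩ := g2 b hb hb1
    refine ht.frequently (((h3 m).and_eventually ((g3 ε hε hε1).and g4)).mono ?_)
    rintro i ⟨h5, ⟨h6, h7⟩, h8⟩
    have hps : 0 < psi (2 ^ i) := lt_of_lt_of_le (mul_pos (by linarith) h8) h6
    rw [div_le_iff₀ hps, changes_two, hcl]
    have h9 : b * psi (2 ^ i) ≤ b * ((1 + ε) * phi i) := mul_le_mul_of_nonneg_left h7 hb.le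
    have h10 := mul_le_mul_of_nonneg_right hbm h8.le
    linarith

end Pool.Agent.H78NF
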