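import Pool.Agent.H78NF.J

/-!
# Integrals over the infinite lattice, independence, means of the numbers of layers in annuli
-/

set_option autoImplicit false

namespace Pool.Agent.H78NF
open H974 H906.Cyl Finset Filter Topology MeasureTheory ProbabilityTheory
open Pool.Agent.W819.EN (vb P2 bx an NA Geo geoNA Lnk LTail ltail layers layers_eq)
open Pool.Agent.H863R2.NL (ET ET_le_ET ET_const changes changes_mono changes_eq cN vN)
open Pool.Agent.H78CZ (ok2 bx_mono ex_tr NA_local)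

/-- the law of the configuration -/
noncomputable abbrev mu2 : Measure (sqLattice.edgeSet → Bool) := bondLaw hlf

theorem meas_F {β : Type*} [MeasurableSpace β] (S : Finset Edg) (f : Finset Edg → β) :
    Measurable (fun ω : sqLattice.edgeSet → Bool => f (FF S ω)) := by
  intro B _
  exact meas_event S (fun F => f F ∈ B)

theorem int_F {E : Type*} [NormedAddCommGroup E] [MeasurableSpace E] [BorelSpace E]
    [SecondCountableTopology E] (S : Finset Edg) (f : Finset Edg → E) :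
    Integrable (fun ω : sqLattice.edgeSet → Bool => f (FF S ω)) mu2 := by
  classical
  apply Integrable.of_bound (meas_F S f).aestronglyMeasurable (∑ T ∈ S.powerset, ‖f T‖)
  filter_upwards with ω
  exact Finset.single_le_sum (f := fun T => ‖f T‖) (fun T _ => norm_nonneg _)
    (Finset.mem_powerset.2 (Finset.filter_subset _ _))

theorem int_FF (S : Finset Edg) (f : Finset Edg → ℝ) :
    ∫ ω, f (FF S ω) ∂mu2 = Ex P2 S f := by
  classical
  have h1 : ∀ ω : sqLattice.edgeSet → Bool, f (FF S ω) =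
      ∑ T ∈ S.powerset, Set.indicator {ω : sqLattice.edgeSet → Bool | FF S ω = T}
        (fun _ => f T) ω := by
    intro ω
    rw [Finset.sum_eq_single (FF S ω)]
    · rw [Set.indicator_of_mem (show ω ∈ {ω' | FF S ω' = FF S ω} from rfl)]
    · intro T _ hT
      rw [Set.indicator_of_notMem]
      intro h
      exact hT (show FF S ω = T from h).symm
    · intro h
      exact absurd (Finset.mem_powerset.2 (Finset.filter_subset _ _)) h
  simp_rw [h1]
  rw [integral_finsetSum]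
  · unfold Ex
    apply Finset.sum_congr rfl
    intro T hT
    rw [integral_indicator_const _ (meas_FF S T), law_eq hlf (Finset.mem_powerset.1 hT),
      smul_eq_mul]
    rfl
  · intro T _
    exact (integrable_const _).indicator (meas_FF S T)

/-- disjoint sets of edges are independent -/
theorem indep_F {β γ : Type*} [MeasurableSpace β] [MeasurableSpace γ] {S T : Finset Edg}
    (hd : Disjoint S T) (f : Finset Edg → β) (g : Finset Edg → γ) :
    IndepFun (fun ω : sqLattice.edgeSet → Bool => f (FF S ω)) (fun ω => g (FF T ω)) mu2 := by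
  classical
  rw [indepFun_iff_measure_inter_preimage_eq_mul]
  intro A B _ _
  have h1 : mu2.real ({ω | f (FF S ω) ∈ A} ∩ {ω | g (FF T ω) ∈ B}) =
      mu2.real {ω | f (FF S ω) ∈ A} * mu2.real {ω | g (FF T ω) ∈ B} := by
    have e1 : ∀ ω : sqLattice.edgeSet → Bool, FF S ω = FF (S ∪ T) ω ∩ S := fun ω =>
      (FF_inter' (S ∪ T) S Finset.subset_union_left ω).symm
    have e2 : ∀ ω : sqLattice.edgeSet → Bool, FF T ω = FF (S ∪ T) ω ∩ T := fun ω =>
      (FF_inter' (S ∪ T) T Finset.subset_union_right ω).symm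
    have e3 : ({ω | f (FF S ω) ∈ A} ∩ {ω | g (FF T ω) ∈ B} : Set (sqLattice.edgeSet → Bool)) =
        {ω | f (FF (S ∪ T) ω ∩ S) ∈ A ∧ g (FF (S ∪ T) ω ∩ T) ∈ B} := by
      ext ω
      simp only [Set.mem_inter_iff, Set.mem_ofPred_eq]
      rw [← e1, ← e2]
    have e4 : ({ω | f (FF S ω) ∈ A} : Set (sqLattice.edgeSet → Bool)) =
        {ω | f (FF (S ∪ T) ω ∩ S) ∈ A} := by
      ext ω
      simp only [Set.mem_ofPred_eq]
      rw [← e1]
    have e5 : ({ω | g (FF T ω) ∈ B} : Set (sqLattice.edgeSet → Bool)) =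
        {ω | g (FF (S ∪ T) ω ∩ T) ∈ B} := by
      ext ω
      simp only [Set.mem_ofPred_eq]
      rw [← e2]
    rw [e3, e4, e5, prw (S := S ∪ T) (fun F => f (F ∩ S) ∈ A ∧ g (F ∩ T) ∈ B),
      prw (S := S ∪ T) (fun F => f (F ∩ S) ∈ A), prw (S := S ∪ T) (fun F => g (F ∩ T) ∈ B)]
    apply Pr_indep Finset.subset_union_left Finset.subset_union_right hd
    · intro F _
      rw [Finset.inter_assoc, Finset.inter_self]
    · intro F _
      rw [Finset.inter_assoc, Finset.inter_self]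
  have h2 : (mu2 ({ω | f (FF S ω) ∈ A} ∩ {ω | g (FF T ω) ∈ B})).toReal =
      (mu2 {ω | f (FF S ω) ∈ A} * mu2 {ω | g (FF T ω) ∈ B}).toReal := by
    rw [ENNReal.toReal_mul]
    exact h1
  exact (ENNReal.toReal_eq_toReal_iff' (measure_ne_top _ _)
    (ENNReal.mul_ne_top (measure_ne_top _ _) (measure_ne_top _ _))).1 h2

theorem int_mul {S T : Finset Edg} (hd : Disjoint S T) (f g : Finset Edg → ℂ) :
    ∫ ω, f (FF S ω) * g (FF T ω) ∂mu2 = (∫ ω, f (FF S ω) ∂mu2) * ∫ ω, g (FF T ω) ∂mu2 :=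
  (indep_F hd f g).integral_fun_mul_eq_mul_integral (meas_F S f).aestronglyMeasurable
    (meas_F T g).aestronglyMeasurable

/-- families of pairwise disjoint sets of edges -/
theorem int_prod {κ : Type*} [DecidableEq κ] (I : Finset κ) (S : κ → Finset Edg)
    (hd : ∀ i ∈ I, ∀ j ∈ I, i ≠ j → Disjoint (S i) (S j)) (f : κ → Finset Edg → ℂ) :
    ∫ ω, ∏ i ∈ I, f i (FF (S i) ω) ∂mu2 = ∏ i ∈ I, ∫ ω, f i (FF (S i) ω) ∂mu2 := by
  classical
  induction I using Finset.induction_on with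
  | empty => simp
  | insert a I ha ih =>
    rw [Finset.prod_insert ha, ← ih (fun i hi j hj hij =>
      hd i (Finset.mem_insert_of_mem hi) j (Finset.mem_insert_of_mem hj) hij)]
    have e1 : ∀ ω : sqLattice.edgeSet → Bool, ∏ i ∈ insert a I, f i (FF (S i) ω) =
        f a (FF (S a) ω) * (fun F : Finset Edg => ∏ i ∈ I, f i (F ∩ S i)) (FF (I.biUnion S) ω) := by
      intro ω
      rw [Finset.prod_insert ha]
      congr 1
      apply Finset.prod_congr rfl
      intro i hi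
      rw [FF_inter' _ _ (Finset.subset_biUnion_of_mem S hi)]
    have e2 : ∀ ω : sqLattice.edgeSet → Bool, ∏ i ∈ I, f i (FF (S i) ω) =
        (fun F : Finset Edg => ∏ i ∈ I, f i (F ∩ S i)) (FF (I.biUnion S) ω) := by
      intro ω
      apply Finset.prod_congr rfl
      intro i hi
      rw [FF_inter' _ _ (Finset.subset_biUnion_of_mem S hi)]
    simp only [e1, e2]
    refine int_mul (S := S a) (T := I.biUnion S) ?_ (f a)
      (fun F : Finset Edg => ∏ i ∈ I, f i (F ∩ S i))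
    rw [Finset.disjoint_biUnion_right]
    intro i hi
    apply hd a (Finset.mem_insert_self _ _) i (Finset.mem_insert_of_mem hi)
    rintro rfl
    exact ha hi

/-! ### The number of layers in an annulus -/

/-- the number of layers between the distances `r` and `R` of `v` -/
noncomputable def W (v : Vtx) (r R : ℕ) (ω : sqLattice.edgeSet → Bool) : ℕ :=
  NA (FF (an v r R) ω) v r R

theorem W_eq {v : Vtx} {r R : ℕ} (h : r ≤ R) {S : Finset Edg} (hS : an v r R ⊆ S)
    (ω : sqLattice.edgeSet → Bool) : NA (FF S ω) v r R = W v r R ω := by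
  rw [geoNA.loc (FF S ω) v r R h, FF_inter' _ _ hS]
  rfl

theorem an_bx (v : Vtx) (r R : ℕ) : an v r R ⊆ bx v R := Finset.sdiff_subset

theorem layers_W (n : ℕ) (v : ℤ × ℤ) (ω : sqLattice.edgeSet → Bool) :
    layers n v ω = W v 0 n ω := by
  rw [layers_eq]
  exact W_eq (Nat.zero_le n) (an_bx v 0 n) ω

theorem W_mono {v : Vtx} {r r' R R' : ℕ} (h : r' ≤ r) (h2 : R ≤ R') (h3 : r ≤ R)
    (ω : sqLattice.edgeSet → Bool) : W v r R ω ≤ W v r' R' ω := by
  rw [← W_eq h3 (S := bx v R') ((an_bx v r R).trans (bx_mono v (by exact_mod_cast h2))) ω,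
    ← W_eq (by omega) (S := bx v R') (an_bx v r' R') ω]
  exact geoNA.mono _ v r r' R R' h h2

theorem W_super {v : Vtx} {r1 R1 r2 R2 : ℕ} (h1 : r1 ≤ R1) (h2 : R1 < r2) (h3 : r2 ≤ R2)
    (ω : sqLattice.edgeSet → Bool) : W v r1 R1 ω + W v r2 R2 ω ≤ W v r1 R2 ω := by
  rw [← W_eq h1 (S := bx v R2) ((an_bx v r1 R1).trans (bx_mono v (by
      exact_mod_cast (by omega : R1 ≤ R2)))) ω,
    ← W_eq h3 (S := bx v R2) (an_bx v r2 R2) ω, ← W_eq (by omega) (S := bx v R2) (an_bx v r1 R2) ω]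
  exact geoNA.super _ v r1 R1 r2 R2 h1 h2 h3

theorem W_le (v : Vtx) (r R : ℕ) (ω : sqLattice.edgeSet → Bool) : W v r R ω ≤ 2 * R :=
  geoNA.le _ v r R

theorem int_W {E : Type*} [NormedAddCommGroup E] [MeasurableSpace E] [BorelSpace E]
    [SecondCountableTopology E] (v : Vtx) (r R : ℕ) (f : ℕ → E) :
    Integrable (fun ω : sqLattice.edgeSet → Bool => f (W v r R ω)) mu2 :=
  int_F (an v r R) (fun F => f (NA F v r R))

theorem meas_W (v : Vtx) (r R : ℕ) : Measurable (W v r R) :=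
  meas_F (an v r R) (fun F => NA F v r R)

/-- translation invariance -/
theorem tr_W (v : Vtx) {r R : ℕ} (h : r ≤ R) (f : ℕ → ℝ) :
    ∫ ω, f (W v r R ω) ∂mu2 = ∫ ω, f (W (0, 0) r R ω) ∂mu2 := by
  have e : ∀ w : Vtx, ∀ ω : sqLattice.edgeSet → Bool, f (W w r R ω) =
      (fun F : Finset Edg => f (NA F w r R)) (FF (bx w R) ω) := by
    intro w ω
    rw [← W_eq h (an_bx w r R) ω]
  simp only [e]
  rw [int_FF (bx v R) (fun F : Finset Edg => f (NA F v r R)),
    int_FF (bx (0, 0) R) (fun F : Finset Edg => f (NA F (0, 0) r R)), ex_tr]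
  apply Ex_congr
  intro F _
  have h := geoNA.tr F v (0, 0) r R
  simp only [zero_add] at h
  rw [h]

theorem tr_Wc (v : Vtx) {r R : ℕ} (h : r ≤ R) (f : ℕ → ℂ) :
    ∫ ω, f (W v r R ω) ∂mu2 = ∫ ω, f (W (0, 0) r R ω) ∂mu2 := by
  have e : ∀ w : Vtx, ∫ ω, f (W w r R ω) ∂mu2 =
      ((∫ ω, (f (W w r R ω)).re ∂mu2 : ℝ) : ℂ) + ((∫ ω, (f (W w r R ω)).im ∂mu2 : ℝ) : ℂ) * Complex.I :=
    fun w => (integral_re_add_im (int_W w r R f)).symm
  rw [e v, e (0, 0), tr_W v h (fun m => (f m).re), tr_W v h (fun m => (f m).im)]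

/-- the law around `v` -/
theorem W_ET (v : Vtx) (R : ℕ) (g : ℕ → ℝ) : ∫ ω, g (W v 0 R ω) ∂mu2 = ET R g := by
  have e : ∀ ω : sqLattice.edgeSet → Bool, g (W v 0 R ω) =
      (fun F : Finset Edg => g (NA F v 0 R)) (FF (bx v R) ω) := by
    intro ω
    rw [← W_eq (Nat.zero_le R) (an_bx v 0 R) ω]
  simp only [e]
  rw [int_FF (bx v R) (fun F : Finset Edg => g (NA F v 0 R))]
  exact law_NA v R (Finset.Subset.refl _) g

/-- the mean around `v` -/
theorem mean_W : ∃ C : ℝ, 0 < C ∧ ∀ (v : Vtx) (R : ℕ), 1 ≤ R →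
    |∫ ω, (W v 0 R ω : ℝ) ∂mu2 - cN * Real.log R| ≤ C := by
  obtain ⟨C, hC, h⟩ := Pool.Agent.H78CZ.ET_bound
  refine ⟨C + 1, by linarith, fun v R hR => ?_⟩
  rw [W_ET v R (fun m => (m : ℝ))]
  exact (h R hR).trans (by linarith)

/-- **Links, in the mean.** -/
theorem link_W : ∃ C : ℝ, 0 < C ∧ ∀ (v : Vtx) (b r R : ℕ), 1 ≤ b → r ≤ b → 8 * b ≤ R →
    ∫ ω, (W v r R ω : ℝ) ∂mu2 ≤
      ∫ ω, (W v r (2 * b) ω : ℝ) ∂mu2 + ∫ ω, (W v (4 * b) R ω : ℝ) ∂mu2 + C := by
  classical
  obtain ⟨C, hC, hT⟩ := ltail (1 / 2 : ℝ) (by positivity)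
  refine ⟨4 + 18 * (C * 2) + 2 * C, by positivity, ?_⟩
  intro v b r R hb hrb hbR
  set S : Finset Edg := bx v R with hS
  obtain ⟨M, hM⟩ : ∃ M : ℕ, (R : ℝ) * (1 / 2) ^ M ≤ 1 := by
    refine ⟨R, ?_⟩
    rw [one_div, inv_pow, ← div_eq_mul_inv, div_le_one (by positivity)]
    exact_mod_cast R.lt_two_pow_self.le
  have e1 : ∫ ω, (W v r R ω : ℝ) ∂mu2 = Ex P2 S (fun F => (NA F v r R : ℝ)) := by
    rw [← int_FF]
    congr 1
    funext ω
    rw [W_eq (by omega) (an_bx v r R) ω]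
  have e2 : ∫ ω, (W v r (2 * b) ω : ℝ) ∂mu2 = Ex P2 S (fun F => (NA F v r (2 * b) : ℝ)) := by
    rw [← int_FF]
    congr 1
    funext ω
    rw [W_eq (by omega) ((an_bx v r (2 * b)).trans (bx_mono v (by
      exact_mod_cast (by omega : 2 * b ≤ R)))) ω]
  have e3 : ∫ ω, (W v (4 * b) R ω : ℝ) ∂mu2 = Ex P2 S (fun F => (NA F v (4 * b) R : ℝ)) := by
    rw [← int_FF]
    congr 1
    funext ω
    rw [W_eq (by omega) (an_bx v (4 * b) R) ω]
  rw [e1, e2, e3]
  have hsub : bx v (8 * b) ⊆ S := bx_mono v (by exact_mod_cast hbR)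
  have h1 : Ex P2 S (fun F => (NA F v r R : ℝ)) ≤ Ex P2 S (fun F =>
      ((NA F v r (2 * b) : ℝ) + (NA F v (4 * b) R : ℝ)) + (4 +
        (18 * ∑ k ∈ Finset.range M, ind (¬ Lnk v b k F) + 2 * R * ind (¬ Lnk v b M F)))) := by
    apply Ex_mono ok2
    intro F _
    have hsum0 : 0 ≤ ∑ k ∈ Finset.range M, ind (¬ Lnk v b k F) :=
      Finset.sum_nonneg fun k _ => ind_nonneg _
    have hi0 : 0 ≤ ind (¬ Lnk v b M F) := ind_nonneg _
    have hR0 : (0 : ℝ) ≤ R := Nat.cast_nonneg R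
    by_cases hex : ∃ k ∈ Finset.range (M + 1), Lnk v b k F
    · have hex' : ∃ k, Lnk v b k F := by
        obtain ⟨k, _, hk⟩ := hex
        exact ⟨k, hk⟩
      set k0 := Nat.find hex' with hk0
      have hk1 : Lnk v b k0 F := Nat.find_spec hex'
      have hk2 : k0 ≤ M := by
        obtain ⟨k, hk, hk'⟩ := hex
        rw [Finset.mem_range] at hk
        have := Nat.find_min' hex' hk'
        omega
      have h2 := geoNA.link F v b k0 r R hb hrb hbR hk1
      have h3 : (k0 : ℝ) ≤ ∑ k ∈ Finset.range M, ind (¬ Lnk v b k F) := by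
        have h4 : ∑ k ∈ Finset.range k0, ind (¬ Lnk v b k F) ≤
            ∑ k ∈ Finset.range M, ind (¬ Lnk v b k F) := by
          apply Finset.sum_le_sum_of_subset_of_nonneg
          · exact Finset.range_mono hk2
          · intro k _ _
            exact ind_nonneg _
        refine le_trans (le_of_eq ?_) h4
        rw [Finset.sum_congr rfl (g := fun _ => (1 : ℝ))]
        · simp
        · intro k hk
          rw [Finset.mem_range] at hk
          exact ind_of (Nat.find_min hex' hk)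
      have h5 : (NA F v r R : ℝ) ≤ NA F v r (2 * b) + NA F v (4 * b) R + (4 + 18 * k0) := by
        exact_mod_cast h2
      have h6 : 0 ≤ 2 * (R : ℝ) * ind (¬ Lnk v b M F) := by positivity
      linarith
    · push Not at hex
      have h2 : ¬ Lnk v b M F := hex M (Finset.mem_range.2 (by omega))
      rw [ind_of h2]
      have h3 : (NA F v r R : ℝ) ≤ 2 * R := by exact_mod_cast geoNA.le F v r R
      have h4 : (0 : ℝ) ≤ NA F v r (2 * b) := Nat.cast_nonneg _
      have h5 : (0 : ℝ) ≤ NA F v (4 * b) R := Nat.cast_nonneg _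
      linarith
  refine h1.trans ?_
  rw [Ex_add, Ex_add, Ex_add, Ex_const, Ex_add, Ex_mul_left, Ex_mul_left, Ex_sum]
  have h2 : ∑ k ∈ Finset.range M, Ex P2 S (fun F => ind (¬ Lnk v b k F)) ≤ C * 2 := by
    have h3 : ∀ k ∈ Finset.range M, Ex P2 S (fun F => ind (¬ Lnk v b k F)) ≤ C * (1 / 2) ^ k :=
      fun k _ => hT b v S hb hsub k
    refine (Finset.sum_le_sum h3).trans ?_
    rw [← Finset.mul_sum]
    apply mul_le_mul_of_nonneg_left _ hC.le
    have h4 := sum_geometric_two_le M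
    simpa using h4
  have h3 : Ex P2 S (fun F => ind (¬ Lnk v b M F)) ≤ C * (1 / 2) ^ M := hT b v S hb hsub M
  have h4 : 2 * (R : ℝ) * Ex P2 S (fun F => ind (¬ Lnk v b M F)) ≤ 2 * C := by
    have h5 : 2 * (R : ℝ) * Ex P2 S (fun F => ind (¬ Lnk v b M F)) ≤ 2 * R * (C * (1 / 2) ^ M) :=
      mul_le_mul_of_nonneg_left h3 (by positivity)
    have h6 : 2 * (R : ℝ) * (C * (1 / 2) ^ M) = 2 * C * (R * (1 / 2) ^ M) := by ring
    rw [h6] at h5
    have h7 : 2 * C * (R * (1 / 2) ^ M) ≤ 2 * C * 1 := mul_le_mul_of_nonneg_left hM (by positivity)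
    linarith
  linarith

end Pool.Agent.H78NF
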