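import Pool.Agent.H78NF.K

/-!
# Characteristic functions of the numbers of layers
-/

set_option autoImplicit false

namespace Pool.Agent.H78NF
open H974 H906.Cyl Finset Filter Topology MeasureTheory ProbabilityTheory
open Pool.Agent.W819.EN (vb P2 bx an NA Geo geoNA Lnk LTail ltail layers layers_eq)
open Pool.Agent.H863R2.NL (ET ET_le ET_le_ET ET_const ET_add ET_mul EN EN_add EN_mul EN_id cN vN
  ET_mean)
open Pool.Agent.H78CZ (ok2 bx_mono ex_tr NA_local)

/-- `exp (i x)` -/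
noncomputable def e1 (x : ℝ) : ℂ := Complex.exp (Complex.I * x)

theorem e1_norm (x : ℝ) : ‖e1 x‖ = 1 := by
  unfold e1
  rw [mul_comm]
  exact Complex.norm_exp_ofReal_mul_I x

theorem e1_zero : e1 0 = 1 := by unfold e1; simp

theorem e1_add (x y : ℝ) : e1 (x + y) = e1 x * e1 y := by
  unfold e1
  rw [← Complex.exp_add]
  push_cast
  ring_nf

theorem e1_sub_one (x : ℝ) : ‖e1 x - 1‖ ≤ |x| := Real.norm_exp_I_mul_ofReal_sub_one_le

theorem e1_sub (x y : ℝ) : ‖e1 x - e1 y‖ = ‖e1 (x - y) - 1‖ := by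
  have : e1 x = e1 y * e1 (x - y) := by
    rw [← e1_add]
    congr 1
    ring
  rw [this]
  have h : e1 y * e1 (x - y) - e1 y = e1 y * (e1 (x - y) - 1) := by ring
  rw [h, norm_mul, e1_norm, one_mul]

theorem e1_lip (x y : ℝ) : ‖e1 x - e1 y‖ ≤ |x - y| := by
  rw [e1_sub]
  exact e1_sub_one _

theorem e1_add_sub (x y : ℝ) : ‖e1 (x + y) - 1‖ ≤ ‖e1 x - 1‖ + ‖e1 y - 1‖ := by
  have h : e1 (x + y) - 1 = e1 x * (e1 y - 1) + (e1 x - 1) := by
    rw [e1_add]
    ring
  rw [h]
  refine (norm_add_le _ _).trans ?_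
  rw [norm_mul, e1_norm, one_mul]
  linarith

theorem e1_two (x : ℝ) : ‖e1 x - 1‖ ≤ 2 := by
  refine (norm_sub_le _ _).trans ?_
  rw [e1_norm, norm_one]
  norm_num

theorem e1_cont : Continuous e1 := by
  unfold e1
  fun_prop

theorem e1_re_im (x : ℝ) : e1 x = (Real.cos x : ℂ) + (Real.sin x : ℂ) * Complex.I := by
  unfold e1
  rw [mul_comm, Complex.exp_mul_I, Complex.ofReal_cos, Complex.ofReal_sin]

theorem e1_re (x : ℝ) : (e1 x).re = Real.cos x := by
  rw [e1_re_im]
  simp only [Complex.add_re, Complex.ofReal_re, Complex.mul_re, Complex.I_re, Complex.ofReal_im,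
    Complex.I_im, mul_zero, zero_mul, sub_zero, add_zero]

theorem e1_im (x : ℝ) : (e1 x).im = Real.sin x := by
  rw [e1_re_im]
  simp only [Complex.add_im, Complex.ofReal_im, Complex.mul_im, Complex.I_im, Complex.ofReal_re,
    Complex.I_re, mul_zero, mul_one, add_zero, zero_add]

theorem e1_sq (x : ℝ) : ‖e1 x - 1‖ ^ 2 = 2 * (1 - (e1 x).re) := by
  have h : ‖e1 x - 1‖ ^ 2 = (e1 x - 1).re ^ 2 + (e1 x - 1).im ^ 2 := by
    rw [← Complex.normSq_eq_norm_sq, Complex.normSq_apply]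
    ring
  rw [h, Complex.sub_re, Complex.sub_im, e1_re, e1_im, Complex.one_re, Complex.one_im]
  nlinarith [Real.sin_sq_add_cos_sq x]

/-! ### Comparison of expectations of Lipschitz functions -/

theorem ET_EN : ∃ C : ℝ, 0 < C ∧ ∀ R : ℕ, 1 ≤ R → ∀ (g : ℕ → ℝ) (L : ℝ), 0 ≤ L →
    (∀ m, |g (m + 1) - g m| ≤ L) → |ET R g - EN (2 * R + 1) g| ≤ L * C := by
  obtain ⟨C1, h1⟩ := ET_mean
  obtain ⟨C2, h2⟩ := EN_id
  have hC1 : 0 ≤ C1 := (abs_nonneg _).trans (h1 1 le_rfl)
  have hC2 : 0 ≤ C2 := (abs_nonneg _).trans (h2 1 le_rfl)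
  have hcN := cN_pos
  refine ⟨C1 + C2 + cN * Real.log 3 + 1, by
    have := Real.log_pos (show (1 : ℝ) < 3 by norm_num)
    positivity, ?_⟩
  intro R hR g L hL hg
  have hRR : (1 : ℝ) ≤ R := by exact_mod_cast hR
  have a1 := (abs_le.1 (h1 R hR)).1
  have a2 := (abs_le.1 (h2 (2 * R + 1) (by omega))).2
  have a3 : Real.log ((2 * R + 1 : ℕ) : ℝ) ≤ Real.log 3 + Real.log R := by
    rw [← Real.log_mul (by norm_num) (by linarith)]
    apply Real.log_le_log (by positivity)
    push_cast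
    linarith
  have a4 := mul_le_mul_of_nonneg_left a3 hcN.le
  have hd : EN (2 * R + 1) (fun m => (m : ℝ)) - ET R (fun m => (m : ℝ)) ≤
      C1 + C2 + cN * Real.log 3 + 1 := by linarith
  have m1 : Monotone (fun m : ℕ => g m + L * m) := by
    apply monotone_nat_of_le_succ
    intro m
    have := (abs_le.1 (hg m)).1
    push_cast
    linarith
  have m2 : Monotone (fun m : ℕ => (-1) * g m + L * m) := by
    apply monotone_nat_of_le_succ
    intro m
    have := (abs_le.1 (hg m)).2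
    push_cast
    linarith
  have k1 := ET_le (n := 2 * R + 1) (k := R) (by omega) m1
  have k2 := ET_le (n := 2 * R + 1) (k := R) (by omega) m2
  rw [ET_add, EN_add, ET_mul R L (fun m => (m : ℝ)), EN_mul (2 * R + 1) L (fun m => (m : ℝ))] at k1 k2
  rw [ET_mul, EN_mul] at k2
  have k3 := mul_le_mul_of_nonneg_left hd hL
  rw [abs_le]
  constructor <;> linarith

/-- complex integrals of the number of layers -/
theorem int_e1 (v : Vtx) {r R : ℕ} (t a : ℝ) :
    ∫ ω, e1 (t * (W v r R ω - a)) ∂mu2 =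
      ((∫ ω, Real.cos (t * (W v r R ω - a)) ∂mu2 : ℝ) : ℂ) +
      ((∫ ω, Real.sin (t * (W v r R ω - a)) ∂mu2 : ℝ) : ℂ) * Complex.I := by
  have h := integral_re_add_im (𝕜 := ℂ) (int_W v r R (fun m : ℕ => e1 (t * ((m : ℝ) - a))))
  have h1 : ∀ ω, RCLike.re (e1 (t * ((W v r R ω : ℝ) - a))) = Real.cos (t * (W v r R ω - a)) :=
    fun ω => e1_re _
  have h2 : ∀ ω, RCLike.im (e1 (t * ((W v r R ω : ℝ) - a))) = Real.sin (t * (W v r R ω - a)) :=
    fun ω => e1_im _
  simp only [h1, h2] at h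
  exact h.symm

theorem ENc_re_im (n : ℕ) (g h : ℕ → ℝ) :
    ENc n (fun m => (g m : ℂ) + (h m : ℂ) * Complex.I) =
      ((EN n g : ℝ) : ℂ) + ((EN n h : ℝ) : ℂ) * Complex.I := by
  rw [← ENc_real, ← ENc_real]
  unfold ENc
  simp only [Finset.sum_mul, ← Finset.sum_add_distrib]
  refine Finset.sum_congr rfl fun σ _ => Finset.sum_congr rfl fun τ _ => ?_
  ring

theorem ENc_mul (n : ℕ) (c : ℂ) (g : ℕ → ℂ) : ENc n (fun m => c * g m) = c * ENc n g := by
  unfold ENc
  simp only [Finset.mul_sum]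
  refine Finset.sum_congr rfl fun σ _ => Finset.sum_congr rfl fun τ _ => ?_
  ring

theorem norm_int_e1 {f : (sqLattice.edgeSet → Bool) → ℝ} : ‖∫ ω, e1 (f ω) ∂mu2‖ ≤ 1 := by
  refine (norm_integral_le_integral_norm _).trans ?_
  simp only [e1_norm]
  simp

/-- difference of two exponentials with real parts at most zero (the second) -/
theorem exp_diff {A B : ℂ} {b : ℝ} (hB : B.re ≤ 0) (hb : ‖A - B‖ ≤ b) (hb1 : b ≤ 1) :
    ‖Complex.exp A - Complex.exp B‖ ≤ 2 * b := by
  have h : Complex.exp A - Complex.exp B = Complex.exp B * (Complex.exp (A - B) - 1) := by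
    rw [mul_sub, ← Complex.exp_add]
    ring_nf
  rw [h, norm_mul, Complex.norm_exp]
  have h1 : Real.exp B.re ≤ 1 := Real.exp_le_one_iff.2 hB
  have h2 := Complex.norm_exp_sub_one_le (x := A - B) (hb.trans hb1)
  have h3 : 0 ≤ ‖Complex.exp (A - B) - 1‖ := norm_nonneg _
  nlinarith [Real.exp_pos B.re]

/-- **The number of layers around a vertex.** -/
theorem charX : ∃ C : ℝ, 0 < C ∧ ∀ (v : Vtx) (R : ℕ), 1 ≤ R → ∀ t : ℝ, |t| ≤ 1 / 2 →
    ‖∫ ω, e1 (t * (W v 0 R ω - cN * Real.log R)) ∂mu2 -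
      (Real.exp (-(vN * Real.log R * t ^ 2 / 2)) : ℝ)‖ ≤ C * (|t| + Real.log R * |t| ^ 3) := by
  obtain ⟨C1, hC1, h1⟩ := ET_EN
  obtain ⟨C2, hC2, h2⟩ := mgfN
  have hcN := cN_pos
  have hvN := vN_pos
  set A0 : ℝ := cN * Real.log 3 + vN * Real.log 3 + C2 * (1 + Real.log 3) with hA0
  have hl3 : 0 < Real.log 3 := Real.log_pos (by norm_num)
  have hA00 : 0 < A0 := by positivity
  refine ⟨4 * C1 + 2 * (A0 + C2), by positivity, ?_⟩
  intro v R hR t ht
  have hRR : (1 : ℝ) ≤ R := by exact_mod_cast hR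
  have hlR : 0 ≤ Real.log R := Real.log_nonneg hRR
  have ht0 : 0 ≤ |t| := abs_nonneg t
  set n : ℕ := 2 * R + 1 with hn
  set a : ℝ := cN * Real.log R with ha
  have a3 : Real.log (n : ℝ) ≤ Real.log 3 + Real.log R := by
    rw [← Real.log_mul (by norm_num) (by linarith)]
    apply Real.log_le_log (by positivity)
    rw [hn]
    push_cast
    linarith
  have a4 : Real.log R ≤ Real.log (n : ℝ) := by
    apply Real.log_le_log (by linarith)
    rw [hn]
    push_cast
    linarith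
  -- first step: to the cylinder
  set gc : ℕ → ℝ := fun m => Real.cos (t * (m - a)) with hgc
  set gs : ℕ → ℝ := fun m => Real.sin (t * (m - a)) with hgs
  have lc : ∀ m, |gc (m + 1) - gc m| ≤ |t| := by
    intro m
    simp only [hgc]
    have := Real.abs_cos_sub_cos_le (t * (((m + 1 : ℕ) : ℝ) - a)) (t * ((m : ℝ) - a))
    refine this.trans (le_of_eq ?_)
    congr 1
    push_cast
    ring
  have ls : ∀ m, |gs (m + 1) - gs m| ≤ |t| := by
    intro m
    simp only [hgs]
    have := Real.abs_sin_sub_sin_le (t * (((m + 1 : ℕ) : ℝ) - a)) (t * ((m : ℝ) - a))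
    refine this.trans (le_of_eq ?_)
    congr 1
    push_cast
    ring
  have b1 := h1 R hR gc |t| ht0 lc
  have b2 := h1 R hR gs |t| ht0 ls
  have e2 : ∫ ω, e1 (t * (W v 0 R ω - a)) ∂mu2 = ((ET R gc : ℝ) : ℂ) + ((ET R gs : ℝ) : ℂ) * Complex.I := by
    rw [int_e1, W_ET v R gc, W_ET v R gs]
  have e3 : ENc n (fun m => e1 (t * (m - a))) = ((EN n gc : ℝ) : ℂ) + ((EN n gs : ℝ) : ℂ) * Complex.I := by
    rw [← ENc_re_im]
    congr 1
    funext m
    rw [e1_re_im]
  have d1 : ‖∫ ω, e1 (t * (W v 0 R ω - a)) ∂mu2 - ENc n (fun m => e1 (t * (m - a)))‖ ≤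
      2 * C1 * |t| := by
    rw [e2, e3]
    have : ((ET R gc : ℝ) : ℂ) + ((ET R gs : ℝ) : ℂ) * Complex.I -
        (((EN n gc : ℝ) : ℂ) + ((EN n gs : ℝ) : ℂ) * Complex.I) =
        ((ET R gc - EN n gc : ℝ) : ℂ) + ((ET R gs - EN n gs : ℝ) : ℂ) * Complex.I := by
      push_cast
      ring
    rw [this]
    refine (norm_add_le _ _).trans ?_
    rw [norm_mul, Complex.norm_I, mul_one, Complex.norm_real, Complex.norm_real, Real.norm_eq_abs,
      Real.norm_eq_abs]
    linarith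
  -- second step: the exponential formula
  have hz : ‖(Complex.I * t : ℂ)‖ = |t| := by
    rw [norm_mul, Complex.norm_I, one_mul, Complex.norm_real, Real.norm_eq_abs]
  obtain ⟨Rm, hR1, hR2⟩ := h2 n (by omega) (Complex.I * t) (by rw [hz]; exact ht)
  rw [hz] at hR1
  have e4 : ENc n (fun m => e1 (t * (m - a))) = Complex.exp (-(Complex.I * t * a)) *
      ENc n (fun m => Complex.exp (Complex.I * t * m)) := by
    rw [← ENc_mul]
    congr 1
    funext m
    unfold e1
    rw [← Complex.exp_add]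
    congr 1
    push_cast
    ring
  rw [hR2, ← Complex.exp_add] at e4
  set Aexp : ℂ := -(Complex.I * t * a) + (((cN * Real.log n : ℝ) : ℂ) * (Complex.I * t) +
    ((vN * Real.log n : ℝ) : ℂ) * (Complex.I * t) ^ 2 / 2 + Rm) with hAexp
  set Bexp : ℂ := ((-(vN * Real.log R * t ^ 2 / 2) : ℝ) : ℂ) with hBexp
  have hBre : Bexp.re ≤ 0 := by
    rw [hBexp, Complex.ofReal_re]
    have : 0 ≤ vN * Real.log R * t ^ 2 / 2 := by positivity
    linarith
  have hAB : Aexp - Bexp = Complex.I * ((cN * (Real.log n - Real.log R) * t : ℝ) : ℂ) -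
      ((vN * (Real.log n - Real.log R) * t ^ 2 / 2 : ℝ) : ℂ) + Rm := by
    rw [hAexp, hBexp, ha]
    have hI : (Complex.I * (t : ℂ)) ^ 2 = -((t : ℂ) ^ 2) := by
      rw [mul_pow, Complex.I_sq]
      ring
    rw [hI]
    push_cast
    ring
  have ht3 : |t| ^ 3 ≤ |t| := by
    have h3 : |t| ^ 3 = |t| * (|t| * |t|) := by ring
    rw [h3]
    nlinarith
  have hnorm : ‖Aexp - Bexp‖ ≤ (A0 + C2) * (|t| + Real.log R * |t| ^ 3) := by
    rw [hAB]
    refine (norm_add_le _ _).trans ?_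
    refine (add_le_add (norm_sub_le _ _) hR1).trans ?_
    rw [norm_mul, Complex.norm_I, one_mul, Complex.norm_real, Complex.norm_real, Real.norm_eq_abs,
      Real.norm_eq_abs]
    have c1 : |cN * (Real.log n - Real.log R) * t| ≤ cN * Real.log 3 * |t| := by
      rw [abs_mul, abs_of_nonneg (mul_nonneg hcN.le (by linarith))]
      apply mul_le_mul_of_nonneg_right _ ht0
      exact mul_le_mul_of_nonneg_left (by linarith) hcN.le
    have c2 : |vN * (Real.log n - Real.log R) * t ^ 2 / 2| ≤ vN * Real.log 3 * |t| := by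
      rw [abs_div, abs_mul, abs_of_nonneg (mul_nonneg hvN.le (by linarith)), abs_two,
        abs_of_nonneg (sq_nonneg t)]
      have c3 : vN * (Real.log n - Real.log R) ≤ vN * Real.log 3 :=
        mul_le_mul_of_nonneg_left (by linarith) hvN.le
      have c4 : t ^ 2 ≤ |t| := by
        rw [← sq_abs]
        nlinarith
      have c5 : vN * (Real.log n - Real.log R) * t ^ 2 ≤ vN * Real.log 3 * |t| :=
        mul_le_mul c3 c4 (sq_nonneg _) (by positivity)
      have c6 : 0 ≤ vN * Real.log 3 * |t| := by positivity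
      linarith
    have c3 : C2 * (|t| + Real.log n * |t| ^ 3) ≤ C2 * ((1 + Real.log 3) * |t| + Real.log R * |t| ^ 3) := by
      apply mul_le_mul_of_nonneg_left _ hC2.le
      have c7 : Real.log n * |t| ^ 3 ≤ (Real.log 3 + Real.log R) * |t| ^ 3 :=
        mul_le_mul_of_nonneg_right a3 (by positivity)
      have c8 : Real.log 3 * |t| ^ 3 ≤ Real.log 3 * |t| := mul_le_mul_of_nonneg_left ht3 hl3.le
      linarith
    have c9 : 0 ≤ A0 * (Real.log R * |t| ^ 3) := by positivity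
    have c10 : 0 ≤ C2 * |t| := by positivity
    rw [hA0] at c9 ⊢
    nlinarith
  have hpos : 0 ≤ |t| + Real.log R * |t| ^ 3 := by positivity
  have d2 : ‖ENc n (fun m => e1 (t * (m - a))) - Complex.exp Bexp‖ ≤
      2 * ((A0 + C2) * (|t| + Real.log R * |t| ^ 3)) + (2 * C1 * |t|) := by
    by_cases hsm : (A0 + C2) * (|t| + Real.log R * |t| ^ 3) ≤ 1
    · rw [e4]
      have := exp_diff hBre hnorm hsm
      have h5 : 0 ≤ 2 * C1 * |t| := by positivity
      linarith
    · push Not at hsm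
      have h5 : ‖ENc n (fun m => e1 (t * (m - a)))‖ ≤ 1 + 2 * C1 * |t| := by
        have h6 : ‖∫ ω, e1 (t * (W v 0 R ω - a)) ∂mu2‖ ≤ 1 := norm_int_e1
        have h7 := norm_sub_norm_le (ENc n (fun m => e1 (t * (m - a))))
          (∫ ω, e1 (t * (W v 0 R ω - a)) ∂mu2)
        rw [norm_sub_rev] at h7
        linarith
      have h6 : ‖Complex.exp Bexp‖ ≤ 1 := by
        rw [Complex.norm_exp]
        exact Real.exp_le_one_iff.2 hBre
      refine (norm_sub_le _ _).trans ?_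
      linarith
  have e5 : (Real.exp (-(vN * Real.log R * t ^ 2 / 2)) : ℂ) = Complex.exp Bexp := by
    rw [hBexp, Complex.ofReal_exp]
  rw [e5]
  have d3 := norm_sub_le_norm_sub_add_norm_sub (∫ ω, e1 (t * (W v 0 R ω - a)) ∂mu2)
    (ENc n (fun m => e1 (t * (m - a)))) (Complex.exp Bexp)
  have h9 : 0 ≤ C1 * (Real.log R * |t| ^ 3) := by positivity
  nlinarith

end Pool.Agent.H78NF
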