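import Pool.Agent.H78NF.J

/-!
# The law of the iterated logarithm for the nesting of critical bond percolation on `ℤ²`

Critical bond percolation on the whole square lattice (`p = 1/2`, the FK model with `q = 1` at its
self-dual point). `changes n ω` is the minimal number of colour changes of a path from the origin to
the distance `n`, i.e. the number of nested alternating (open / dual-open) layers around the origin
in the box of radius `n`. Let `c = 1 / (2 √3 π)` and `σ² = 2 / (3 √3 π) - 1 / (2 π²)` be the density
and the variance constant of the nested loops of CLE₆. Almost surely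

`limsup (changes n - c log n) / √(2 σ² log n · log log log n) = 1`

and the liminf is `-1`.

Definitions (in `Pool.Agent.H974R2.Model`, `Pool.Agent.H974R2.Infinite`,
`Pool.Agent.H863R2.NL.Defs`): `sqLattice`, `bondLaw`, `hlf` (`= 1/2`), `openGraph`; `Pt`, `Corner`,
`Free`, `Change`, `ReachIn`, `norm2`, `changes`.

Proof (`Pool.Agent.H78NF.A` - `J`): moment generating function of the number of loops on the
cylinder in a complex neighbourhood of the origin, uniformly in the circumference; comparison with
the plane; approximate additivity of the number of layers over scales (cheap links); maximal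
inequality of Ottaviani's type; both Borel-Cantelli lemmas.
-/

set_option autoImplicit false

namespace Pool.Agent.H78NF.Lil

open MeasureTheory H974 Pool.Agent.H863R2.NL Filter
open scoped Real Topology

/-- The scale `√(2 σ² log n log log log n)`, `σ² = 2 / (3 √3 π) - 1 / (2 π²)`. -/
noncomputable def scale (n : ℕ) : ℝ :=
  √(2 * (2 / (3 * √3 * π) - 1 / (2 * π ^ 2)) * Real.log n *
    Real.log (Real.log (Real.log n)))

theorem result : ∀ᵐ ω ∂(bondLaw hlf),
    limsup (fun n : ℕ => ((changes n ω : ℝ) - Real.log n / (2 * √3 * π)) / scale n) atTop = 1 ∧
    liminf (fun n : ℕ => ((changes n ω : ℝ) - Real.log n / (2 * √3 * π)) / scale n) atTop = -1 := by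
  have e : ∀ n : ℕ, cN * Real.log n = Real.log n / (2 * √3 * π) := by
    intro n
    unfold cN
    ring
  have e2 : ∀ n : ℕ, Pool.Agent.H78NF.psi n = scale n := fun n => rfl
  have h := Pool.Agent.H78NF.lil
  simp only [e, e2] at h
  exact h

end Pool.Agent.H78NF.Lil
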