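import Pool.Agent.H78NF.L
import Pool.Agent.W21.EN.Tr

/-!
# Characteristic functions of the numbers of layers in annuli, comparison of annuli
-/

set_option autoImplicit false

namespace Pool.Agent.H78NF
open H974 H906.Cyl Finset Filter Topology MeasureTheory ProbabilityTheory
open Pool.Agent.W819.EN (vb P2 bx an NA Geo geoNA Lnk LTail ltail layers layers_eq nmv DA)
open Pool.Agent.H863R2.NL (ET ET_le ET_le_ET ET_const ET_add ET_mul EN EN_add EN_mul EN_id cN vN
  ET_mean)
open Pool.Agent.H78CZ (ok2 bx_mono ex_tr NA_local)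

/-- annuli with different centres -/
theorem W_cmp {v w : Vtx} {r R r' R' d : ℕ} (h1 : |v.1 - w.1| ≤ d) (h2 : |v.2 - w.2| ≤ d)
    (hr : r + d ≤ r') (hR : R' + d ≤ R) (hrR' : r' ≤ R') (ω : sqLattice.edgeSet → Bool) :
    W w r' R' ω ≤ W v r R ω := by
  classical
  set S : Finset Edg := an w r' R' ∪ an v r R with hS
  rw [← W_eq hrR' (S := S) Finset.subset_union_left ω,
    ← W_eq (by omega) (S := S) Finset.subset_union_right ω]
  obtain ⟨p, q, hp, hq, hc⟩ := Pool.Agent.W21.EN.NA_DA (FF S ω) v r R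
  apply Nat.sInf_le
  have key : ∀ p : ℤ × ℤ, |nmv v p - nmv w p| ≤ 2 * (d : ℤ) := by
    intro p
    unfold nmv
    have a1 := abs_abs_sub_abs_le (p.1 - (v.1 + v.2)) (p.1 - (w.1 + w.2))
    have a2 := abs_abs_sub_abs_le (p.2 - (v.1 - v.2)) (p.2 - (w.1 - w.2))
    have e1 : p.1 - (v.1 + v.2) - (p.1 - (w.1 + w.2)) = -((v.1 - w.1) + (v.2 - w.2)) := by ring
    have e2 : p.2 - (v.1 - v.2) - (p.2 - (w.1 - w.2)) = -((v.1 - w.1) - (v.2 - w.2)) := by ring
    rw [e1, abs_neg] at a1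
    rw [e2, abs_neg] at a2
    have a3 : |(v.1 - w.1) + (v.2 - w.2)| + |(v.1 - w.1) - (v.2 - w.2)| ≤ 2 * (d : ℤ) := by
      rcases abs_cases ((v.1 - w.1) + (v.2 - w.2)) with ⟨h3, h3'⟩ | ⟨h3, h3'⟩ <;>
      rcases abs_cases ((v.1 - w.1) - (v.2 - w.2)) with ⟨h4, h4'⟩ | ⟨h4, h4'⟩ <;>
      rcases abs_cases (v.1 - w.1) with ⟨h5, h5'⟩ | ⟨h5, h5'⟩ <;>
      rcases abs_cases (v.2 - w.2) with ⟨h6, h6'⟩ | ⟨h6, h6'⟩ <;>
      rw [h3, h4] <;> rw [h5] at h1 <;> rw [h6] at h2 <;> omega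
    rw [abs_le] at a1 a2 ⊢
    constructor <;> linarith [a1.1, a1.2, a2.1, a2.2]
  refine ⟨p, q, ?_, ?_, hc⟩
  · have h3 := (abs_le.1 (key p)).1
    have h4 : ((r : ℤ) + d) ≤ r' := by exact_mod_cast hr
    linarith
  · have h3 := (abs_le.1 (key q)).2
    have h4 : ((R' : ℤ) + d) ≤ R := by exact_mod_cast hR
    linarith

/-- the integral of a difference of exponentials -/
theorem int_diff {f g : (sqLattice.edgeSet → Bool) → ℝ} (hf : Integrable f mu2)
    (hg : Integrable g mu2) :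
    ‖∫ ω, e1 (f ω) ∂mu2 - ∫ ω, e1 (g ω) ∂mu2‖ ≤ ∫ ω, ‖e1 (f ω) - e1 (g ω)‖ ∂mu2 := by
  have i1 : Integrable (fun ω => e1 (f ω)) mu2 :=
    Integrable.of_bound (e1_cont.comp_aestronglyMeasurable hf.1) 1 (by
      filter_upwards with ω
      rw [e1_norm])
  have i2 : Integrable (fun ω => e1 (g ω)) mu2 :=
    Integrable.of_bound (e1_cont.comp_aestronglyMeasurable hg.1) 1 (by
      filter_upwards with ω
      rw [e1_norm])
  rw [← integral_sub i1 i2]
  exact norm_integral_le_integral_norm _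

theorem int_e1_integrable {f : (sqLattice.edgeSet → Bool) → ℝ} (hf : Integrable f mu2) :
    Integrable (fun ω => e1 (f ω)) mu2 :=
  Integrable.of_bound (e1_cont.comp_aestronglyMeasurable hf.1) 1 (by
    filter_upwards with ω
    rw [e1_norm])

theorem int_norm_integrable {f : (sqLattice.edgeSet → Bool) → ℝ} (hf : Integrable f mu2) :
    Integrable (fun ω => ‖e1 (f ω) - 1‖) mu2 :=
  ((int_e1_integrable hf).sub (integrable_const 1)).norm

/-- bound by the first moment -/
theorem int_diff1 {f g : (sqLattice.edgeSet → Bool) → ℝ} (hf : Integrable f mu2)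
    (hg : Integrable g mu2) :
    ‖∫ ω, e1 (f ω) ∂mu2 - ∫ ω, e1 (g ω) ∂mu2‖ ≤ ∫ ω, |f ω - g ω| ∂mu2 := by
  refine (int_diff hf hg).trans ?_
  apply integral_mono
  · exact ((int_e1_integrable hf).sub (int_e1_integrable hg)).norm
  · exact (hf.sub hg).abs
  · intro ω
    exact e1_lip _ _

theorem int_sub_one {f : (sqLattice.edgeSet → Bool) → ℝ} (hf : Integrable f mu2) :
    ∫ ω, ‖e1 (f ω) - 1‖ ∂mu2 ≤ ∫ ω, |f ω| ∂mu2 := by
  apply integral_mono
  · exact int_norm_integrable hf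
  · exact hf.abs
  · intro ω
    exact e1_sub_one _

theorem W_int (v : Vtx) (r R : ℕ) : Integrable (fun ω => (W v r R ω : ℝ)) mu2 :=
  int_W v r R (fun m : ℕ => (m : ℝ))

theorem exp_lip {x y : ℝ} (hx : 0 ≤ x) (hy : 0 ≤ y) : |Real.exp (-x) - Real.exp (-y)| ≤ |x - y| := by
  wlog h : x ≤ y generalizing x y with H
  · rw [abs_sub_comm, abs_sub_comm x y]
    exact H hy hx (le_of_not_ge h)
  have h1 : Real.exp (-y) ≤ Real.exp (-x) := Real.exp_le_exp.2 (by linarith)
  rw [abs_of_nonneg (by linarith), abs_of_nonpos (by linarith)]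
  have h2 : Real.exp (-y) = Real.exp (-x) * Real.exp (-(y - x)) := by
    rw [← Real.exp_add]
    congr 1
    ring
  have h3 : Real.exp (-x) ≤ 1 := Real.exp_le_one_iff.2 (by linarith)
  have h4 := Real.add_one_le_exp (-(y - x))
  have h5 := Real.exp_pos (-x)
  rw [h2]
  nlinarith

/-- **The number of layers in an annulus.** -/
theorem charZ (K : ℝ) : ∃ C : ℝ, 0 < C ∧ ∀ (v : Vtx) (b R : ℕ), 1 ≤ b → 8 * b ≤ R →
    ∀ t : ℝ, t ^ 2 * Real.log R ≤ K →
    ‖∫ ω, e1 (t * (W v (4 * b) R ω - cN * (Real.log R - Real.log b))) ∂mu2 -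
      (Real.exp (-(vN * (Real.log R - Real.log b) * t ^ 2 / 2)) : ℝ)‖ ≤ C * |t| := by
  obtain ⟨C1, hC1, h1⟩ := link_W
  obtain ⟨C2, hC2, h2⟩ := charX
  have hcN := cN_pos
  have hvN := vN_pos
  have hl2 := log2_pos
  set K' : ℝ := max K 0 with hK'
  have hK0 : 0 ≤ K' := le_max_right _ _
  set C3 : ℝ := C1 + 2 * (C2 * (1 + K')) with hC3
  have hC30 : 0 < C3 := by positivity
  refine ⟨C3 * Real.exp (vN * K' / 2) + cN * Real.log 2 + vN * Real.log 2 + 4, by positivity, ?_⟩
  intro v b R hb hbR t htK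
  have ht0 : 0 ≤ |t| := abs_nonneg t
  have hbRR : (1 : ℝ) ≤ b := by exact_mod_cast hb
  have hRR : (8 : ℝ) * b ≤ R := by exact_mod_cast hbR
  have hRpos : (0 : ℝ) < R := by linarith
  have hlb : 0 ≤ Real.log b := Real.log_nonneg hbRR
  have hlR : Real.log (2 * b) ≤ Real.log R := Real.log_le_log (by linarith) (by linarith)
  have hl2b : Real.log (2 * b) = Real.log 2 + Real.log b := Real.log_mul (by norm_num) (by linarith)
  have hlR0 : 0 ≤ Real.log R := by linarith
  have hg1 : (Real.exp (-(vN * (Real.log R - Real.log b) * t ^ 2 / 2))) ≤ 1 := by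
    apply Real.exp_le_one_iff.2
    have : 0 ≤ vN * (Real.log R - Real.log b) * t ^ 2 / 2 := by
      have : 0 ≤ Real.log R - Real.log b := by linarith
      positivity
    linarith
  rcases le_or_gt |t| (1 / 2) with ht | ht
  · set φ2 := ∫ ω, e1 (t * (W v 0 R ω - cN * Real.log R)) ∂mu2 with hφ2
    set φ1 := ∫ ω, e1 (t * (W v 0 (2 * b) ω - cN * Real.log ((2 * b : ℕ) : ℝ))) ∂mu2 with hφ1
    set φZ := ∫ ω, e1 (t * (W v (4 * b) R ω - cN * (Real.log R - Real.log (2 * b)))) ∂mu2 with hφZ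
    have d2 := h2 v R (by omega) t ht
    have d1 := h2 v (2 * b) (by omega) t ht
    have hcast : ((2 * b : ℕ) : ℝ) = 2 * b := by push_cast; rfl
    rw [← hφ2] at d2
    rw [← hφ1, hcast] at d1
    have hcub : ∀ x : ℝ, 0 ≤ x → x ≤ Real.log R → |t| + x * |t| ^ 3 ≤ (1 + K') * |t| := by
      intro x hx0 hx
      have e : x * |t| ^ 3 = (t ^ 2 * x) * |t| := by
        rw [← sq_abs t]
        ring
      have h3 : t ^ 2 * x ≤ K' := by
        refine le_trans ?_ (htK.trans (le_max_left _ _))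
        exact mul_le_mul_of_nonneg_left hx (sq_nonneg t)
      rw [e]
      nlinarith
    have d2' : ‖φ2 - (Real.exp (-(vN * Real.log R * t ^ 2 / 2)) : ℝ)‖ ≤ C2 * ((1 + K') * |t|) :=
      d2.trans (mul_le_mul_of_nonneg_left (hcub _ hlR0 le_rfl) hC2.le)
    have d1' : ‖φ1 - (Real.exp (-(vN * Real.log (2 * b) * t ^ 2 / 2)) : ℝ)‖ ≤
        C2 * ((1 + K') * |t|) :=
      d1.trans (mul_le_mul_of_nonneg_left (hcub _ (by linarith) hlR) hC2.le)
    -- decomposition
    have hmulW : ∫ ω, e1 (t * (W v 0 (2 * b) ω - cN * Real.log ((2 * b : ℕ) : ℝ)) +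
        t * (W v (4 * b) R ω - cN * (Real.log R - Real.log (2 * b)))) ∂mu2 = φ1 * φZ := by
      simp only [e1_add]
      have hd : Disjoint (an v 0 (2 * b)) (an v (4 * b) R) := by
        apply Finset.disjoint_of_subset_left (an_bx v 0 (2 * b))
        apply Finset.disjoint_of_subset_left (bx_mono v (show ((2 * b : ℕ) : ℤ) ≤
          ((4 * b : ℕ) : ℤ) - 1 by push_cast; omega))
        exact Finset.disjoint_sdiff
      exact int_mul hd (fun F => e1 (t * ((NA F v 0 (2 * b) : ℕ) - cN * Real.log ((2 * b : ℕ) : ℝ))))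
        (fun F => e1 (t * ((NA F v (4 * b) R : ℕ) - cN * (Real.log R - Real.log (2 * b)))))
    have hi2 : Integrable (fun ω => t * ((W v 0 R ω : ℝ) - cN * Real.log R)) mu2 :=
      ((W_int v 0 R).sub (integrable_const _)).const_mul t
    have hi1 : Integrable (fun ω => t * ((W v 0 (2 * b) ω : ℝ) - cN * Real.log ((2 * b : ℕ) : ℝ)) +
        t * ((W v (4 * b) R ω : ℝ) - cN * (Real.log R - Real.log (2 * b)))) mu2 :=
      (((W_int v 0 (2 * b)).sub (integrable_const _)).const_mul t).add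
        (((W_int v (4 * b) R).sub (integrable_const _)).const_mul t)
    have hsup : ∀ ω, (W v 0 (2 * b) ω : ℝ) + W v (4 * b) R ω ≤ W v 0 R ω := by
      intro ω
      exact_mod_cast W_super (v := v) (Nat.zero_le _) (by omega : 2 * b < 4 * b)
        (by omega : 4 * b ≤ R) ω
    have d3 : ‖φ2 - φ1 * φZ‖ ≤ C1 * |t| := by
      rw [← hmulW]
      refine (int_diff1 hi2 hi1).trans ?_
      have e : ∀ ω, |t * ((W v 0 R ω : ℝ) - cN * Real.log R) -
          (t * ((W v 0 (2 * b) ω : ℝ) - cN * Real.log ((2 * b : ℕ) : ℝ)) +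
            t * ((W v (4 * b) R ω : ℝ) - cN * (Real.log R - Real.log (2 * b))))| =
          |t| * ((W v 0 R ω : ℝ) - W v 0 (2 * b) ω - W v (4 * b) R ω) := by
        intro ω
        rw [hcast]
        have : t * ((W v 0 R ω : ℝ) - cN * Real.log R) -
          (t * ((W v 0 (2 * b) ω : ℝ) - cN * Real.log (2 * b)) +
            t * ((W v (4 * b) R ω : ℝ) - cN * (Real.log R - Real.log (2 * b)))) =
            t * ((W v 0 R ω : ℝ) - W v 0 (2 * b) ω - W v (4 * b) R ω) := by ring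
        rw [this, abs_mul, abs_of_nonneg (a := (W v 0 R ω : ℝ) - W v 0 (2 * b) ω - W v (4 * b) R ω)]
        linarith [hsup ω]
      simp only [e]
      rw [integral_const_mul, integral_sub, integral_sub]
      · have h3 := h1 v b 0 R hb (Nat.zero_le _) hbR
        have h4 : |t| * (∫ ω, (W v 0 R ω : ℝ) ∂mu2 - ∫ ω, (W v 0 (2 * b) ω : ℝ) ∂mu2 -
            ∫ ω, (W v (4 * b) R ω : ℝ) ∂mu2) ≤ |t| * C1 :=
          mul_le_mul_of_nonneg_left (by linarith) ht0
        linarith
      · exact W_int v 0 R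
      · exact W_int v 0 (2 * b)
      · exact (W_int v 0 R).sub (W_int v 0 (2 * b))
      · exact W_int v (4 * b) R
    have hφZ1 : ‖φZ‖ ≤ 1 := norm_int_e1
    set g1 : ℝ := Real.exp (-(vN * Real.log (2 * b) * t ^ 2 / 2)) with hg1'
    set g' : ℝ := Real.exp (-(vN * (Real.log R - Real.log (2 * b)) * t ^ 2 / 2)) with hg'
    have hg2 : Real.exp (-(vN * Real.log R * t ^ 2 / 2)) = g1 * g' := by
      rw [hg1', hg', ← Real.exp_add]
      congr 1
      ring
    rw [hg2] at d2'
    have hg1pos : 0 < g1 := Real.exp_pos _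
    have d4 : ‖(g1 : ℂ) * (φZ - g')‖ ≤ C3 * |t| := by
      have e : (g1 : ℂ) * (φZ - g') = (φ2 - ((g1 * g' : ℝ) : ℂ)) - (φ2 - φ1 * φZ) -
          (φ1 - g1) * φZ := by
        push_cast
        ring
      rw [e]
      refine (norm_sub_le _ _).trans ?_
      rw [norm_mul]
      have h3 := norm_sub_le (φ2 - ((g1 * g' : ℝ) : ℂ)) (φ2 - φ1 * φZ)
      have h4 : ‖φ1 - (g1 : ℂ)‖ * ‖φZ‖ ≤ C2 * ((1 + K') * |t|) * 1 :=
        mul_le_mul d1' hφZ1 (norm_nonneg _) (by positivity)
      rw [hC3]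
      linarith
    rw [norm_mul, Complex.norm_real, Real.norm_eq_abs, abs_of_pos hg1pos] at d4
    have hg1lo : Real.exp (-(vN * K' / 2)) ≤ g1 := by
      rw [hg1']
      apply Real.exp_le_exp.2
      have h3 : t ^ 2 * Real.log (2 * b) ≤ K' :=
        (mul_le_mul_of_nonneg_left hlR (sq_nonneg t)).trans (htK.trans (le_max_left _ _))
      have h4 := mul_le_mul_of_nonneg_left h3 hvN.le
      linarith
    have d5 : ‖φZ - g'‖ ≤ C3 * Real.exp (vN * K' / 2) * |t| := by
      have h3 : Real.exp (-(vN * K' / 2)) * ‖φZ - g'‖ ≤ C3 * |t| :=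
        (mul_le_mul_of_nonneg_right hg1lo (norm_nonneg _)).trans d4
      have h4 := mul_le_mul_of_nonneg_left h3 (Real.exp_pos (vN * K' / 2)).le
      rw [← mul_assoc, ← Real.exp_add] at h4
      have h5 : vN * K' / 2 + -(vN * K' / 2) = 0 := by ring
      rw [h5, Real.exp_zero, one_mul] at h4
      linarith
    -- recentering
    have hiZ : ∀ a : ℝ, Integrable (fun ω => t * ((W v (4 * b) R ω : ℝ) - a)) mu2 := fun a =>
      ((W_int v (4 * b) R).sub (integrable_const _)).const_mul t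
    have d6 : ‖∫ ω, e1 (t * (W v (4 * b) R ω - cN * (Real.log R - Real.log b))) ∂mu2 - φZ‖ ≤
        cN * Real.log 2 * |t| := by
      refine (int_diff1 (hiZ _) (hiZ _)).trans ?_
      have e : ∀ ω, |t * ((W v (4 * b) R ω : ℝ) - cN * (Real.log R - Real.log b)) -
          t * ((W v (4 * b) R ω : ℝ) - cN * (Real.log R - Real.log (2 * b)))| =
          cN * Real.log 2 * |t| := by
        intro ω
        have : t * ((W v (4 * b) R ω : ℝ) - cN * (Real.log R - Real.log b)) -
          t * ((W v (4 * b) R ω : ℝ) - cN * (Real.log R - Real.log (2 * b))) =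
            -(t * (cN * Real.log 2)) := by
          rw [hl2b]
          ring
        rw [this, abs_neg, abs_mul, abs_of_pos (mul_pos hcN hl2)]
        ring
      simp only [e]
      simp
    have d7 : ‖((g' : ℝ) : ℂ) -
        (Real.exp (-(vN * (Real.log R - Real.log b) * t ^ 2 / 2)) : ℝ)‖ ≤ vN * Real.log 2 * |t| := by
      rw [← Complex.ofReal_sub, Complex.norm_real, Real.norm_eq_abs, hg']
      have p1 : 0 ≤ vN * (Real.log R - Real.log (2 * b)) * t ^ 2 / 2 := by
        have : 0 ≤ Real.log R - Real.log (2 * b) := by linarith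
        positivity
      have p2 : 0 ≤ vN * (Real.log R - Real.log b) * t ^ 2 / 2 := by
        have : 0 ≤ Real.log R - Real.log b := by linarith
        positivity
      refine (exp_lip p1 p2).trans ?_
      have : vN * (Real.log R - Real.log (2 * b)) * t ^ 2 / 2 -
          vN * (Real.log R - Real.log b) * t ^ 2 / 2 = -(vN * Real.log 2 * t ^ 2 / 2) := by
        rw [hl2b]
        ring
      rw [this, abs_neg, abs_of_nonneg (by positivity)]
      have h3 : t ^ 2 ≤ |t| := by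
        rw [← sq_abs]
        nlinarith
      have h4 : vN * Real.log 2 * t ^ 2 ≤ vN * Real.log 2 * |t| :=
        mul_le_mul_of_nonneg_left h3 (by positivity)
      have h5 : 0 ≤ vN * Real.log 2 * t ^ 2 := by positivity
      linarith
    have d8 := norm_sub_le_norm_sub_add_norm_sub
      (∫ ω, e1 (t * (W v (4 * b) R ω - cN * (Real.log R - Real.log b))) ∂mu2) φZ
      ((Real.exp (-(vN * (Real.log R - Real.log b) * t ^ 2 / 2)) : ℝ) : ℂ)
    have d9 := norm_sub_le_norm_sub_add_norm_sub φZ ((g' : ℝ) : ℂ)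
      ((Real.exp (-(vN * (Real.log R - Real.log b) * t ^ 2 / 2)) : ℝ) : ℂ)
    linarith
  · refine (norm_sub_le _ _).trans ?_
    have h3 : ‖∫ ω, e1 (t * (W v (4 * b) R ω - cN * (Real.log R - Real.log b))) ∂mu2‖ ≤ 1 :=
      norm_int_e1
    have h4 : ‖((Real.exp (-(vN * (Real.log R - Real.log b) * t ^ 2 / 2)) : ℝ) : ℂ)‖ ≤ 1 := by
      rw [Complex.norm_real, Real.norm_eq_abs, abs_of_pos (Real.exp_pos _)]
      exact hg1
    have h5 : 0 ≤ (C3 * Real.exp (vN * K' / 2) + cN * Real.log 2 + vN * Real.log 2) * |t| := by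
      positivity
    nlinarith

end Pool.Agent.H78NF
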