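import Pool.Agent.H78NF.M

/-!
# Increments of the number of layers
-/

set_option autoImplicit false

namespace Pool.Agent.H78NF
open H974 H906.Cyl Finset Filter Topology MeasureTheory ProbabilityTheory
open Pool.Agent.W819.EN (vb P2 bx an NA Geo geoNA Lnk LTail ltail layers layers_eq nmv DA)
open Pool.Agent.H863R2.NL (ET ET_le ET_le_ET ET_const ET_add ET_mul EN EN_add EN_mul EN_id cN vN
  ET_mean)
open Pool.Agent.H78CZ (ok2 bx_mono ex_tr NA_local)

/-- the centred increment of the number of layers around `v` between the radii `P` and `R` -/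
noncomputable def U (v : Vtx) (P R : ℕ) (ω : sqLattice.edgeSet → Bool) : ℝ :=
  (W v 0 R ω : ℝ) - W v 0 P ω - cN * (Real.log R - Real.log P)

/-- the centred number of layers of an annulus which is slightly smaller -/
noncomputable def Yc (w : Vtx) (P R : ℕ) (ω : sqLattice.edgeSet → Bool) : ℝ :=
  (W w (8 * P) (R / 4) ω : ℝ) - cN * (Real.log R - Real.log P)

theorem U_int (v : Vtx) (P R : ℕ) : Integrable (U v P R) mu2 :=
  ((W_int v 0 R).sub (W_int v 0 P)).sub (integrable_const _)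

theorem Yc_int (v : Vtx) (P R : ℕ) : Integrable (Yc v P R) mu2 :=
  (W_int v (8 * P) (R / 4)).sub (integrable_const _)

/-- means of annuli from below -/
theorem mean_an : ∃ C : ℝ, 0 < C ∧ ∀ (v : Vtx) (b R : ℕ), 1 ≤ b → 8 * b ≤ R →
    cN * (Real.log R - Real.log b) - C ≤ ∫ ω, (W v (4 * b) R ω : ℝ) ∂mu2 := by
  obtain ⟨C1, hC1, h1⟩ := link_W
  obtain ⟨C2, hC2, h2⟩ := mean_W
  have hcN := cN_pos
  have hl2 := log2_pos
  refine ⟨C1 + 2 * C2 + cN * Real.log 2, by positivity, ?_⟩
  intro v b R hb hbR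
  have hbRR : (1 : ℝ) ≤ b := by exact_mod_cast hb
  have a1 := (abs_le.1 (h2 v R (by omega))).1
  have a2 := (abs_le.1 (h2 v (2 * b) (by omega))).2
  have a3 := h1 v b 0 R hb (Nat.zero_le _) hbR
  have e : Real.log ((2 * b : ℕ) : ℝ) = Real.log 2 + Real.log b := by
    push_cast
    exact Real.log_mul (by norm_num) (by linarith)
  rw [e] at a2
  nlinarith

/-- **The increments.** -/
theorem charD (K : ℝ) : ∃ C : ℝ, 0 < C ∧ ∀ (v : Vtx) (P R : ℕ), 1 ≤ P → P ≤ R →
    ∀ t : ℝ, t ^ 2 * Real.log R ≤ K →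
    ‖∫ ω, e1 (t * U v P R ω) ∂mu2 -
      (Real.exp (-(vN * (Real.log R - Real.log P) * t ^ 2 / 2)) : ℝ)‖ ≤ C * |t| := by
  obtain ⟨C1, hC1, h1⟩ := link_W
  obtain ⟨C2, hC2, h2⟩ := mean_W
  obtain ⟨C3, hC3, h3⟩ := charZ K
  have hcN := cN_pos
  have hvN := vN_pos
  have hl2 := log2_pos
  have hl8 : 0 < Real.log 8 := Real.log_pos (by norm_num)
  refine ⟨C3 + (C1 + 2 * C2 + cN * Real.log 2) + (2 * C2 + 2 * (cN * Real.log 8)) +
    vN * Real.log 8 + 2, by positivity, ?_⟩
  intro v P R hP hPR t htK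
  have ht0 : 0 ≤ |t| := abs_nonneg t
  have hPRR : (1 : ℝ) ≤ P := by exact_mod_cast hP
  have hRRR : (P : ℝ) ≤ R := by exact_mod_cast hPR
  have hlog : Real.log P ≤ Real.log R := Real.log_le_log (by linarith) hRRR
  have hUi := (U_int v P R).const_mul t
  have a1 := abs_le.1 (h2 v R (by omega))
  have a2 := abs_le.1 (h2 v P hP)
  rcases le_or_gt (8 * P) R with h8 | h8
  · have hZi : Integrable (fun ω => t * ((W v (4 * P) R ω : ℝ) - cN * (Real.log R - Real.log P))) mu2 :=
      ((W_int v (4 * P) R).sub (integrable_const _)).const_mul t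
    have hsup : ∀ ω, (W v 0 P ω : ℝ) + W v (4 * P) R ω ≤ W v 0 R ω := by
      intro ω
      exact_mod_cast W_super (v := v) (Nat.zero_le _) (by omega : P < 4 * P)
        (by omega : 4 * P ≤ R) ω
    have d1 : ‖∫ ω, e1 (t * U v P R ω) ∂mu2 -
        ∫ ω, e1 (t * (W v (4 * P) R ω - cN * (Real.log R - Real.log P))) ∂mu2‖ ≤
        (C1 + 2 * C2 + cN * Real.log 2) * |t| := by
      refine (int_diff1 hUi hZi).trans ?_
      have e : ∀ ω, |t * U v P R ω - t * ((W v (4 * P) R ω : ℝ) - cN * (Real.log R - Real.log P))| =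
          |t| * ((W v 0 R ω : ℝ) - W v 0 P ω - W v (4 * P) R ω) := by
        intro ω
        unfold U
        have : t * ((W v 0 R ω : ℝ) - W v 0 P ω - cN * (Real.log R - Real.log P)) -
          t * ((W v (4 * P) R ω : ℝ) - cN * (Real.log R - Real.log P)) =
            t * ((W v 0 R ω : ℝ) - W v 0 P ω - W v (4 * P) R ω) := by ring
        rw [this, abs_mul, abs_of_nonneg (a := (W v 0 R ω : ℝ) - W v 0 P ω - W v (4 * P) R ω)]
        linarith [hsup ω]
      simp only [e]
      rw [integral_const_mul, integral_sub, integral_sub]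
      · have b1 := h1 v P 0 R hP (Nat.zero_le _) h8
        have b2 := abs_le.1 (h2 v (2 * P) (by omega))
        have e2 : Real.log ((2 * P : ℕ) : ℝ) = Real.log 2 + Real.log P := by
          push_cast
          exact Real.log_mul (by norm_num) (by linarith)
        rw [e2] at b2
        have b3 := b2.2
        have b4 := a2.1
        have b5 : ∫ ω, (W v 0 R ω : ℝ) ∂mu2 - ∫ ω, (W v 0 P ω : ℝ) ∂mu2 -
            ∫ ω, (W v (4 * P) R ω : ℝ) ∂mu2 ≤ C1 + 2 * C2 + cN * Real.log 2 := by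
          nlinarith
        have := mul_le_mul_of_nonneg_left b5 ht0
        linarith
      · exact W_int v 0 R
      · exact W_int v 0 P
      · exact (W_int v 0 R).sub (W_int v 0 P)
      · exact W_int v (4 * P) R
    have d2 := h3 v P R hP h8 t htK
    have d3 := norm_sub_le_norm_sub_add_norm_sub (∫ ω, e1 (t * U v P R ω) ∂mu2)
      (∫ ω, e1 (t * (W v (4 * P) R ω - cN * (Real.log R - Real.log P))) ∂mu2)
      ((Real.exp (-(vN * (Real.log R - Real.log P) * t ^ 2 / 2)) : ℝ) : ℂ)
    have h5 : 0 ≤ (2 * C2 + 2 * (cN * Real.log 8) + vN * Real.log 8 + 2) * |t| := by positivity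
    linarith
  · have hd : Real.log R - Real.log P ≤ Real.log 8 := by
      have : Real.log R ≤ Real.log (8 * P) := by
        apply Real.log_le_log (by linarith)
        exact_mod_cast h8.le
      rw [Real.log_mul (by norm_num) (by linarith)] at this
      linarith
    have hd0 : 0 ≤ Real.log R - Real.log P := by linarith
    have hg : Real.exp (-(vN * (Real.log R - Real.log P) * t ^ 2 / 2)) ≤ 1 := by
      apply Real.exp_le_one_iff.2
      have : 0 ≤ vN * (Real.log R - Real.log P) * t ^ 2 / 2 := by positivity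
      linarith
    rcases le_or_gt |t| 1 with ht | ht
    · have d1 : ‖∫ ω, e1 (t * U v P R ω) ∂mu2 - 1‖ ≤ (2 * C2 + 2 * (cN * Real.log 8)) * |t| := by
        have e : (1 : ℂ) = ∫ ω, e1 ((fun _ => (0 : ℝ)) ω) ∂mu2 := by
          simp [e1_zero]
        rw [e]
        refine (int_diff1 hUi (integrable_const _)).trans ?_
        have hmonoW : ∀ ω, (W v 0 P ω : ℝ) ≤ W v 0 R ω := by
          intro ω
          exact_mod_cast W_mono (v := v) le_rfl hPR (Nat.zero_le _) ω
        have hle : ∀ ω, |t * U v P R ω - 0| ≤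
            |t| * (((W v 0 R ω : ℝ) - W v 0 P ω) + cN * (Real.log R - Real.log P)) := by
          intro ω
          rw [sub_zero, abs_mul]
          apply mul_le_mul_of_nonneg_left _ ht0
          unfold U
          have h6 := hmonoW ω
          have h7 : 0 ≤ cN * (Real.log R - Real.log P) := by positivity
          rw [abs_le]
          constructor <;> linarith
        have hi : Integrable (fun ω => |t| * (((W v 0 R ω : ℝ) - W v 0 P ω) +
            cN * (Real.log R - Real.log P))) mu2 :=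
          (((W_int v 0 R).sub (W_int v 0 P)).add (integrable_const _)).const_mul _
        refine (integral_mono (hUi.sub (integrable_const _)).abs hi hle).trans ?_
        rw [integral_const_mul, integral_add, integral_sub]
        · have b3 := a1.2
          have b4 := a2.1
          have b6 : cN * (Real.log R - Real.log P) ≤ cN * Real.log 8 :=
            mul_le_mul_of_nonneg_left hd hcN.le
          have b5 : ∫ ω, (W v 0 R ω : ℝ) ∂mu2 - ∫ ω, (W v 0 P ω : ℝ) ∂mu2 +
              ∫ _, cN * (Real.log R - Real.log P) ∂mu2 ≤ 2 * C2 + 2 * (cN * Real.log 8) := by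
            have : ∫ _ : sqLattice.edgeSet → Bool, cN * (Real.log R - Real.log P) ∂mu2 =
                cN * (Real.log R - Real.log P) := by simp
            rw [this]
            linarith
          have := mul_le_mul_of_nonneg_left b5 ht0
          linarith
        · exact W_int v 0 R
        · exact W_int v 0 P
        · exact (W_int v 0 R).sub (W_int v 0 P)
        · exact integrable_const _
      have d2 : ‖(1 : ℂ) - (Real.exp (-(vN * (Real.log R - Real.log P) * t ^ 2 / 2)) : ℝ)‖ ≤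
          vN * Real.log 8 * |t| := by
        have e : (1 : ℂ) = ((Real.exp (-(0 : ℝ)) : ℝ) : ℂ) := by simp
        rw [e, ← Complex.ofReal_sub, Complex.norm_real, Real.norm_eq_abs]
        have p1 : 0 ≤ vN * (Real.log R - Real.log P) * t ^ 2 / 2 := by positivity
        refine (exp_lip le_rfl p1).trans ?_
        rw [zero_sub, abs_neg, abs_of_nonneg p1]
        have h3 : t ^ 2 ≤ |t| := by
          rw [← sq_abs]
          nlinarith
        have h4 : vN * (Real.log R - Real.log P) * t ^ 2 ≤ vN * Real.log 8 * |t| :=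
          mul_le_mul (mul_le_mul_of_nonneg_left hd hvN.le) h3 (sq_nonneg _) (by positivity)
        have h5 : 0 ≤ vN * Real.log 8 * |t| := by positivity
        linarith
      have d3 := norm_sub_le_norm_sub_add_norm_sub (∫ ω, e1 (t * U v P R ω) ∂mu2) 1
        ((Real.exp (-(vN * (Real.log R - Real.log P) * t ^ 2 / 2)) : ℝ) : ℂ)
      have h5 : 0 ≤ (C3 + (C1 + 2 * C2 + cN * Real.log 2) + 2) * |t| := by positivity
      linarith
    · refine (norm_sub_le _ _).trans ?_
      have h3 : ‖∫ ω, e1 (t * U v P R ω) ∂mu2‖ ≤ 1 := norm_int_e1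
      have h4 : ‖((Real.exp (-(vN * (Real.log R - Real.log P) * t ^ 2 / 2)) : ℝ) : ℂ)‖ ≤ 1 := by
        rw [Complex.norm_real, Real.norm_eq_abs, abs_of_pos (Real.exp_pos _)]
        exact hg
      have h5 : 0 ≤ (C3 + (C1 + 2 * C2 + cN * Real.log 2) + (2 * C2 + 2 * (cN * Real.log 8)) +
        vN * Real.log 8) * |t| := by positivity
      nlinarith

/-- the first moment of the distance to one is bounded by the characteristic function -/
theorem int_one_sq {f : (sqLattice.edgeSet → Bool) → ℝ} (hf : Integrable f mu2) {B : ℝ}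
    (hB : 0 < B) (h : ‖∫ ω, e1 (f ω) ∂mu2 - 1‖ ≤ B / 2) : ∫ ω, ‖e1 (f ω) - 1‖ ∂mu2 ≤ √B := by
  have hs : 0 < √B := Real.sqrt_pos.2 hB
  have hss : √B * √B = B := Real.mul_self_sqrt hB.le
  have hi := int_e1_integrable hf
  have e1' : ∫ ω, ‖e1 (f ω) - 1‖ ^ 2 ∂mu2 = 2 * (1 - (∫ ω, e1 (f ω) ∂mu2).re) := by
    simp only [e1_sq]
    rw [integral_const_mul, integral_sub (integrable_const _)]
    · congr 2
      · simp
      · exact integral_re hi
    · exact hi.re
  have e2 : 1 - (∫ ω, e1 (f ω) ∂mu2).re ≤ B / 2 := by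
    have h1 := Complex.abs_re_le_norm (∫ ω, e1 (f ω) ∂mu2 - 1)
    rw [Complex.sub_re, Complex.one_re] at h1
    have := (abs_le.1 (h1.trans h)).1
    linarith
  have e3 : ∀ ω, ‖e1 (f ω) - 1‖ ≤ (√B + ‖e1 (f ω) - 1‖ ^ 2 * (√B)⁻¹) / 2 := by
    intro ω
    set x := ‖e1 (f ω) - 1‖ with hx
    have h1 : 0 ≤ (x - √B) ^ 2 * (√B)⁻¹ := by positivity
    have h2 : (x - √B) ^ 2 * (√B)⁻¹ = x ^ 2 * (√B)⁻¹ - 2 * x + √B := by
      have h3 : √B * (√B)⁻¹ = 1 := mul_inv_cancel₀ hs.ne'
      have h4 : (x - √B) ^ 2 * (√B)⁻¹ = x ^ 2 * (√B)⁻¹ - 2 * x * (√B * (√B)⁻¹) +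
          √B * (√B * (√B)⁻¹) := by ring
      rw [h4, h3]
      ring
    linarith
  have hi2 : Integrable (fun ω => (√B + ‖e1 (f ω) - 1‖ ^ 2 * (√B)⁻¹) / 2) mu2 := by
    apply Integrable.div_const
    apply (integrable_const _).add
    apply Integrable.mul_const
    apply Integrable.of_bound (C := 4) ((int_norm_integrable hf).1.pow 2)
    filter_upwards with ω
    rw [Pi.pow_apply, norm_pow, norm_norm]
    have h1 := e1_two (f ω)
    have h2 := norm_nonneg (e1 (f ω) - 1)
    nlinarith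
  refine (integral_mono (int_norm_integrable hf) hi2 e3).trans ?_
  rw [integral_div, integral_add, integral_mul_const, e1']
  · have h1 : ∫ _ : sqLattice.edgeSet → Bool, √B ∂mu2 = √B := by simp
    rw [h1]
    have h2 : 2 * (1 - (∫ ω, e1 (f ω) ∂mu2).re) * (√B)⁻¹ ≤ B * (√B)⁻¹ :=
      mul_le_mul_of_nonneg_right (by linarith) (by positivity)
    have h3 : B * (√B)⁻¹ = √B := by
      rw [← div_eq_mul_inv, div_eq_iff hs.ne', hss]
    linarith
  · exact integrable_const _
  · apply Integrable.mul_const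
    apply Integrable.of_bound (C := 4) ((int_norm_integrable hf).1.pow 2)
    filter_upwards with ω
    rw [Pi.pow_apply, norm_pow, norm_norm]
    have h1 := e1_two (f ω)
    have h2 := norm_nonneg (e1 (f ω) - 1)
    nlinarith

/-- **Short windows are negligible.** -/
theorem smallD (K : ℝ) : ∃ C : ℝ, 0 < C ∧ ∀ (v : Vtx) (P R : ℕ), 1 ≤ P → P ≤ R →
    ∀ t : ℝ, t ≠ 0 → t ^ 2 * Real.log R ≤ K →
    ∫ ω, ‖e1 (t * U v P R ω) - 1‖ ∂mu2 ≤
      √(vN * (Real.log R - Real.log P) * t ^ 2 + C * |t|) := by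
  obtain ⟨C, hC, h⟩ := charD K
  have hvN := vN_pos
  refine ⟨2 * C, by positivity, ?_⟩
  intro v P R hP hPR t ht htK
  have ht0 : 0 < |t| := abs_pos.2 ht
  have hPRR : (1 : ℝ) ≤ P := by exact_mod_cast hP
  have hRRR : (P : ℝ) ≤ R := by exact_mod_cast hPR
  have hlog : Real.log P ≤ Real.log R := Real.log_le_log (by linarith) hRRR
  have hd0 : 0 ≤ Real.log R - Real.log P := by linarith
  have p1 : 0 ≤ vN * (Real.log R - Real.log P) * t ^ 2 / 2 := by positivity
  apply int_one_sq ((U_int v P R).const_mul t) (by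
    have : 0 < C * |t| := by positivity
    linarith)
  have d1 := h v P R hP hPR t htK
  have d2 : ‖((Real.exp (-(vN * (Real.log R - Real.log P) * t ^ 2 / 2)) : ℝ) : ℂ) - 1‖ ≤
      vN * (Real.log R - Real.log P) * t ^ 2 / 2 := by
    have e : (1 : ℂ) = ((Real.exp (-(0 : ℝ)) : ℝ) : ℂ) := by simp
    rw [e, ← Complex.ofReal_sub, Complex.norm_real, Real.norm_eq_abs]
    refine (exp_lip p1 le_rfl).trans ?_
    rw [sub_zero, abs_of_nonneg p1]
  have d3 := norm_sub_le_norm_sub_add_norm_sub (∫ ω, e1 (t * U v P R ω) ∂mu2)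
    ((Real.exp (-(vN * (Real.log R - Real.log P) * t ^ 2 / 2)) : ℝ) : ℂ) 1
  linarith

/-- **The same window around different vertices.** -/
theorem close_W : ∃ C : ℝ, 0 < C ∧ ∀ (v w : Vtx) (P R : ℕ), 1 ≤ P → 64 * P ≤ R →
    |v.1 - w.1| ≤ (P : ℤ) → |v.2 - w.2| ≤ (P : ℤ) →
    ∫ ω, |U v P R ω - Yc w P R ω| ∂mu2 ≤ C := by
  obtain ⟨C2, hC2, h2⟩ := mean_W
  obtain ⟨C3, hC3, h3⟩ := mean_an
  have hcN := cN_pos
  have hl16 : 0 < Real.log 16 := Real.log_pos (by norm_num)
  refine ⟨2 * C2 + C3 + cN * Real.log 16, by positivity, ?_⟩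
  intro v w P R hP hPR hv1 hv2
  have hP1 : (1 : ℝ) ≤ P := by exact_mod_cast hP
  have hQ : R ≤ 8 * (R / 4) := by omega
  have hQ2 : 16 * P ≤ R / 4 := by omega
  have hsup : ∀ ω, (W v 0 P ω : ℝ) + W w (8 * P) (R / 4) ω ≤ W v 0 R ω := by
    intro ω
    have b1 : W v 0 P ω + W v (4 * P) R ω ≤ W v 0 R ω :=
      W_super (v := v) (Nat.zero_le _) (by omega : P < 4 * P) (by omega : 4 * P ≤ R) ω
    have b2 : W w (8 * P) (R / 4) ω ≤ W v (4 * P) R ω :=
      W_cmp (d := P) hv1 hv2 (by omega) (by omega) (by omega) ω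
    exact_mod_cast (by omega : W v 0 P ω + W w (8 * P) (R / 4) ω ≤ W v 0 R ω)
  have e : ∀ ω, |U v P R ω - Yc w P R ω| =
      (W v 0 R ω : ℝ) - W v 0 P ω - W w (8 * P) (R / 4) ω := by
    intro ω
    unfold U Yc
    rw [show (W v 0 R ω : ℝ) - W v 0 P ω - cN * (Real.log R - Real.log P) -
      ((W w (8 * P) (R / 4) ω : ℝ) - cN * (Real.log R - Real.log P)) =
      (W v 0 R ω : ℝ) - W v 0 P ω - W w (8 * P) (R / 4) ω by ring, abs_of_nonneg]
    linarith [hsup ω]
  simp only [e]
  rw [integral_sub, integral_sub]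
  · have a1 := (abs_le.1 (h2 v R (by omega))).2
    have a2 := (abs_le.1 (h2 v P hP)).1
    have a3 := h3 w (2 * P) (R / 4) (by omega) (by omega)
    rw [show 4 * (2 * P) = 8 * P by ring] at a3
    have hRpos : (0 : ℝ) < R := by
      have : 0 < R := by omega
      exact_mod_cast this
    have l1 : Real.log R ≤ Real.log 8 + Real.log ((R / 4 : ℕ) : ℝ) := by
      have hq : (0 : ℝ) < ((R / 4 : ℕ) : ℝ) := by
        have : 0 < R / 4 := by omega
        exact_mod_cast this
      rw [← Real.log_mul (by norm_num) hq.ne']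
      apply Real.log_le_log hRpos
      exact_mod_cast hQ
    have l2 : Real.log ((2 * P : ℕ) : ℝ) = Real.log 2 + Real.log P := by
      push_cast
      exact Real.log_mul (by norm_num) (by linarith)
    have l3 : Real.log 16 = Real.log 8 + Real.log 2 := by
      rw [← Real.log_mul (by norm_num) (by norm_num)]
      norm_num
    rw [l2] at a3
    nlinarith
  · exact W_int v 0 R
  · exact W_int v 0 P
  · exact (W_int v 0 R).sub (W_int v 0 P)
  · exact W_int w (8 * P) (R / 4)

/-- the characteristic function of the window -/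
theorem charY (K : ℝ) : ∃ C : ℝ, 0 < C ∧ ∀ (w : Vtx) (P R : ℕ), 1 ≤ P → 64 * P ≤ R →
    ∀ t : ℝ, t ^ 2 * Real.log R ≤ K →
    ‖∫ ω, e1 (t * Yc w P R ω) ∂mu2 -
      (Real.exp (-(vN * (Real.log R - Real.log P) * t ^ 2 / 2)) : ℝ)‖ ≤ C * |t| := by
  obtain ⟨C1, hC1, h1⟩ := charD K
  obtain ⟨C2, hC2, h2⟩ := close_W
  refine ⟨C1 + C2, by positivity, ?_⟩
  intro w P R hP hPR t htK
  have d1 := h1 w P R hP (by omega) t htK
  have d2 : ‖∫ ω, e1 (t * Yc w P R ω) ∂mu2 - ∫ ω, e1 (t * U w P R ω) ∂mu2‖ ≤ C2 * |t| := by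
    refine (int_diff1 ((Yc_int w P R).const_mul t) ((U_int w P R).const_mul t)).trans ?_
    have e : ∀ ω, |t * Yc w P R ω - t * U w P R ω| = |t| * |U w P R ω - Yc w P R ω| := by
      intro ω
      rw [← mul_sub, abs_mul, abs_sub_comm]
    simp only [e]
    rw [integral_const_mul, mul_comm]
    apply mul_le_mul_of_nonneg_right _ (abs_nonneg t)
    apply h2 w w P R hP hPR
    · simp
    · simp
  have d3 := norm_sub_le_norm_sub_add_norm_sub (∫ ω, e1 (t * Yc w P R ω) ∂mu2)
    (∫ ω, e1 (t * U w P R ω) ∂mu2)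
    ((Real.exp (-(vN * (Real.log R - Real.log P) * t ^ 2 / 2)) : ℝ) : ℂ)
  linarith

end Pool.Agent.H78NF
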