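import Pool.Agent.H78NF.N

/-!
# Several vertices: decomposition into independent windows
-/

set_option autoImplicit false

namespace Pool.Agent.H78NF
open H974 H906.Cyl Finset Filter Topology MeasureTheory ProbabilityTheory
open Pool.Agent.W819.EN (vb P2 bx an NA Geo geoNA Lnk LTail ltail layers layers_eq nmv DA)
open Pool.Agent.H863R2.NL (ET ET_le ET_le_ET ET_const ET_add ET_mul EN EN_add EN_mul EN_id cN vN
  ET_mean)
open Pool.Agent.H78CZ (ok2 bx_mono ex_tr NA_local bx_disj)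

/-- the sup distance -/
def dd (v w : ℤ × ℤ) : ℤ := max |v.1 - w.1| |v.2 - w.2|

theorem dd_comm (v w : ℤ × ℤ) : dd v w = dd w v := by
  unfold dd
  rw [abs_sub_comm v.1, abs_sub_comm v.2]

theorem dd_nonneg (v w : ℤ × ℤ) : 0 ≤ dd v w := (abs_nonneg _).trans (le_max_left _ _)

theorem dd_self (v : ℤ × ℤ) : dd v v = 0 := by unfold dd; simp

theorem dd_tri (u v w : ℤ × ℤ) : dd u w ≤ dd u v + dd v w := by
  unfold dd
  apply max_le
  · have h1 := abs_sub_le u.1 v.1 w.1
    have h2 := le_max_left |u.1 - v.1| |u.2 - v.2|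
    have h3 := le_max_left |v.1 - w.1| |v.2 - w.2|
    linarith
  · have h1 := abs_sub_le u.2 v.2 w.2
    have h2 := le_max_right |u.1 - v.1| |u.2 - v.2|
    have h3 := le_max_right |v.1 - w.1| |v.2 - w.2|
    linarith

theorem bx_shift {v w : Vtx} {k d l : ℤ} (h : dd v w ≤ d) (hl : k + d ≤ l) : bx v k ⊆ bx w l := by
  have h1 := (le_max_left |v.1 - w.1| |v.2 - w.2|).trans h
  have h2 := (le_max_right |v.1 - w.1| |v.2 - w.2|).trans h
  rw [abs_le] at h1 h2
  apply RE_subset <;> linarith [h1.1, h1.2, h2.1, h2.2]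

theorem bx_far {v w : Vtx} {k : ℤ} (h : 2 * k < dd v w) : Disjoint (bx v k) (bx w k) := by
  apply bx_disj
  unfold dd at h
  rwa [lt_max_iff] at h

theorem e1_sum {κ : Type*} (I : Finset κ) (x : κ → ℝ) : e1 (∑ k ∈ I, x k) = ∏ k ∈ I, e1 (x k) := by
  classical
  induction I using Finset.induction_on with
  | empty => simp [e1_zero]
  | insert a I ha ih => rw [Finset.sum_insert ha, Finset.prod_insert ha, e1_add, ih]

theorem e1_sum_sub {κ : Type*} (I : Finset κ) (x : κ → ℝ) :
    ‖e1 (∑ k ∈ I, x k) - 1‖ ≤ ∑ k ∈ I, ‖e1 (x k) - 1‖ := by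
  classical
  induction I using Finset.induction_on with
  | empty => simp [e1_zero]
  | insert a I ha ih =>
    rw [Finset.sum_insert ha, Finset.sum_insert ha]
    exact (e1_add_sub _ _).trans (add_le_add le_rfl ih)

section fixed

variable {ι : Type*} [Fintype ι] [DecidableEq ι]

/-- the telescoping sum of the increments -/
theorem tele (v : Vtx) (P : ℕ → ℕ) (hP0 : P 0 = 1) (K R : ℕ) (ω : sqLattice.edgeSet → Bool) :
    (W v 0 R ω : ℝ) - cN * Real.log R =
      (W v 0 1 ω : ℝ) + ∑ r ∈ Finset.range K, U v (P r) (P (r + 1)) ω + U v (P K) R ω := by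
  have h : ∑ r ∈ Finset.range K, U v (P r) (P (r + 1)) ω =
      ((W v 0 (P K) ω : ℝ) - cN * Real.log (P K)) - ((W v 0 (P 0) ω : ℝ) - cN * Real.log (P 0)) := by
    rw [← Finset.sum_range_sub (fun r => (W v 0 (P r) ω : ℝ) - cN * Real.log (P r)) K]
    apply Finset.sum_congr rfl
    intro r _
    unfold U
    ring
  rw [h, hP0]
  unfold U
  simp only [Nat.cast_one, Real.log_one, mul_zero, sub_zero]
  ring

omit [DecidableEq ι] in
/-- **Decomposition.** -/
theorem decomp (v : ι → Vtx) (R : ι → ℕ) (P : ℕ → ℕ) (hP0 : P 0 = 1) (K : ι → ℕ) (G : Finset ℕ)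
    (ρ : ℕ → ι → ι) (t : ι → ℝ) :
    ‖∫ ω, e1 (∑ i, t i * ((W (v i) 0 (R i) ω : ℝ) - cN * Real.log (R i))) ∂mu2 -
      ∫ ω, e1 (∑ i, t i * ∑ r ∈ Finset.range (K i) ∩ G,
        Yc (v (ρ r i)) (P r) (P (r + 1)) ω) ∂mu2‖ ≤
    ∑ i, (|t i| * 2 +
      ∑ r ∈ Finset.range (K i) \ G, ∫ ω, ‖e1 (t i * U (v i) (P r) (P (r + 1)) ω) - 1‖ ∂mu2 +
      ∫ ω, ‖e1 (t i * U (v i) (P (K i)) (R i) ω) - 1‖ ∂mu2 +
      ∑ r ∈ Finset.range (K i) ∩ G, |t i| *
        ∫ ω, |U (v i) (P r) (P (r + 1)) ω - Yc (v (ρ r i)) (P r) (P (r + 1)) ω| ∂mu2) := by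
  have hi1 : Integrable (fun ω => ∑ i, t i * ((W (v i) 0 (R i) ω : ℝ) - cN * Real.log (R i))) mu2 :=
    integrable_finsetSum _ fun i _ => ((W_int (v i) 0 (R i)).sub (integrable_const _)).const_mul _
  have hi2 : Integrable (fun ω => ∑ i, t i * ∑ r ∈ Finset.range (K i) ∩ G,
        Yc (v (ρ r i)) (P r) (P (r + 1)) ω) mu2 :=
    integrable_finsetSum _ fun i _ => (integrable_finsetSum _ fun r _ => Yc_int _ _ _).const_mul _
  refine (int_diff hi1 hi2).trans ?_
  have hU : ∀ i P R, Integrable (fun ω => ‖e1 (t i * U (v i) P R ω) - 1‖) mu2 := fun i P R =>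
    int_norm_integrable ((U_int (v i) P R).const_mul _)
  have hUY : ∀ i r, Integrable (fun ω => |U (v i) (P r) (P (r + 1)) ω -
      Yc (v (ρ r i)) (P r) (P (r + 1)) ω|) mu2 := fun i r =>
    ((U_int (v i) _ _).sub (Yc_int _ _ _)).abs
  have hi3 : Integrable (fun ω => ∑ i, (|t i| * 2 +
      ∑ r ∈ Finset.range (K i) \ G, ‖e1 (t i * U (v i) (P r) (P (r + 1)) ω) - 1‖ +
      ‖e1 (t i * U (v i) (P (K i)) (R i) ω) - 1‖ +
      ∑ r ∈ Finset.range (K i) ∩ G, |t i| *
        |U (v i) (P r) (P (r + 1)) ω - Yc (v (ρ r i)) (P r) (P (r + 1)) ω|)) mu2 :=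
    integrable_finsetSum _ fun i _ => (((integrable_const _).add
      (integrable_finsetSum _ fun r _ => hU i _ _)).add (hU i _ _)).add
      (integrable_finsetSum _ fun r _ => (hUY i r).const_mul _)
  refine (integral_mono ((int_e1_integrable hi1).sub (int_e1_integrable hi2)).norm hi3 ?_).trans ?_
  · intro ω
    show ‖e1 _ - e1 _‖ ≤ _
    rw [e1_sub, ← Finset.sum_sub_distrib]
    refine (e1_sum_sub _ _).trans ?_
    apply Finset.sum_le_sum
    intro i _
    have e : t i * ((W (v i) 0 (R i) ω : ℝ) - cN * Real.log (R i)) -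
        t i * ∑ r ∈ Finset.range (K i) ∩ G, Yc (v (ρ r i)) (P r) (P (r + 1)) ω =
        ((t i * (W (v i) 0 1 ω : ℝ) +
          ∑ r ∈ Finset.range (K i) \ G, t i * U (v i) (P r) (P (r + 1)) ω) +
          t i * U (v i) (P (K i)) (R i) ω) +
        ∑ r ∈ Finset.range (K i) ∩ G, t i * (U (v i) (P r) (P (r + 1)) ω -
          Yc (v (ρ r i)) (P r) (P (r + 1)) ω) := by
      rw [tele (v i) P hP0 (K i) (R i) ω]
      have h1 : ∑ r ∈ Finset.range (K i), U (v i) (P r) (P (r + 1)) ω =
          ∑ r ∈ Finset.range (K i) \ G, U (v i) (P r) (P (r + 1)) ω +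
          ∑ r ∈ Finset.range (K i) ∩ G, U (v i) (P r) (P (r + 1)) ω := by
        rw [add_comm, Finset.sum_inter_add_sum_sdiff]
      rw [h1, ← Finset.mul_sum, ← Finset.mul_sum, Finset.sum_sub_distrib]
      ring
    rw [e]
    refine (e1_add_sub _ _).trans (add_le_add ((e1_add_sub _ _).trans (add_le_add
      ((e1_add_sub _ _).trans (add_le_add ?_ (e1_sum_sub _ _))) le_rfl)) ?_)
    · refine (e1_sub_one _).trans ?_
      rw [abs_mul]
      apply mul_le_mul_of_nonneg_left _ (abs_nonneg _)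
      rw [abs_of_nonneg (Nat.cast_nonneg _)]
      have := W_le (v i) 0 1 ω
      exact_mod_cast this
    · refine (e1_sum_sub _ _).trans ?_
      apply Finset.sum_le_sum
      intro r _
      refine (e1_sub_one _).trans ?_
      rw [abs_mul]
  · rw [integral_finsetSum]
    · apply le_of_eq
      apply Finset.sum_congr rfl
      intro i _
      rw [integral_add, integral_add, integral_add, integral_finsetSum, integral_finsetSum]
      · simp only [integral_const_mul]
        simp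
      · intro r _
        exact (hUY i r).const_mul _
      · intro r _
        exact hU i _ _
      · exact integrable_const _
      · exact integrable_finsetSum _ fun r _ => hU i _ _
      · exact (integrable_const _).add (integrable_finsetSum _ fun r _ => hU i _ _)
      · exact hU i _ _
      · exact ((integrable_const _).add (integrable_finsetSum _ fun r _ => hU i _ _)).add (hU i _ _)
      · exact integrable_finsetSum _ fun r _ => (hUY i r).const_mul _
    · intro i _
      exact (((integrable_const _).add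
        (integrable_finsetSum _ fun r _ => hU i _ _)).add (hU i _ _)).add
        (integrable_finsetSum _ fun r _ => (hUY i r).const_mul _)

/-- the coefficient of a window -/
noncomputable def Th (K : ι → ℕ) (ρ : ℕ → ι → ι) (t : ι → ℝ) (r : ℕ) (j : ι) : ℝ :=
  ∑ i, if ρ r i = j ∧ r < K i then t i else 0

/-- **The product formula.** -/
theorem prodY (v : ι → Vtx) (P : ℕ → ℕ) (hP : Monotone P) (K : ι → ℕ) (G : Finset ℕ)
    (hG : ∀ r ∈ G, 1 ≤ P r ∧ 64 * P r ≤ P (r + 1)) (ρ : ℕ → ι → ι) (t : ι → ℝ)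
    (hdich : ∀ r ∈ G, ∀ i j, dd (v i) (v j) ≤ P r ∨ ((P (r + 1) : ℕ) : ℤ) < dd (v i) (v j))
    (hrep : ∀ r ∈ G, ∀ i j, ρ r i ≠ ρ r j → ((P (r + 1) : ℕ) : ℤ) < dd (v (ρ r i)) (v (ρ r j))) :
    ∫ ω, e1 (∑ i, t i * ∑ r ∈ Finset.range (K i) ∩ G,
        Yc (v (ρ r i)) (P r) (P (r + 1)) ω) ∂mu2 =
      ∏ r ∈ G, ∏ j ∈ Finset.univ.image (ρ r),
        ∫ ω, e1 (Th K ρ t r j * Yc (v j) (P r) (P (r + 1)) ω) ∂mu2 := by
  classical
  have e1' : ∀ ω, ∑ i, t i * ∑ r ∈ Finset.range (K i) ∩ G,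
        Yc (v (ρ r i)) (P r) (P (r + 1)) ω =
      ∑ r ∈ G, ∑ j ∈ Finset.univ.image (ρ r), Th K ρ t r j * Yc (v j) (P r) (P (r + 1)) ω := by
    intro ω
    have h1 : ∀ i, t i * ∑ r ∈ Finset.range (K i) ∩ G, Yc (v (ρ r i)) (P r) (P (r + 1)) ω =
        ∑ r ∈ G, (if r < K i then t i else 0) * Yc (v (ρ r i)) (P r) (P (r + 1)) ω := by
      intro i
      have h2 : Finset.range (K i) ∩ G = G.filter (fun r => r < K i) := by
        ext r
        simp only [Finset.mem_inter, Finset.mem_range, Finset.mem_filter]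
        tauto
      rw [h2, Finset.mul_sum, Finset.sum_filter]
      apply Finset.sum_congr rfl
      intro r _
      split_ifs <;> simp
    simp only [h1]
    rw [Finset.sum_comm]
    apply Finset.sum_congr rfl
    intro r _
    rw [← Finset.sum_fiberwise_of_maps_to (s := Finset.univ) (t := Finset.univ.image (ρ r))
      (g := ρ r) (fun i _ => Finset.mem_image_of_mem _ (Finset.mem_univ i))]
    apply Finset.sum_congr rfl
    intro j _
    unfold Th
    rw [Finset.sum_mul, Finset.sum_filter]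
    apply Finset.sum_congr rfl
    intro i _
    by_cases h2 : ρ r i = j
    · subst h2
      simp
    · simp [h2]
  simp only [e1']
  have e2 : ∀ ω, e1 (∑ r ∈ G, ∑ j ∈ Finset.univ.image (ρ r),
      Th K ρ t r j * Yc (v j) (P r) (P (r + 1)) ω) =
      ∏ p ∈ G.sigma (fun r => Finset.univ.image (ρ r)),
        (fun F : Finset Edg => e1 (Th K ρ t p.1 p.2 * ((NA F (v p.2) (8 * P p.1) (P (p.1 + 1) / 4) : ℝ) -
          cN * (Real.log (P (p.1 + 1)) - Real.log (P p.1)))))
        (FF (an (v p.2) (8 * P p.1) (P (p.1 + 1) / 4)) ω) := by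
    intro ω
    rw [Finset.sum_sigma', e1_sum]
    rfl
  simp only [e2]
  rw [int_prod (G.sigma (fun r => Finset.univ.image (ρ r)))
    (fun p => an (v p.2) (8 * P p.1) (P (p.1 + 1) / 4)) ?_
    (fun p F => e1 (Th K ρ t p.1 p.2 * ((NA F (v p.2) (8 * P p.1) (P (p.1 + 1) / 4) : ℝ) -
          cN * (Real.log (P (p.1 + 1)) - Real.log (P p.1)))))]
  · rw [Finset.prod_sigma]
    rfl
  · -- disjointness
    have key : ∀ r ∈ G, ∀ r' ∈ G, ∀ i j, r < r' →
        Disjoint (an (v i) (8 * P r) (P (r + 1) / 4)) (an (v j) (8 * P r') (P (r' + 1) / 4)) := by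
      intro r hr r' hr' i j hlt
      have hm : P (r + 1) ≤ P r' := hP hlt
      have h1 := (hG r hr).1
      have h2 := hG r' hr'
      rcases hdich r' hr' i j with hn | hf
      · apply Finset.disjoint_of_subset_left (an_bx (v i) (8 * P r) (P (r + 1) / 4))
        apply Finset.disjoint_of_subset_left (bx_shift (l := ((8 * P r' : ℕ) : ℤ) - 1) hn (by
          have : P (r + 1) / 4 + P r' + 1 ≤ 8 * P r' := by omega
          have h3 : ((P (r + 1) / 4 : ℕ) : ℤ) + P r' + 1 ≤ ((8 * P r' : ℕ) : ℤ) := by exact_mod_cast this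
          linarith))
        exact Finset.disjoint_sdiff
      · apply Finset.disjoint_of_subset_left ((an_bx (v i) (8 * P r) (P (r + 1) / 4)).trans
          (bx_mono (v i) (show ((P (r + 1) / 4 : ℕ) : ℤ) ≤ ((P (r' + 1) / 4 : ℕ) : ℤ) by
            exact_mod_cast (by omega : P (r + 1) / 4 ≤ P (r' + 1) / 4))))
        apply Finset.disjoint_of_subset_right (an_bx (v j) (8 * P r') (P (r' + 1) / 4))
        apply bx_far
        have : 2 * (P (r' + 1) / 4) ≤ P (r' + 1) := by omega
        have h3 : 2 * ((P (r' + 1) / 4 : ℕ) : ℤ) ≤ ((P (r' + 1) : ℕ) : ℤ) := by exact_mod_cast this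
        linarith
    rintro ⟨r, i⟩ hp ⟨r', j⟩ hq hne
    rw [Finset.mem_sigma] at hp hq
    obtain ⟨hr, hi⟩ := hp
    obtain ⟨hr', hj⟩ := hq
    simp only at hr hi hr' hj ⊢
    rcases lt_trichotomy r r' with hlt | heq | hgt
    · exact key r hr r' hr' i j hlt
    · subst heq
      obtain ⟨i0, -, rfl⟩ := Finset.mem_image.1 hi
      obtain ⟨j0, -, rfl⟩ := Finset.mem_image.1 hj
      have hij : ρ r i0 ≠ ρ r j0 := by
        intro h
        apply hne
        rw [h]
      have hf := hrep r hr i0 j0 hij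
      apply Finset.disjoint_of_subset_left (an_bx _ _ _)
      apply Finset.disjoint_of_subset_right (an_bx _ _ _)
      apply bx_far
      have : 2 * (P (r + 1) / 4) ≤ P (r + 1) := by omega
      have h3 : 2 * ((P (r + 1) / 4 : ℕ) : ℤ) ≤ ((P (r + 1) : ℕ) : ℤ) := by exact_mod_cast this
      linarith
    · exact (key r' hr' r hr j i hgt).symm

/-- the sum of the squares of the coefficients -/
theorem Th_sq (K : ι → ℕ) (ρ : ℕ → ι → ι) (t : ι → ℝ) (r : ℕ) :
    ∑ j ∈ Finset.univ.image (ρ r), Th K ρ t r j ^ 2 =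
      ∑ i, ∑ i', if ρ r i = ρ r i' ∧ r < K i ∧ r < K i' then t i * t i' else 0 := by
  classical
  have h1 : ∀ j, Th K ρ t r j ^ 2 = ∑ i, ∑ i',
      if ρ r i = j ∧ ρ r i' = j ∧ r < K i ∧ r < K i' then t i * t i' else 0 := by
    intro j
    unfold Th
    rw [sq, Finset.sum_mul_sum]
    refine Finset.sum_congr rfl fun i _ => Finset.sum_congr rfl fun i' _ => ?_
    by_cases a1 : ρ r i = j <;> by_cases a2 : ρ r i' = j <;> by_cases a3 : r < K i <;>
      by_cases a4 : r < K i' <;> simp [a1, a2, a3, a4]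
  simp only [h1]
  rw [Finset.sum_comm]
  refine Finset.sum_congr rfl fun i _ => ?_
  rw [Finset.sum_comm]
  refine Finset.sum_congr rfl fun i' _ => ?_
  rw [Finset.sum_eq_single (ρ r i)]
  · by_cases a1 : ρ r i = ρ r i'
    · simp [a1]
    · have a2 : ¬ ρ r i' = ρ r i := fun h => a1 h.symm
      simp [a1, a2]
  · intro j _ hj
    have : ¬ ρ r i = j := fun h => hj h.symm
    simp [this]
  · intro h
    exact absurd (Finset.mem_image_of_mem _ (Finset.mem_univ i)) h

end fixed

end Pool.Agent.H78NF
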