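import Pool.Agent.H78NF.P

/-!
# Several vertices: the limit of the characteristic functions
-/

set_option autoImplicit false

namespace Pool.Agent.H78NF
open H974 H906.Cyl Finset Filter Topology MeasureTheory ProbabilityTheory
open Pool.Agent.W819.EN (vb P2 bx an NA Geo geoNA Lnk LTail ltail layers layers_eq nmv DA)
open Pool.Agent.H863R2.NL (cN vN)

/-- the radius `n ^ x` -/
noncomputable def tl (x : ℝ) (n : ℕ) : ℕ := ⌊(n : ℝ) ^ x⌋₊

theorem tl_zero (n : ℕ) : tl 0 n = 1 := by unfold tl; simp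

theorem tl_pos {x : ℝ} (hx : 0 ≤ x) {n : ℕ} (hn : 1 ≤ n) : 1 ≤ tl x n := by
  unfold tl
  apply Nat.le_floor
  rw [Nat.cast_one]
  exact Real.one_le_rpow (by exact_mod_cast hn) hx

theorem tl_mono {x y : ℝ} (h : x ≤ y) {n : ℕ} (hn : 1 ≤ n) : tl x n ≤ tl y n := by
  unfold tl
  apply Nat.floor_mono
  exact Real.rpow_le_rpow_of_exponent_le (by exact_mod_cast hn) h

theorem tl_log {x : ℝ} (hx : 0 ≤ x) :
    Tendsto (fun n : ℕ => Real.log (tl x n) / Real.log n) atTop (𝓝 x) := by
  have h1 : Tendsto (fun n : ℕ => x - Real.log 2 / Real.log n) atTop (𝓝 x) := by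
    have h := (tendsto_const_nhds (x := Real.log 2)).div_atTop log_tend
    have h2 := (tendsto_const_nhds (x := x)).sub h
    rwa [sub_zero] at h2
  refine tendsto_of_tendsto_of_tendsto_of_le_of_le' h1 tendsto_const_nhds ?_ ?_
  · filter_upwards [eventually_ge_atTop 3] with n hn
    have hnR : (3 : ℝ) ≤ n := by exact_mod_cast hn
    have hl : 0 < Real.log n := Real.log_pos (by linarith)
    have h2 : 1 ≤ (n : ℝ) ^ x := Real.one_le_rpow (by linarith) hx
    have h3 : (n : ℝ) ^ x < tl x n + 1 := Nat.lt_floor_add_one _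
    have h4 : (1 : ℝ) ≤ tl x n := by exact_mod_cast tl_pos hx (by omega)
    have h5 : (n : ℝ) ^ x / 2 ≤ tl x n := by linarith
    have h6 := Real.log_le_log (by positivity) h5
    rw [Real.log_div (by positivity) (by norm_num), Real.log_rpow (by linarith)] at h6
    rw [le_div_iff₀ hl, sub_mul, div_mul_cancel₀ _ hl.ne']
    exact h6
  · filter_upwards [eventually_ge_atTop 3] with n hn
    have hnR : (3 : ℝ) ≤ n := by exact_mod_cast hn
    have hl : 0 < Real.log n := Real.log_pos (by linarith)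
    have h4 : (1 : ℝ) ≤ tl x n := by exact_mod_cast tl_pos hx (by omega)
    have h5 : (tl x n : ℝ) ≤ (n : ℝ) ^ x := Nat.floor_le (by positivity)
    have h6 := Real.log_le_log (by linarith) h5
    rw [Real.log_rpow (by linarith)] at h6
    rw [div_le_iff₀ hl]
    exact h6

/-- comparison of orders of magnitude -/
theorem dom {A B : ℕ → ℝ} {α β : ℝ} (hA : ∀ᶠ n in atTop, 0 < A n) (hB : ∀ᶠ n in atTop, 0 < B n)
    (h1 : Tendsto (fun n : ℕ => Real.log (A n) / Real.log n) atTop (𝓝 α))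
    (h2 : Tendsto (fun n : ℕ => Real.log (B n) / Real.log n) atTop (𝓝 β)) (h : α < β) {c : ℝ}
    (hc : 0 < c) : ∀ᶠ n in atTop, c * A n ≤ B n := by
  have h3 := h2.sub h1
  filter_upwards [hA, hB, h3.eventually_const_lt (show (β - α) / 2 < β - α by linarith),
    log_tend.eventually_ge_atTop (max 1 (Real.log c / ((β - α) / 2)))] with n hAn hBn hn hl
  have hl1 : 1 ≤ Real.log n := (le_max_left _ _).trans hl
  have hl2 : Real.log c / ((β - α) / 2) ≤ Real.log n := (le_max_right _ _).trans hl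
  rw [div_le_iff₀ (by linarith)] at hl2
  rw [← sub_div, lt_div_iff₀ (by linarith)] at hn
  rw [← Real.log_le_log_iff (by positivity) hBn, Real.log_mul hc.ne' hAn.ne']
  linarith

/-- the normalization -/
noncomputable def sc (n : ℕ) : ℝ := √(vN * Real.log n)

theorem sc_tend : Tendsto sc atTop atTop := by
  have h := log_tend.const_mul_atTop vN_pos
  exact Real.tendsto_sqrt_atTop.comp h

theorem sc_inv (x : ℝ) : Tendsto (fun n => x / sc n) atTop (𝓝 0) :=
  tendsto_const_nhds.div_atTop sc_tend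

section multi

variable {ι : Type*} [Fintype ι] [DecidableEq ι]

/-- the hypotheses on the vertices and radii -/
structure Hyp (v : ℕ → ι → ℤ × ℤ) (R : ℕ → ι → ℕ) (s : ι → ℝ) (a : ι → ι → ℝ) : Prop where
  hR : ∀ n i, 1 ≤ R n i
  hs : ∀ i, Tendsto (fun n : ℕ => Real.log (R n i) / Real.log n) atTop (𝓝 (s i))
  ha : ∀ i j, Tendsto (fun n : ℕ => Real.log (1 + (dd (v n i) (v n j) : ℝ)) / Real.log n) atTop
    (𝓝 (a i j))

variable {v : ℕ → ι → ℤ × ℤ} {R : ℕ → ι → ℕ} {s : ι → ℝ} {a : ι → ι → ℝ}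

omit [Fintype ι] [DecidableEq ι] in
theorem Hyp.self (H : Hyp v R s a) (i : ι) : a i i = 0 := by
  apply tendsto_nhds_unique (H.ha i i)
  simp [dd_self]

omit [Fintype ι] [DecidableEq ι] in
theorem Hyp.symm (H : Hyp v R s a) (i j : ι) : a i j = a j i := by
  apply tendsto_nhds_unique (H.ha i j)
  refine (H.ha j i).congr fun n => ?_
  rw [dd_comm]

omit [Fintype ι] [DecidableEq ι] in
theorem Hyp.s_nonneg (H : Hyp v R s a) (i : ι) : 0 ≤ s i := by
  apply ge_of_tendsto (H.hs i)
  filter_upwards [log_tend.eventually_ge_atTop 0] with n hn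
  have h1 : (1 : ℝ) ≤ R n i := by exact_mod_cast H.hR n i
  have := Real.log_nonneg h1
  positivity

omit [Fintype ι] [DecidableEq ι] in
theorem Hyp.a_nonneg (H : Hyp v R s a) (i j : ι) : 0 ≤ a i j := by
  apply ge_of_tendsto (H.ha i j)
  filter_upwards [log_tend.eventually_ge_atTop 0] with n hn
  have h1 : (0 : ℝ) ≤ dd (v n i) (v n j) := by exact_mod_cast dd_nonneg _ _
  have := Real.log_nonneg (show (1 : ℝ) ≤ 1 + (dd (v n i) (v n j) : ℝ) by linarith)
  positivity

omit [Fintype ι] [DecidableEq ι] in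
theorem Hyp.ultra (H : Hyp v R s a) (i j k : ι) : a i k ≤ max (a i j) (a j k) := by
  have h1 := (H.ha i j).max (H.ha j k)
  have h2 : Tendsto (fun n : ℕ => Real.log 2 / Real.log n) atTop (𝓝 0) :=
    tendsto_const_nhds.div_atTop log_tend
  have h3 := h2.add h1
  rw [zero_add] at h3
  refine le_of_tendsto_of_tendsto (H.ha i k) h3 ?_
  filter_upwards [log_tend.eventually_ge_atTop 1] with n hn
  have hl : 0 < Real.log n := by linarith
  have d1 : (0 : ℝ) ≤ dd (v n i) (v n j) := by exact_mod_cast dd_nonneg _ _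
  have d2 : (0 : ℝ) ≤ dd (v n j) (v n k) := by exact_mod_cast dd_nonneg _ _
  have d3 : (dd (v n i) (v n k) : ℝ) ≤ dd (v n i) (v n j) + dd (v n j) (v n k) := by
    exact_mod_cast dd_tri _ _ _
  have d0 : (0 : ℝ) ≤ dd (v n i) (v n k) := by exact_mod_cast dd_nonneg _ _
  rw [max_div_div_right hl.le, ← add_div]
  apply div_le_div_of_nonneg_right _ hl.le
  rcases le_total (dd (v n i) (v n j) : ℝ) (dd (v n j) (v n k)) with h | h
  · have h4 : Real.log (1 + (dd (v n i) (v n k) : ℝ)) ≤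
        Real.log (2 * (1 + (dd (v n j) (v n k) : ℝ))) := Real.log_le_log (by linarith) (by linarith)
    rw [Real.log_mul (by norm_num) (by linarith)] at h4
    exact h4.trans (add_le_add le_rfl (le_max_right _ _))
  · have h4 : Real.log (1 + (dd (v n i) (v n k) : ℝ)) ≤
        Real.log (2 * (1 + (dd (v n i) (v n j) : ℝ))) := Real.log_le_log (by linarith) (by linarith)
    rw [Real.log_mul (by norm_num) (by linarith)] at h4
    exact h4.trans (add_le_add le_rfl (le_max_left _ _))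

omit [Fintype ι] [DecidableEq ι] in
/-- representatives -/
theorem Hyp.rep (H : Hyp v R s a) {x : ℝ} (hx : 0 < x) : ∃ ρ : ι → ι, (∀ i, a i (ρ i) < x) ∧
    ∀ i j, a i j < x → ρ i = ρ j := by
  let S : Setoid ι :=
    { r := fun i j => a i j < x
      iseqv :=
        { refl := fun i => by rw [H.self]; exact hx
          symm := fun {i j} h => by rw [H.symm]; exact h
          trans := fun {i j k} h1 h2 => lt_of_le_of_lt (H.ultra i j k) (max_lt h1 h2) } }
  refine ⟨fun i => (Quotient.mk S i).out, fun i => ?_, fun i j hij => ?_⟩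
  · have h : (Quotient.mk S i).out ≈ i := Quotient.mk_out i
    rw [H.symm]
    exact h
  · have h : Quotient.mk S i = Quotient.mk S j := Quotient.sound hij
    show (Quotient.mk S i).out = (Quotient.mk S j).out
    rw [h]

/-- the number of complete windows -/
noncomputable def Kw (s : ι → ℝ) (J : ℕ) (i : ι) : ℕ := ⌈s i * J⌉₊ - 1

omit [Fintype ι] [DecidableEq ι] in
theorem Kw_lt {J : ℕ} {i : ι} (h : Kw s J i ≠ 0) : (Kw s J i : ℝ) < s i * J := by
  unfold Kw at h ⊢
  have h1 : ⌈s i * J⌉₊ - 1 < ⌈s i * J⌉₊ := by omega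
  exact Nat.lt_ceil.1 h1

omit [Fintype ι] [DecidableEq ι] in
theorem Kw_ge (s : ι → ℝ) (J : ℕ) (i : ι) : s i * J ≤ Kw s J i + 1 := by
  unfold Kw
  have h1 : s i * J ≤ ⌈s i * J⌉₊ := Nat.le_ceil _
  have h2 : ⌈s i * J⌉₊ ≤ ⌈s i * J⌉₊ - 1 + 1 := by omega
  have h3 : ((⌈s i * J⌉₊ : ℕ) : ℝ) ≤ ((⌈s i * J⌉₊ - 1 : ℕ) : ℝ) + 1 := by exact_mod_cast h2
  linarith

/-- the good windows -/
noncomputable def Gw (s : ι → ℝ) (a : ι → ι → ℝ) (J : ℕ) : Finset ℕ := by
  classical
  exact (Finset.range (∑ i, Kw s J i)).filter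
    (fun r => 1 ≤ r ∧ ∀ i j, ¬ ((r : ℝ) ≤ a i j * J ∧ a i j * J ≤ r + 1))

omit [DecidableEq ι] in
theorem mem_Gw {J r : ℕ} : r ∈ Gw s a J ↔ r < ∑ i, Kw s J i ∧ 1 ≤ r ∧
    ∀ i j, ¬ ((r : ℝ) ≤ a i j * J ∧ a i j * J ≤ r + 1) := by
  unfold Gw
  rw [Finset.mem_filter, Finset.mem_range]

/-- the bound of the number of bad windows -/
noncomputable def Bw (ι : Type*) [Fintype ι] : ℕ := 1 + Fintype.card ι * (Fintype.card ι * 2)

/-- the bad windows -/
noncomputable def bad (a : ι → ι → ℝ) (J : ℕ) : Finset ℕ :=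
  insert 0 (Finset.univ.biUnion fun i => Finset.univ.biUnion fun j =>
    ({⌊a i j * J⌋₊, ⌊a i j * J⌋₊ - 1} : Finset ℕ))

omit [DecidableEq ι] in
theorem bad_card (a : ι → ι → ℝ) (J : ℕ) : (bad a J).card ≤ Bw ι := by
  unfold bad Bw
  refine (Finset.card_insert_le _ _).trans ?_
  rw [add_comm]
  apply Nat.add_le_add_left
  refine Finset.card_biUnion_le.trans ?_
  refine (Finset.sum_le_card_nsmul _ _ (Fintype.card ι * 2) fun i _ => ?_).trans (by simp)
  refine Finset.card_biUnion_le.trans ?_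
  refine (Finset.sum_le_card_nsmul _ _ 2 fun j _ => ?_).trans (by simp)
  exact Finset.card_le_two

omit [DecidableEq ι] in
theorem not_good {J r : ℕ} (hr : r < ∑ i, Kw s J i) (h : r ∉ Gw s a J) : r ∈ bad a J := by
  unfold bad
  rw [Finset.mem_insert]
  rcases Nat.eq_zero_or_pos r with h0 | h0
  · exact Or.inl h0
  · right
    rw [mem_Gw] at h
    push Not at h
    obtain ⟨i, j, h1, h2⟩ := h hr h0
    rw [Finset.mem_biUnion]
    refine ⟨i, Finset.mem_univ i, ?_⟩
    rw [Finset.mem_biUnion]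
    refine ⟨j, Finset.mem_univ j, ?_⟩
    rw [Finset.mem_insert, Finset.mem_singleton]
    have h3 : r ≤ ⌊a i j * J⌋₊ := Nat.le_floor h1
    have h4 : ⌊a i j * J⌋₊ ≤ r + 1 := by
      have : (⌊a i j * J⌋₊ : ℝ) ≤ a i j * J := Nat.floor_le ((Nat.cast_nonneg r).trans h1)
      have h5 : (⌊a i j * J⌋₊ : ℝ) ≤ ((r + 1 : ℕ) : ℝ) := by push_cast; linarith
      exact_mod_cast h5
    omega

omit [DecidableEq ι] in
theorem Kw_sum (s : ι → ℝ) (J : ℕ) (i : ι) : Kw s J i ≤ ∑ j, Kw s J j :=
  Finset.single_le_sum (f := fun j => Kw s J j) (fun _ _ => Nat.zero_le _) (Finset.mem_univ i)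

omit [DecidableEq ι] in
theorem bad_count (s : ι → ℝ) (a : ι → ι → ℝ) (J : ℕ) (i : ι) :
    (Finset.range (Kw s J i) \ Gw s a J).card ≤ Bw ι := by
  refine (Finset.card_le_card fun r hr => ?_).trans (bad_card a J)
  rw [Finset.mem_sdiff, Finset.mem_range] at hr
  exact not_good (lt_of_lt_of_le hr.1 (Kw_sum s J i)) hr.2

/-- the limit covariance -/
noncomputable def Sg (s : ι → ℝ) (a : ι → ι → ℝ) (i j : ι) : ℝ := max 0 (min (s i) (s j) - a i j)

omit [DecidableEq ι] in
/-- counting the good windows of a pair -/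
theorem count_good (H : Hyp v R s a) {J : ℕ} (hJ : 1 ≤ J) (i j : ι) :
    |(((Gw s a J).filter (fun r : ℕ => a i j * J < r ∧ r < Kw s J i ∧ r < Kw s J j)).card : ℝ) / J -
      Sg s a i j| ≤ (Bw ι + 2) / J := by
  have hJR : (0 : ℝ) < J := by exact_mod_cast hJ
  set N := (Gw s a J).filter (fun r : ℕ => a i j * J < r ∧ r < Kw s J i ∧ r < Kw s J j) with hN
  set x : ℝ := a i j * J with hx
  set K : ℕ := min (Kw s J i) (Kw s J j) with hK
  have hx0 : 0 ≤ x := mul_nonneg (H.a_nonneg i j) hJR.le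
  set y : ℝ := min (s i) (s j) * J with hy
  have hyi : min (s i) (s j) * J = min (s i * J) (s j * J) := min_mul_of_nonneg _ _ hJR.le
  have hKy : (K : ℝ) ≤ y := by
    rw [hy, hyi]
    apply le_min
    · by_cases h0 : Kw s J i = 0
      · have : K = 0 := by rw [hK, h0]; simp
        rw [this, Nat.cast_zero]
        exact mul_nonneg (H.s_nonneg i) hJR.le
      · have h1 := Kw_lt (s := s) h0
        have h2 : (K : ℝ) ≤ Kw s J i := by exact_mod_cast min_le_left _ _
        linarith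
    · by_cases h0 : Kw s J j = 0
      · have : K = 0 := by rw [hK, h0]; simp
        rw [this, Nat.cast_zero]
        exact mul_nonneg (H.s_nonneg j) hJR.le
      · have h1 := Kw_lt (s := s) h0
        have h2 : (K : ℝ) ≤ Kw s J j := by exact_mod_cast min_le_right _ _
        linarith
  have hyK : y ≤ K + 1 := by
    rw [hy, hyi]
    rcases min_choice (Kw s J i) (Kw s J j) with h | h
    · rw [hK, h]
      exact (min_le_left _ _).trans (Kw_ge s J i)
    · rw [hK, h]
      exact (min_le_right _ _).trans (Kw_ge s J j)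
  have hfl := Nat.floor_le hx0
  have hfl2 := Nat.lt_floor_add_one x
  -- upper bound
  have hup : (N.card : ℝ) ≤ max 0 (y - x) := by
    have h1 : N ⊆ Finset.Ioo ⌊x⌋₊ K := by
      intro r hr
      rw [hN, Finset.mem_filter] at hr
      obtain ⟨-, h2, h3, h4⟩ := hr
      rw [Finset.mem_Ioo]
      refine ⟨?_, lt_min h3 h4⟩
      exact (Nat.floor_lt hx0).2 h2
    have h2 := Finset.card_le_card h1
    rw [Nat.card_Ioo] at h2
    rcases Nat.lt_or_ge K (⌊x⌋₊ + 1) with h3 | h3
    · have : N.card = 0 := by omega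
      rw [this, Nat.cast_zero]
      exact le_max_left _ _
    · have h4 : N.card + (⌊x⌋₊ + 1) ≤ K := by omega
      have h5 : (N.card : ℝ) + (⌊x⌋₊ + 1) ≤ K := by exact_mod_cast h4
      refine le_trans ?_ (le_max_right _ _)
      linarith
  have hlo : max 0 (y - x) ≤ N.card + (Bw ι + 2) := by
    apply max_le
    · positivity
    · have h1 : Finset.Ioo ⌊x⌋₊ K ⊆ N ∪ bad a J := by
        intro r hr
        rw [Finset.mem_Ioo] at hr
        rw [Finset.mem_union]
        have hrK : r < Kw s J i := lt_of_lt_of_le hr.2 (min_le_left _ _)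
        have hrK' : r < Kw s J j := lt_of_lt_of_le hr.2 (min_le_right _ _)
        by_cases hg : r ∈ Gw s a J
        · left
          rw [hN, Finset.mem_filter]
          exact ⟨hg, (Nat.floor_lt hx0).1 hr.1, hrK, hrK'⟩
        · exact Or.inr (not_good (lt_of_lt_of_le hrK (Kw_sum s J i)) hg)
      have h2 := (Finset.card_le_card h1).trans (Finset.card_union_le _ _)
      rw [Nat.card_Ioo] at h2
      have h3 := bad_card a J
      have h4 : K ≤ N.card + Bw ι + ⌊x⌋₊ + 1 := by omega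
      have h5 : (K : ℝ) ≤ N.card + Bw ι + ⌊x⌋₊ + 1 := by exact_mod_cast h4
      linarith
  have hS : Sg s a i j = max 0 (y - x) / J := by
    unfold Sg
    rw [hy, hx, ← sub_mul, eq_div_iff hJR.ne', max_mul_of_nonneg _ _ hJR.le, zero_mul]
  rw [hS, ← sub_div, abs_div, abs_of_pos hJR]
  apply div_le_div_of_nonneg_right _ hJR.le
  rw [abs_le]
  constructor
  · linarith
  · have : (0 : ℝ) ≤ Bw ι := Nat.cast_nonneg _
    linarith

end multi

end Pool.Agent.H78NF
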