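import Pool.Agent.H78NF.Q

/-!
# Several vertices: fixed number of windows
-/

set_option autoImplicit false

namespace Pool.Agent.H78NF
open H974 H906.Cyl Finset Filter Topology MeasureTheory ProbabilityTheory
open Pool.Agent.W819.EN (vb P2 bx an NA Geo geoNA Lnk LTail ltail layers layers_eq nmv DA)
open Pool.Agent.H863R2.NL (cN vN)

theorem sc_sq {n : ℕ} (h : 0 ≤ Real.log n) : sc n ^ 2 = vN * Real.log n :=
  Real.sq_sqrt (mul_nonneg vN_pos.le h)

/-- limits of variances -/
theorem var_lim {A B : ℕ → ℝ} {α β : ℝ}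
    (h1 : Tendsto (fun n : ℕ => Real.log (A n) / Real.log n) atTop (𝓝 α))
    (h2 : Tendsto (fun n : ℕ => Real.log (B n) / Real.log n) atTop (𝓝 β)) (θ : ℝ) :
    Tendsto (fun n : ℕ => vN * (Real.log (B n) - Real.log (A n)) * (θ / sc n) ^ 2) atTop
      (𝓝 ((β - α) * θ ^ 2)) := by
  refine ((h2.sub h1).mul_const (θ ^ 2)).congr' ?_
  filter_upwards [log_tend.eventually_ge_atTop 1] with n hn
  have hv := vN_pos
  rw [div_pow, sc_sq (by linarith)]
  field_simp

section multi

variable {ι : Type*} [Fintype ι] [DecidableEq ι]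
variable {v : ℕ → ι → ℤ × ℤ} {R : ℕ → ι → ℕ} {s : ι → ℝ} {a : ι → ι → ℝ}

/-- the limit of the variance of a linear combination -/
noncomputable def Qd (s : ι → ℝ) (a : ι → ι → ℝ) (θ : ι → ℝ) : ℝ :=
  ∑ i, ∑ j, θ i * θ j * Sg s a i j

theorem Th_div (K : ι → ℕ) (ρ : ℕ → ι → ι) (θ : ι → ℝ) (c : ℝ) (r : ℕ) (j : ι) :
    Th K ρ (fun i => θ i / c) r j = Th K ρ θ r j / c := by
  unfold Th
  rw [Finset.sum_div]
  apply Finset.sum_congr rfl
  intro i _
  split_ifs
  · rfl
  · simp

theorem Th_le (K : ι → ℕ) (ρ : ℕ → ι → ι) (θ : ι → ℝ) (r : ℕ) (j : ι) :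
    |Th K ρ θ r j| ≤ ∑ i, |θ i| := by
  unfold Th
  refine (Finset.abs_sum_le_sum_abs _ _).trans ?_
  apply Finset.sum_le_sum
  intro i _
  split_ifs
  · exact le_rfl
  · simp

/-- **Fixed number of windows.** -/
theorem fixJ (H : Hyp v R s a) (θ : ι → ℝ) {J : ℕ} (hJ : 1 ≤ J) : ∃ QJ eJ : ℝ,
    |QJ - Qd s a θ| ≤ (∑ i, |θ i|) ^ 2 * ((Bw ι + 2) / J) ∧
    eJ ≤ (∑ i, |θ i|) * ((Bw ι + 1) / √J) ∧ ∀ ε : ℝ, 0 < ε → ∀ᶠ n : ℕ in atTop,
    ‖∫ ω, e1 (∑ i, θ i / sc n * ((W (v n i) 0 (R n i) ω : ℝ) - cN * Real.log (R n i))) ∂mu2 -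
      (Real.exp (-(QJ / 2)) : ℝ)‖ ≤ eJ + ε := by
  classical
  have hJR : (0 : ℝ) < J := by exact_mod_cast hJ
  have hv := vN_pos
  set G := Gw s a J with hG
  set K := Kw s J with hK
  set P : ℕ → ℕ → ℕ := fun n r => tl ((r : ℝ) / J) n with hP
  -- representatives
  have hex : ∀ r : ℕ, ∃ ρ : ι → ι, 1 ≤ r → (∀ i, a i (ρ i) < (r : ℝ) / J) ∧
      ∀ i j, a i j < (r : ℝ) / J → ρ i = ρ j := by
    intro r
    by_cases hr : 1 ≤ r
    · have hr0 : (0 : ℝ) < r := by exact_mod_cast hr
      obtain ⟨ρ, h⟩ := H.rep (show (0 : ℝ) < (r : ℝ) / J by positivity)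
      exact ⟨ρ, fun _ => h⟩
    · exact ⟨id, fun h => absurd h hr⟩
  choose ρ hρ using hex
  -- exponents of the radii
  have hPl : ∀ r : ℕ, Tendsto (fun n : ℕ => Real.log (P n r) / Real.log n) atTop
      (𝓝 ((r : ℝ) / J)) := fun r => tl_log (by positivity)
  have hPl1 : ∀ r : ℕ, Tendsto (fun n : ℕ => Real.log (P n (r + 1)) / Real.log n) atTop
      (𝓝 (((r : ℝ) + 1) / J)) := by
    intro r
    have := hPl (r + 1)
    push_cast at this
    exact this
  have hPpos : ∀ r : ℕ, ∀ᶠ n : ℕ in atTop, (0 : ℝ) < P n r := by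
    intro r
    filter_upwards [eventually_ge_atTop 1] with n hn
    have : 1 ≤ P n r := tl_pos (by positivity) hn
    exact_mod_cast this
  have hRpos : ∀ i, ∀ᶠ n : ℕ in atTop, (0 : ℝ) < R n i := by
    intro i
    filter_upwards with n
    exact_mod_cast H.hR n i
  have hdpos : ∀ i j, ∀ᶠ n : ℕ in atTop, (0 : ℝ) < 1 + (dd (v n i) (v n j) : ℝ) := by
    intro i j
    filter_upwards with n
    have : (0 : ℝ) ≤ dd (v n i) (v n j) := by exact_mod_cast dd_nonneg _ _
    linarith
  have hlt : ∀ r : ℕ, (r : ℝ) / J < ((r : ℝ) + 1) / J := by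
    intro r
    apply div_lt_div_of_pos_right _ hJR
    linarith
  -- conditions on n
  have E2 : ∀ᶠ n : ℕ in atTop, ∀ r ∈ G, 64 * P n r ≤ P n (r + 1) := by
    rw [Filter.eventually_all_finset]
    intro r _
    filter_upwards [dom (hPpos r) (hPpos (r + 1)) (hPl r) (hPl1 r) (hlt r)
      (show (0 : ℝ) < 64 by norm_num)] with n hn
    exact_mod_cast hn
  have E3 : ∀ᶠ n : ℕ in atTop, ∀ r ∈ G, ∀ i j, (a i j < (r : ℝ) / J →
      dd (v n i) (v n j) ≤ P n r) ∧ (((r : ℝ) + 1) / J < a i j →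
        ((P n (r + 1) : ℕ) : ℤ) < dd (v n i) (v n j)) := by
    rw [Filter.eventually_all_finset]
    intro r _
    rw [Filter.eventually_all]
    intro i
    rw [Filter.eventually_all]
    intro j
    refine Filter.Eventually.and ?_ ?_
    · by_cases h : a i j < (r : ℝ) / J
      · filter_upwards [dom (hdpos i j) (hPpos r) (H.ha i j) (hPl r) h
          (show (0 : ℝ) < 1 by norm_num)] with n hn _
        have h1 : (dd (v n i) (v n j) : ℝ) ≤ ((P n r : ℕ) : ℤ) := by push_cast; linarith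
        exact_mod_cast h1
      · filter_upwards with n h'
        exact absurd h' h
    · by_cases h : ((r : ℝ) + 1) / J < a i j
      · filter_upwards [dom (hPpos (r + 1)) (hdpos i j) (hPl1 r) (H.ha i j) h
          (show (0 : ℝ) < 3 by norm_num), eventually_ge_atTop 1] with n hn hn1 _
        have h2 : (1 : ℝ) ≤ P n (r + 1) := by
          have : 1 ≤ P n (r + 1) := tl_pos (by positivity) hn1
          exact_mod_cast this
        have h1 : (((P n (r + 1) : ℕ) : ℤ) : ℝ) < (dd (v n i) (v n j) : ℝ) := by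
          push_cast
          linarith
        exact_mod_cast h1
      · filter_upwards with n h'
        exact absurd h' h
  have E4 : ∀ᶠ n : ℕ in atTop, ∀ i, P n (K i) ≤ R n i := by
    rw [Filter.eventually_all]
    intro i
    by_cases h0 : K i = 0
    · filter_upwards with n
      rw [h0]
      simp only [hP, Nat.cast_zero, zero_div, tl_zero]
      exact H.hR n i
    · have h1 : (K i : ℝ) / J < s i := by
        rw [div_lt_iff₀ hJR]
        exact Kw_lt h0
      filter_upwards [dom (hPpos (K i)) (hRpos i) (hPl (K i)) (H.hs i) h1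
        (show (0 : ℝ) < 1 by norm_num)] with n hn
      rw [one_mul] at hn
      exact_mod_cast hn
  -- size of the radii
  set M : ℝ := ∑ i, s i + ((∑ i, K i : ℕ) + 1 : ℝ) / J + 1 with hM
  have hs0 : ∀ i, s i ≤ ∑ j, s j := fun i =>
    Finset.single_le_sum (f := s) (fun j _ => H.s_nonneg j) (Finset.mem_univ i)
  have hsum0 : 0 ≤ ∑ j, s j := Finset.sum_nonneg fun j _ => H.s_nonneg j
  have hM0 : 0 ≤ M := by positivity
  have E5 : ∀ᶠ n : ℕ in atTop, ∀ i, Real.log (R n i) ≤ M * Real.log n := by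
    rw [Filter.eventually_all]
    intro i
    filter_upwards [(H.hs i).eventually_lt_const (show s i < s i + 1 by linarith),
      log_tend.eventually_ge_atTop 1] with n hn hl
    rw [div_lt_iff₀ (by linarith)] at hn
    have h1 : s i + 1 ≤ M := by
      rw [hM]
      have : 0 ≤ ((∑ i, K i : ℕ) + 1 : ℝ) / J := by positivity
      linarith [hs0 i]
    have h2 : (s i + 1) * Real.log n ≤ M * Real.log n := mul_le_mul_of_nonneg_right h1 (by linarith)
    linarith
  have E6 : ∀ᶠ n : ℕ in atTop, ∀ r, r ≤ (∑ i, K i) + 1 → Real.log (P n r) ≤ M * Real.log n := by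
    filter_upwards [eventually_ge_atTop 1] with n hn r hr
    have hnR : (1 : ℝ) ≤ n := by exact_mod_cast hn
    have h1 : (1 : ℝ) ≤ P n r := by
      have : 1 ≤ P n r := tl_pos (by positivity) hn
      exact_mod_cast this
    have h2 : (P n r : ℝ) ≤ (n : ℝ) ^ ((r : ℝ) / J) := Nat.floor_le (by positivity)
    have h3 := Real.log_le_log (by linarith) h2
    rw [Real.log_rpow (by linarith)] at h3
    refine h3.trans (mul_le_mul_of_nonneg_right ?_ (Real.log_nonneg hnR))
    have h4 : (r : ℝ) ≤ (∑ i, K i : ℕ) + 1 := by exact_mod_cast hr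
    have h5 := div_le_div_of_nonneg_right h4 hJR.le
    rw [hM]
    linarith
  -- constants
  set Tm : ℝ := ∑ i, |θ i| with hTm
  have hTm0 : 0 ≤ Tm := Finset.sum_nonneg fun i _ => abs_nonneg _
  set K0 : ℝ := Tm ^ 2 * M / vN with hK0
  have hK0b : ∀ n : ℕ, 0 < Real.log n → ∀ x : ℝ, |x| ≤ Tm → ∀ y : ℝ, y ≤ M * Real.log n →
      (x / sc n) ^ 2 * y ≤ K0 := by
    intro n hn x hx y hy
    rw [div_pow, sc_sq hn.le]
    have h1 : x ^ 2 ≤ Tm ^ 2 := by
      rw [← sq_abs]
      exact pow_le_pow_left₀ (abs_nonneg _) hx 2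
    have h2 : x ^ 2 / (vN * Real.log n) * y ≤ x ^ 2 / (vN * Real.log n) * (M * Real.log n) :=
      mul_le_mul_of_nonneg_left hy (by positivity)
    have h3 : x ^ 2 / (vN * Real.log n) * (M * Real.log n) = x ^ 2 * M / vN := by
      field_simp
    rw [h3] at h2
    refine h2.trans ?_
    rw [hK0]
    apply div_le_div_of_nonneg_right _ hv.le
    exact mul_le_mul_of_nonneg_right h1 hM0
  obtain ⟨C1, hC1, h1⟩ := smallD K0
  obtain ⟨C2, hC2, h2⟩ := close_W
  obtain ⟨C3, hC3, h3⟩ := charY K0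
  -- the error term
  set err : ℕ → ℝ := fun n => ∑ i, (|θ i / sc n| * 2 +
      ∑ r ∈ Finset.range (K i) \ G,
        √(vN * (Real.log (P n (r + 1)) - Real.log (P n r)) * (θ i / sc n) ^ 2 + C1 * |θ i / sc n|) +
      √(vN * (Real.log (R n i) - Real.log (P n (K i))) * (θ i / sc n) ^ 2 + C1 * |θ i / sc n|) +
      ∑ r ∈ Finset.range (K i) ∩ G, |θ i / sc n| * C2) with herr
  set eJ : ℝ := ∑ i, (∑ _r ∈ Finset.range (K i) \ G, √(1 / J * θ i ^ 2) +
    √((s i - K i / J) * θ i ^ 2)) with heJ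
  have htend : ∀ i, Tendsto (fun n => |θ i / sc n|) atTop (𝓝 0) := by
    intro i
    have := (sc_inv (θ i)).abs
    rwa [abs_zero] at this
  have herrl : Tendsto err atTop (𝓝 eJ) := by
    rw [herr, heJ]
    apply tendsto_finsetSum
    intro i _
    have t0 : Tendsto (fun n => |θ i / sc n| * 2) atTop (𝓝 0) := by
      have := (htend i).mul_const 2
      rwa [zero_mul] at this
    have tC : Tendsto (fun n => C1 * |θ i / sc n|) atTop (𝓝 0) := by
      have := (htend i).const_mul C1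
      rwa [mul_zero] at this
    have t1 : Tendsto (fun n => ∑ r ∈ Finset.range (K i) \ G,
        √(vN * (Real.log (P n (r + 1)) - Real.log (P n r)) * (θ i / sc n) ^ 2 + C1 * |θ i / sc n|))
        atTop (𝓝 (∑ _r ∈ Finset.range (K i) \ G, √(1 / J * θ i ^ 2))) := by
      apply tendsto_finsetSum
      intro r _
      apply (Real.continuous_sqrt.tendsto _).comp
      have := (var_lim (hPl r) (hPl1 r) (θ i)).add tC
      rw [add_zero, ← sub_div, add_sub_cancel_left] at this
      exact this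
    have t2 : Tendsto (fun n => √(vN * (Real.log (R n i) - Real.log (P n (K i))) *
        (θ i / sc n) ^ 2 + C1 * |θ i / sc n|)) atTop (𝓝 (√((s i - K i / J) * θ i ^ 2))) := by
      apply (Real.continuous_sqrt.tendsto _).comp
      have := (var_lim (hPl (K i)) (H.hs i) (θ i)).add tC
      rw [add_zero] at this
      exact this
    have t3 : Tendsto (fun n => ∑ r ∈ Finset.range (K i) ∩ G, |θ i / sc n| * C2) atTop (𝓝 0) := by
      have : Tendsto (fun n => ∑ r ∈ Finset.range (K i) ∩ G, |θ i / sc n| * C2) atTop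
          (𝓝 (∑ r ∈ Finset.range (K i) ∩ G, 0)) := by
        apply tendsto_finsetSum
        intro r _
        have := (htend i).mul_const C2
        rwa [zero_mul] at this
      rwa [Finset.sum_const_zero] at this
    have := ((t0.add t1).add t2).add t3
    rw [zero_add, add_zero] at this
    exact this
  -- the product
  set Ψ : ℕ → ℂ := fun n => ∏ r ∈ G, ∏ j ∈ Finset.univ.image (ρ r),
    ∫ ω, e1 (Th K ρ θ r j / sc n * Yc (v n j) (P n r) (P n (r + 1)) ω) ∂mu2 with hΨ
  set QJ : ℝ := ∑ r ∈ G, ∑ j ∈ Finset.univ.image (ρ r), 1 / J * Th K ρ θ r j ^ 2 with hQJ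
  have hΨl : Tendsto Ψ atTop (𝓝 ((Real.exp (-(QJ / 2)) : ℝ) : ℂ)) := by
    have e : ((Real.exp (-(QJ / 2)) : ℝ) : ℂ) = ∏ r ∈ G, ∏ j ∈ Finset.univ.image (ρ r),
        ((Real.exp (-(1 / J * Th K ρ θ r j ^ 2 / 2)) : ℝ) : ℂ) := by
      simp only [← Complex.ofReal_prod]
      congr 1
      rw [hQJ, Finset.sum_div, ← Finset.sum_neg_distrib, Real.exp_sum]
      apply Finset.prod_congr rfl
      intro r _
      rw [Finset.sum_div, ← Finset.sum_neg_distrib, Real.exp_sum]
    rw [e, hΨ]
    apply tendsto_finsetProd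
    intro r hr
    apply tendsto_finsetProd
    intro j _
    have hrK : r + 1 ≤ (∑ i, K i) + 1 := by
      have h5 : r < ∑ i, K i := (mem_Gw.1 hr).1
      omega
    have t1 : Tendsto (fun n => ((Real.exp (-(vN * (Real.log (P n (r + 1)) - Real.log (P n r)) *
        (Th K ρ θ r j / sc n) ^ 2 / 2)) : ℝ) : ℂ)) atTop
        (𝓝 ((Real.exp (-(1 / J * Th K ρ θ r j ^ 2 / 2)) : ℝ) : ℂ)) := by
      apply (Complex.continuous_ofReal.tendsto _).comp
      apply (Real.continuous_exp.tendsto _).comp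
      have := ((var_lim (hPl r) (hPl1 r) (Th K ρ θ r j)).div_const 2).neg
      rw [← sub_div, add_sub_cancel_left] at this
      exact this
    have t2 : Tendsto (fun n => C3 * |Th K ρ θ r j / sc n|) atTop (𝓝 0) := by
      have := (sc_inv (Th K ρ θ r j)).abs.const_mul C3
      rwa [abs_zero, mul_zero] at this
    have t3 : Tendsto (fun n => (∫ ω, e1 (Th K ρ θ r j / sc n *
        Yc (v n j) (P n r) (P n (r + 1)) ω) ∂mu2) -
        ((Real.exp (-(vN * (Real.log (P n (r + 1)) - Real.log (P n r)) *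
        (Th K ρ θ r j / sc n) ^ 2 / 2)) : ℝ) : ℂ)) atTop (𝓝 0) := by
      apply squeeze_zero_norm' _ t2
      filter_upwards [E2, E6, eventually_ge_atTop 1, log_tend.eventually_ge_atTop 1]
        with n hn2 hn6 hn1 hnl
      apply h3 (v n j) (P n r) (P n (r + 1)) (tl_pos (by positivity) hn1) (hn2 r hr)
      exact hK0b n (by linarith) _ (Th_le K ρ θ r j) _ (hn6 (r + 1) hrK)
    have := t3.add t1
    rw [zero_add] at this
    refine this.congr fun n => ?_
    ring
  refine ⟨QJ, eJ, ?_, ?_, ?_⟩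
  · -- the variance
    have e : QJ = ∑ i, ∑ i', θ i * θ i' *
        ((((Gw s a J).filter (fun r : ℕ => a i i' * J < r ∧ r < Kw s J i ∧ r < Kw s J i')).card : ℝ) /
          J) := by
      have e2 : ∀ r ∈ G, ∑ j ∈ Finset.univ.image (ρ r), 1 / (J : ℝ) * Th K ρ θ r j ^ 2 =
          ∑ i, ∑ i', if a i i' * J < r ∧ r < K i ∧ r < K i' then 1 / (J : ℝ) * (θ i * θ i') else 0 := by
        intro r hr
        have hr1 : 1 ≤ r := (mem_Gw.1 hr).2.1
        rw [← Finset.mul_sum, Th_sq, Finset.mul_sum]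
        refine Finset.sum_congr rfl fun i _ => ?_
        rw [Finset.mul_sum]
        refine Finset.sum_congr rfl fun i' _ => ?_
        have hiff : ρ r i = ρ r i' ↔ a i i' * J < r := by
          constructor
          · intro h
            have h5 := (hρ r hr1).1 i
            have h6 := (hρ r hr1).1 i'
            rw [← h, H.symm] at h6
            have h7 := lt_of_le_of_lt (H.ultra i (ρ r i) i') (max_lt h5 h6)
            rwa [lt_div_iff₀ hJR] at h7
          · intro h
            apply (hρ r hr1).2 i i'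
            rwa [lt_div_iff₀ hJR]
        by_cases h : ρ r i = ρ r i'
        · have h' := hiff.1 h
          simp only [h, h', true_and]
          split_ifs <;> simp
        · have h' : ¬ (a i i' * J < r) := fun h2 => h (hiff.2 h2)
          simp [h, h']
      rw [hQJ, Finset.sum_congr rfl e2, Finset.sum_comm]
      refine Finset.sum_congr rfl fun i _ => ?_
      rw [Finset.sum_comm]
      refine Finset.sum_congr rfl fun i' _ => ?_
      rw [← Finset.sum_filter, Finset.sum_const, nsmul_eq_mul]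
      ring
    rw [e]
    unfold Qd
    rw [← Finset.sum_sub_distrib]
    refine (Finset.abs_sum_le_sum_abs _ _).trans ?_
    have h5 : ∀ i, |∑ i', θ i * θ i' *
        ((((Gw s a J).filter (fun r : ℕ => a i i' * J < r ∧ r < Kw s J i ∧ r < Kw s J i')).card : ℝ) /
          J) - ∑ j, θ i * θ j * Sg s a i j| ≤ |θ i| * (Tm * ((Bw ι + 2) / J)) := by
      intro i
      rw [← Finset.sum_sub_distrib]
      refine (Finset.abs_sum_le_sum_abs _ _).trans ?_
      rw [hTm, Finset.sum_mul, Finset.mul_sum]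
      apply Finset.sum_le_sum
      intro j _
      rw [← mul_sub, abs_mul, abs_mul, mul_assoc]
      apply mul_le_mul_of_nonneg_left _ (abs_nonneg _)
      exact mul_le_mul_of_nonneg_left (count_good H hJ i j) (abs_nonneg _)
    refine (Finset.sum_le_sum fun i _ => h5 i).trans ?_
    rw [← Finset.sum_mul, ← hTm]
    apply le_of_eq
    ring
  · -- the error
    rw [heJ, hTm, Finset.sum_mul]
    apply Finset.sum_le_sum
    intro i _
    have hsJ : 0 < √(J : ℝ) := Real.sqrt_pos.2 hJR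
    have e1' : √(1 / J * θ i ^ 2) = |θ i| / √J := by
      rw [Real.sqrt_mul (by positivity), Real.sqrt_sq_eq_abs, Real.sqrt_div (by norm_num),
        Real.sqrt_one]
      ring
    have e2 : √((s i - K i / J) * θ i ^ 2) ≤ |θ i| / √J := by
      rw [← e1']
      apply Real.sqrt_le_sqrt
      apply mul_le_mul_of_nonneg_right _ (sq_nonneg _)
      have := Kw_ge s J i
      rw [sub_le_iff_le_add, ← add_div, le_div_iff₀ hJR]
      rw [hK]
      linarith
    rw [Finset.sum_const, nsmul_eq_mul, e1']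
    have h5 : ((Finset.range (K i) \ G).card : ℝ) ≤ Bw ι := by exact_mod_cast bad_count s a J i
    have h6 : 0 ≤ |θ i| / √J := by positivity
    have h7 := mul_le_mul_of_nonneg_right h5 h6
    have h8 : |θ i| * ((Bw ι + 1) / √J) = Bw ι * (|θ i| / √J) + |θ i| / √J := by ring
    rw [h8]
    linarith
  · intro ε hε
    have t1 := herrl.eventually_lt_const (show eJ < eJ + ε / 2 by linarith)
    have t2 : ∀ᶠ n in atTop, ‖Ψ n - ((Real.exp (-(QJ / 2)) : ℝ) : ℂ)‖ < ε / 2 := by
      have := (hΨl.sub_const ((Real.exp (-(QJ / 2)) : ℝ) : ℂ)).norm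
      rw [sub_self, norm_zero] at this
      exact this.eventually_lt_const (by linarith)
    filter_upwards [t1, t2, E2, E3, E4, E5, E6, eventually_ge_atTop 1,
      log_tend.eventually_ge_atTop 1] with n hn1 hn2 he2 he3 he4 he5 he6 hn hnl
    have hl : 0 < Real.log n := by linarith
    have hscp : 0 < sc n := Real.sqrt_pos.2 (by positivity)
    have hPm : Monotone (P n) := by
      intro x y hxy
      apply tl_mono _ hn
      apply div_le_div_of_nonneg_right _ hJR.le
      exact_mod_cast hxy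
    have hP0 : P n 0 = 1 := by
      simp only [hP, Nat.cast_zero, zero_div, tl_zero]
    have hP1 : ∀ r, 1 ≤ P n r := fun r => tl_pos (by positivity) hn
    have hθT : ∀ i, |θ i| ≤ Tm := fun i =>
      Finset.single_le_sum (f := fun i => |θ i|) (fun _ _ => abs_nonneg _) (Finset.mem_univ i)
    -- the dichotomy
    have hdi : ∀ r ∈ G, ∀ i j, a i j < (r : ℝ) / J ∨ ((r : ℝ) + 1) / J < a i j := by
      intro r hr i j
      have h5 := (mem_Gw.1 hr).2.2 i j
      rcases lt_or_ge (a i j * J) r with h6 | h6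
      · left
        rwa [lt_div_iff₀ hJR]
      · right
        rw [div_lt_iff₀ hJR]
        by_contra h7
        exact h5 ⟨h6, not_lt.1 h7⟩
    have hdec := decomp (v n) (R n) (P n) hP0 K G ρ (fun i => θ i / sc n)
    have hprod := prodY (v n) (P n) hPm K G (fun r hr => ⟨hP1 r, he2 r hr⟩) ρ
      (fun i => θ i / sc n)
      (fun r hr i j => by
        rcases hdi r hr i j with h5 | h5
        · exact Or.inl ((he3 r hr i j).1 h5)
        · exact Or.inr ((he3 r hr i j).2 h5))
      (fun r hr i j hij => by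
        have hr1 : 1 ≤ r := (mem_Gw.1 hr).2.1
        rcases hdi r hr (ρ r i) (ρ r j) with h5 | h5
        · exfalso
          apply hij
          -- representatives of related classes are equal
          have h6 := (hρ r hr1).1 i
          have h7 := (hρ r hr1).1 j
          have h8 : a i (ρ r j) < (r : ℝ) / J :=
            lt_of_le_of_lt (H.ultra i (ρ r i) (ρ r j)) (max_lt h6 h5)
          rw [H.symm] at h7
          have h9 : a i j < (r : ℝ) / J :=
            lt_of_le_of_lt (H.ultra i (ρ r j) j) (max_lt h8 h7)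
          exact (hρ r hr1).2 i j h9
        · exact (he3 r hr (ρ r i) (ρ r j)).2 h5)
    have hΨn : ∫ ω, e1 (∑ i, θ i / sc n * ∑ r ∈ Finset.range (K i) ∩ G,
        Yc (v n (ρ r i)) (P n r) (P n (r + 1)) ω) ∂mu2 = Ψ n := by
      rw [hprod, hΨ]
      refine Finset.prod_congr rfl fun r _ => Finset.prod_congr rfl fun j _ => ?_
      rw [Th_div]
    rw [hΨn] at hdec
    have herrn : ∑ i, (|θ i / sc n| * 2 +
        ∑ r ∈ Finset.range (K i) \ G,
          ∫ ω, ‖e1 (θ i / sc n * U (v n i) (P n r) (P n (r + 1)) ω) - 1‖ ∂mu2 +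
        ∫ ω, ‖e1 (θ i / sc n * U (v n i) (P n (K i)) (R n i) ω) - 1‖ ∂mu2 +
        ∑ r ∈ Finset.range (K i) ∩ G, |θ i / sc n| *
          ∫ ω, |U (v n i) (P n r) (P n (r + 1)) ω -
            Yc (v n (ρ r i)) (P n r) (P n (r + 1)) ω| ∂mu2) ≤ err n := by
      rw [herr]
      apply Finset.sum_le_sum
      intro i _
      have hsm : ∀ P' R' : ℕ, 1 ≤ P' → P' ≤ R' → Real.log R' ≤ M * Real.log n →
          ∫ ω, ‖e1 (θ i / sc n * U (v n i) P' R' ω) - 1‖ ∂mu2 ≤
          √(vN * (Real.log R' - Real.log P') * (θ i / sc n) ^ 2 + C1 * |θ i / sc n|) := by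
        intro P' R' hP' hPR' hlog
        by_cases h0 : θ i / sc n = 0
        · rw [h0]
          simp [e1_zero]
        · exact h1 (v n i) P' R' hP' hPR' _ h0 (hK0b n hl _ (hθT i) _ hlog)
      refine add_le_add (add_le_add (add_le_add le_rfl ?_) ?_) ?_
      · apply Finset.sum_le_sum
        intro r hr
        rw [Finset.mem_sdiff, Finset.mem_range] at hr
        apply hsm _ _ (hP1 r) (hPm (Nat.le_succ r))
        apply he6
        have h6 : K i ≤ ∑ i, K i := Kw_sum s J i
        have h5 : r < K i := hr.1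
        omega
      · exact hsm _ _ (hP1 _) (he4 i) (he5 i)
      · apply Finset.sum_le_sum
        intro r hr
        rw [Finset.mem_inter] at hr
        apply mul_le_mul_of_nonneg_left _ (abs_nonneg _)
        have hr1 : 1 ≤ r := (mem_Gw.1 hr.2).2.1
        have h5 := (he3 r hr.2 i (ρ r i)).1 ((hρ r hr1).1 i)
        have h6 := (le_max_left |(v n i).1 - (v n (ρ r i)).1| |(v n i).2 - (v n (ρ r i)).2|).trans h5
        have h7 := (le_max_right |(v n i).1 - (v n (ρ r i)).1| |(v n i).2 - (v n (ρ r i)).2|).trans h5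
        exact h2 (v n i) (v n (ρ r i)) (P n r) (P n (r + 1)) (hP1 r) (he2 r hr.2) h6 h7
    have h9 := norm_sub_le_norm_sub_add_norm_sub
      (∫ ω, e1 (∑ i, θ i / sc n * ((W (v n i) 0 (R n i) ω : ℝ) - cN * Real.log (R n i))) ∂mu2)
      (Ψ n) ((Real.exp (-(QJ / 2)) : ℝ) : ℂ)
    linarith

/-- **The limit of the characteristic functions.** -/
theorem char_lim (H : Hyp v R s a) (θ : ι → ℝ) : Tendsto (fun n : ℕ =>
    ∫ ω, e1 (∑ i, θ i / sc n * ((W (v n i) 0 (R n i) ω : ℝ) - cN * Real.log (R n i))) ∂mu2)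
    atTop (𝓝 ((Real.exp (-(Qd s a θ / 2)) : ℝ) : ℂ)) := by
  rw [Metric.tendsto_nhds]
  intro ε hε
  have hcont : ContinuousAt (fun x : ℝ => Real.exp (-(x / 2))) (Qd s a θ) := by fun_prop
  obtain ⟨δ, hδ, hδ2⟩ := Metric.continuousAt_iff.1 hcont (ε / 4) (by linarith)
  have t1 : Tendsto (fun J : ℕ => (∑ i, |θ i|) * ((Bw ι + 1) / √(J : ℝ))) atTop (𝓝 0) := by
    have h1 : Tendsto (fun J : ℕ => √(J : ℝ)) atTop atTop :=
      Real.tendsto_sqrt_atTop.comp tendsto_natCast_atTop_atTop
    have h2 := ((tendsto_const_nhds (x := (Bw ι + 1 : ℝ))).div_atTop h1).const_mul (∑ i, |θ i|)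
    rwa [mul_zero] at h2
  have t2 : Tendsto (fun J : ℕ => (∑ i, |θ i|) ^ 2 * ((Bw ι + 2) / (J : ℝ))) atTop (𝓝 0) := by
    have h2 := ((tendsto_const_nhds (x := (Bw ι + 2 : ℝ))).div_atTop
      (tendsto_natCast_atTop_atTop (R := ℝ))).const_mul ((∑ i, |θ i|) ^ 2)
    rwa [mul_zero] at h2
  obtain ⟨J, ⟨hJ1, hJ2⟩, hJ⟩ := ((t1.eventually_lt_const (show (0 : ℝ) < ε / 4 by linarith)).and
    (t2.eventually_lt_const hδ)).and (eventually_ge_atTop 1) |>.exists
  obtain ⟨QJ, eJ, h1, h2, h3⟩ := fixJ H θ hJ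
  filter_upwards [h3 (ε / 4) (by linarith)] with n hn
  rw [dist_eq_norm]
  have h4 := norm_sub_le_norm_sub_add_norm_sub
    (∫ ω, e1 (∑ i, θ i / sc n * ((W (v n i) 0 (R n i) ω : ℝ) - cN * Real.log (R n i))) ∂mu2)
    ((Real.exp (-(QJ / 2)) : ℝ) : ℂ) ((Real.exp (-(Qd s a θ / 2)) : ℝ) : ℂ)
  have h5 : ‖((Real.exp (-(QJ / 2)) : ℝ) : ℂ) - ((Real.exp (-(Qd s a θ / 2)) : ℝ) : ℂ)‖ < ε / 4 := by
    rw [← Complex.ofReal_sub, Complex.norm_real]
    have := hδ2 (x := QJ) (by
      rw [Real.dist_eq]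
      exact lt_of_le_of_lt h1 hJ2)
    rwa [dist_eq_norm] at this
  linarith

end multi

end Pool.Agent.H78NF
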